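import Mathlib

/-!
# Symmetric relations of bounded degree in which large sets see each other
-/

set_option autoImplicit false

namespace Pool.Agent.Lib.SubBisL.SharpExp

open Finset

/-- the functions which avoid `b` on `a` -/
lemma card_avoid (s d : ℕ) (a b : Finset (Fin s)) :
    (Finset.univ.filter (fun f : Fin s × Fin d → Fin s => ∀ x, x.1 ∈ a → f x ∉ b)).card =
      (s - b.card) ^ (a.card * d) * s ^ ((s - a.card) * d) := by
  classical
  have h : (Finset.univ.filter (fun f : Fin s × Fin d → Fin s => ∀ x, x.1 ∈ a → f x ∉ b)) =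
      Fintype.piFinset (fun x : Fin s × Fin d => if x.1 ∈ a then bᶜ else univ) := by
    ext f
    simp only [mem_filter, mem_univ, true_and, Fintype.mem_piFinset]
    refine forall_congr' fun x => ?_
    by_cases hx : x.1 ∈ a
    · simp [hx]
    · simp [hx]
  rw [h, Fintype.card_piFinset]
  have h2 : ∀ x : Fin s × Fin d, (if x.1 ∈ a then bᶜ else univ : Finset (Fin s)).card =
      if x.1 ∈ a then s - b.card else s := by
    intro x
    split_ifs
    · rw [card_compl, Fintype.card_fin]
    · rw [card_univ, Fintype.card_fin]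
  rw [prod_congr rfl fun x _ => h2 x, Fintype.prod_prod_type]
  have h3 : ∀ i : Fin s, (∏ _k : Fin d, if i ∈ a then s - b.card else s) =
      if i ∈ a then (s - b.card) ^ d else s ^ d := by
    intro i
    rw [prod_const, card_univ, Fintype.card_fin]
    split_ifs <;> rfl
  rw [prod_congr rfl fun i _ => h3 i, prod_ite, prod_const, prod_const]
  have h4 : (univ.filter (fun i : Fin s => i ∈ a)).card = a.card := by
    congr 1
    ext i
    simp
  have h5 : (univ.filter (fun i : Fin s => i ∉ a)).card = s - a.card := by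
    have : (univ.filter (fun i : Fin s => i ∉ a)) = aᶜ := by
      ext i
      simp
    rw [this, card_compl, Fintype.card_fin]
  rw [h4, h5, ← pow_mul, ← pow_mul, mul_comm d, mul_comm d]

/-- one good function -/
lemma exists_fun (t d s : ℕ) (ht : 0 < t) (hs : 0 < s)
    (hd : (1 - 1 / (2 * t) : ℝ) ^ d ≤ (1 / 5) ^ t) :
    ∃ f : Fin s × Fin d → Fin s, ∀ a b : Finset (Fin s), s < t * a.card → s < 2 * t * b.card →
      ∃ x, x.1 ∈ a ∧ f x ∈ b := by
  classical
  by_contra hcon
  push Not at hcon
  -- every function avoids some pair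
  have hcov : (univ : Finset (Fin s × Fin d → Fin s)) ⊆
      ((univ : Finset (Finset (Fin s) × Finset (Fin s))).filter
        (fun p => s < t * p.1.card ∧ s < 2 * t * p.2.card)).biUnion
        (fun p => univ.filter (fun f : Fin s × Fin d → Fin s => ∀ x, x.1 ∈ p.1 → f x ∉ p.2)) := by
    intro f _
    obtain ⟨a, b, ha, hb, h⟩ := hcon f
    rw [mem_biUnion]
    refine ⟨(a, b), ?_, ?_⟩
    · simp [ha, hb]
    · simp only [mem_filter, mem_univ, true_and]
      exact h
  have h1 := (card_le_card hcov).trans card_biUnion_le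
  rw [card_univ, Fintype.card_fun, Fintype.card_prod, Fintype.card_fin, Fintype.card_fin] at h1
  have hs' : (0 : ℝ) < s := by exact_mod_cast hs
  have ht' : (0 : ℝ) < t := by exact_mod_cast ht
  -- each term
  have h2 : ∀ p ∈ ((univ : Finset (Finset (Fin s) × Finset (Fin s))).filter
        (fun p => s < t * p.1.card ∧ s < 2 * t * p.2.card)),
      (((univ.filter (fun f : Fin s × Fin d → Fin s => ∀ x, x.1 ∈ p.1 → f x ∉ p.2)).card : ℕ) : ℝ)
        ≤ (s : ℝ) ^ (s * d) * (1 / 5) ^ s := by
    intro p hp
    obtain ⟨a, b⟩ := p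
    simp only [mem_filter, mem_univ, true_and] at hp
    obtain ⟨ha, hb⟩ := hp
    rw [card_avoid]
    have hal : a.card ≤ s := (card_le_univ a).trans (by rw [Fintype.card_fin])
    have hbl : b.card ≤ s := (card_le_univ b).trans (by rw [Fintype.card_fin])
    push_cast [Nat.cast_sub hbl]
    have h3 : ((s : ℝ) - b.card) ≤ s * (1 - 1 / (2 * t)) := by
      have : (s : ℝ) < 2 * t * b.card := by exact_mod_cast hb
      have h4 : (s : ℝ) * (1 / (2 * t)) ≤ b.card := by
        rw [mul_one_div, div_le_iff₀ (by positivity)]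
        linarith
      linarith
    have h0 : (0 : ℝ) ≤ (s : ℝ) - b.card := by
      have : (b.card : ℝ) ≤ s := by exact_mod_cast hbl
      linarith
    have h6 : (0 : ℝ) ≤ 1 - 1 / (2 * t) := by
      have : (1 : ℝ) / (2 * t) ≤ 1 := by
        rw [div_le_one (by positivity)]
        have : (1 : ℝ) ≤ t := by exact_mod_cast ht
        linarith
      linarith
    calc ((s : ℝ) - b.card) ^ (a.card * d) * (s : ℝ) ^ ((s - a.card) * d)
        ≤ (s * (1 - 1 / (2 * t))) ^ (a.card * d) * (s : ℝ) ^ ((s - a.card) * d) := by
          gcongr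
      _ = (s : ℝ) ^ (s * d) * ((1 - 1 / (2 * t)) ^ d) ^ a.card := by
          rw [mul_pow, mul_right_comm, ← pow_add, ← add_mul, Nat.add_sub_cancel' hal, ← pow_mul,
            mul_comm a.card d]
      _ ≤ (s : ℝ) ^ (s * d) * ((1 / 5) ^ t) ^ a.card := by
          gcongr
      _ = (s : ℝ) ^ (s * d) * (1 / 5) ^ (t * a.card) := by rw [← pow_mul]
      _ ≤ (s : ℝ) ^ (s * d) * (1 / 5) ^ s := by
          refine mul_le_mul_of_nonneg_left ?_ (by positivity)
          exact pow_le_pow_of_le_one (by norm_num) (by norm_num) ha.le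
  have h7 : (((univ : Finset (Finset (Fin s) × Finset (Fin s))).filter
        (fun p => s < t * p.1.card ∧ s < 2 * t * p.2.card)).card : ℝ) ≤ 4 ^ s := by
    have : ((univ : Finset (Finset (Fin s) × Finset (Fin s))).filter
        (fun p => s < t * p.1.card ∧ s < 2 * t * p.2.card)).card ≤ 4 ^ s := by
      refine (card_filter_le _ _).trans ?_
      rw [card_univ, Fintype.card_prod, Fintype.card_finset, Fintype.card_fin, ← mul_pow]
      norm_num
    exact_mod_cast this
  have h8 : ((s ^ (s * d) : ℕ) : ℝ) ≤ 4 ^ s * ((s : ℝ) ^ (s * d) * (1 / 5) ^ s) := by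
    refine le_trans (Nat.cast_le.mpr h1) ?_
    rw [Nat.cast_sum]
    refine (sum_le_sum h2).trans ?_
    rw [sum_const, nsmul_eq_mul]
    exact mul_le_mul_of_nonneg_right h7 (by positivity)
  push_cast at h8
  have h9 : (4 : ℝ) ^ s * ((s : ℝ) ^ (s * d) * (1 / 5) ^ s) = (s : ℝ) ^ (s * d) * (4 / 5) ^ s := by
    rw [div_pow, div_pow]
    ring
  rw [h9] at h8
  have h10 : (4 / 5 : ℝ) ^ s < 1 := pow_lt_one₀ (by norm_num) (by norm_num) hs.ne'
  have h11 : (0 : ℝ) < (s : ℝ) ^ (s * d) := by positivity
  nlinarith

/-- A symmetric relation on `Fin s` with at most `Δ` neighbours for every point, such that there is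
a related pair between any two sets with more than `s / t` elements. -/
theorem exists_rel (t : ℕ) (ht : 0 < t) : ∃ Δ : ℕ, ∀ s : ℕ, ∃ E : Fin s → Fin s → Prop,
    (∀ i j, E i j → E j i) ∧ (∀ i, {j | E i j}.ncard ≤ Δ) ∧
    ∀ a b : Finset (Fin s), s < t * a.card → s < t * b.card → ∃ i ∈ a, ∃ j ∈ b, E i j := by
  classical
  have ht' : (1 : ℝ) ≤ t := by exact_mod_cast ht
  obtain ⟨d, hd⟩ : ∃ d : ℕ, (1 - 1 / (2 * t) : ℝ) ^ d < (1 / 5) ^ t := by
    refine exists_pow_lt_of_lt_one (by positivity) ?_
    have : (0 : ℝ) < 1 / (2 * t) := by positivity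
    linarith
  refine ⟨d + 2 * t * d, ?_⟩
  intro s
  rcases Nat.eq_zero_or_pos s with hs | hs
  · subst hs
    refine ⟨fun _ _ => False, fun i => i.elim0, fun i => i.elim0, ?_⟩
    intro a b ha _
    have : a.card = 0 := by
      rw [card_eq_zero]
      exact eq_empty_of_isEmpty a
    rw [this] at ha
    omega
  · obtain ⟨f, hf⟩ := exists_fun t d s ht hs hd.le
    -- the points with too many preimages
    let pre : Fin s → Finset (Fin s × Fin d) := fun j => univ.filter (fun x => f x = j)
    let bad : Finset (Fin s) := univ.filter (fun j => 2 * t * d < (pre j).card)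
    have hbad : 2 * t * bad.card ≤ s := by
      have h1 : ∑ j, (pre j).card = s * d := by
        have := card_eq_sum_card_fiberwise (f := f) (s := (univ : Finset (Fin s × Fin d)))
          (t := (univ : Finset (Fin s))) (fun _ _ => mem_univ _)
        rw [card_univ, Fintype.card_prod, Fintype.card_fin, Fintype.card_fin] at this
        exact this.symm
      have h2 : ∑ j ∈ bad, (pre j).card ≤ s * d := by
        rw [← h1]
        exact sum_le_sum_of_subset (subset_univ _)
      have h3 : bad.card * (2 * t * d) ≤ ∑ j ∈ bad, (pre j).card := by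
        rw [← smul_eq_mul]
        refine card_nsmul_le_sum _ _ _ fun j hj => ?_
        simp only [bad, mem_filter, mem_univ, true_and] at hj
        exact hj.le
      rcases Nat.eq_zero_or_pos d with hd0 | hd0
      · -- then the function space is trivial
        exfalso
        have h4 := hf univ univ (by
          rw [card_univ, Fintype.card_fin]
          by_contra hc
          push Not at hc
          have ht1 : t = 1 := by nlinarith
          subst hd0
          subst ht1
          norm_num at hd) (by
          rw [card_univ, Fintype.card_fin]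
          nlinarith)
        obtain ⟨x, _, _⟩ := h4
        exact (hd0 ▸ x.2 : Fin 0).elim0
      · have h4 : d * (2 * t * bad.card) ≤ d * s := by
          calc d * (2 * t * bad.card) = bad.card * (2 * t * d) := by ring
            _ ≤ s * d := h3.trans h2
            _ = d * s := by ring
        exact Nat.le_of_mul_le_mul_left h4 hd0
    refine ⟨fun i j => ((∃ k, f (i, k) = j) ∧ j ∉ bad) ∨ ((∃ k, f (j, k) = i) ∧ i ∉ bad), ?_, ?_, ?_⟩
    · intro i j h
      exact h.symm
    · intro i
      have h1 : {j | ((∃ k, f (i, k) = j) ∧ j ∉ bad) ∨ ((∃ k, f (j, k) = i) ∧ i ∉ bad)} ⊆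
          ((univ.image (fun k : Fin d => f (i, k)) : Finset (Fin s)) : Set (Fin s)) ∪
          (((if i ∈ bad then ∅ else (pre i).image Prod.fst : Finset (Fin s))) : Set (Fin s)) := by
        intro j hj
        rcases hj with ⟨⟨k, hk⟩, _⟩ | ⟨⟨k, hk⟩, hi⟩
        · left
          rw [mem_coe, mem_image]
          exact ⟨k, mem_univ _, hk⟩
        · right
          rw [if_neg hi, mem_coe, mem_image]
          exact ⟨(j, k), by simp [pre, hk], rfl⟩
      refine (Set.ncard_le_ncard h1 (Set.toFinite _)).trans ((Set.ncard_union_le _ _).trans ?_)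
      rw [Set.ncard_coe_finset, Set.ncard_coe_finset]
      refine Nat.add_le_add (card_image_le.trans ?_) ?_
      · rw [card_univ, Fintype.card_fin]
      · split_ifs with hi
        · simp
        · refine card_image_le.trans ?_
          simp only [bad, mem_filter, mem_univ, true_and, not_lt] at hi
          exact hi
    · intro a b ha hb
      have hb2 : s < 2 * t * (b \ bad).card := by
        have h1 : b.card ≤ (b \ bad).card + bad.card := by
          exact card_le_card_sdiff_add_card (s := b) (t := bad)
        nlinarith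
      obtain ⟨⟨i, k⟩, hi, hk⟩ := hf a (b \ bad) ha hb2
      rw [mem_sdiff] at hk
      exact ⟨i, hi, _, hk.1, Or.inl ⟨⟨k, rfl⟩, hk.2⟩⟩

end Pool.Agent.Lib.SubBisL.SharpExp
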