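import Mathlib

/-!
# A symmetric matrix with two phases has two eigenvalues of nearly maximal modulus
-/

set_option autoImplicit false

namespace Pool.Agent.Lib.SubBisL.SharpSpec

open Finset Matrix

variable {S : Type*} [Fintype S] [DecidableEq S]

lemma diag (T : Matrix S S ℝ) (hT : T.IsHermitian) :
    ∃ (U : Matrix S S ℝ) (μ : S → ℝ), Uᵀ * U = 1 ∧ U * Uᵀ = 1 ∧ T = U * diagonal μ * Uᵀ := by
  refine ⟨hT.eigenvectorUnitary, hT.eigenvalues, ?_, ?_, ?_⟩
  · have := (Matrix.mem_unitaryGroup_iff').1 hT.eigenvectorUnitary.2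
    rw [star_eq_conjTranspose, conjTranspose_eq_transpose_of_trivial] at this
    exact this
  · have := (Matrix.mem_unitaryGroup_iff).1 hT.eigenvectorUnitary.2
    rw [star_eq_conjTranspose, conjTranspose_eq_transpose_of_trivial] at this
    exact this
  · have := hT.spectral_theorem
    rw [Unitary.conjStarAlgAut_apply, star_eq_conjTranspose,
      conjTranspose_eq_transpose_of_trivial] at this
    exact this

variable {U : Matrix S S ℝ} {μ : S → ℝ}

lemma pow_eq (h1 : Uᵀ * U = 1) (h2 : U * Uᵀ = 1) (k : ℕ) :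
    (U * diagonal μ * Uᵀ) ^ k = U * diagonal (fun i => μ i ^ k) * Uᵀ := by
  induction k with
  | zero => simp [h2]
  | succ k ih =>
    rw [pow_succ, ih]
    calc U * diagonal (fun i => μ i ^ k) * Uᵀ * (U * diagonal μ * Uᵀ)
        = U * diagonal (fun i => μ i ^ k) * (Uᵀ * U) * diagonal μ * Uᵀ := by
          simp only [Matrix.mul_assoc]
      _ = U * (diagonal (fun i => μ i ^ k) * diagonal μ) * Uᵀ := by
          rw [h1, Matrix.mul_one, Matrix.mul_assoc U]
      _ = _ := by
          rw [diagonal_mul_diagonal]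
          simp only [pow_succ]

lemma trace_eq (h1 : Uᵀ * U = 1) (ν : S → ℝ) :
    (U * diagonal ν * Uᵀ).trace = ∑ i, ν i := by
  rw [Matrix.trace_mul_comm, ← Matrix.mul_assoc, h1, Matrix.one_mul, trace_diagonal]

/-- the quadratic form -/
lemma quad_eq (f : S → ℝ) :
    ∑ a, ∑ b, f a * (U * diagonal μ * Uᵀ) a b * f b = ∑ i, μ i * (∑ a, U a i * f a) ^ 2 := by
  have h : ∀ a b, (U * diagonal μ * Uᵀ) a b = ∑ i, U a i * μ i * U b i := by
    intro a b
    rw [Matrix.mul_apply]
    refine sum_congr rfl fun i _ => ?_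
    rw [Matrix.mul_diagonal, transpose_apply]
  simp only [h]
  have h2 : ∀ a b, f a * (∑ i, U a i * μ i * U b i) * f b =
      ∑ i, μ i * ((U a i * f a) * (U b i * f b)) := by
    intro a b
    rw [mul_sum, sum_mul]
    refine sum_congr rfl fun i _ => ?_
    ring
  simp only [h2]
  have h3 : ∀ i, μ i * (∑ a, U a i * f a) ^ 2 = ∑ a, ∑ b, μ i * ((U a i * f a) * (U b i * f b)) := by
    intro i
    rw [pow_two, sum_mul_sum, mul_sum]
    refine sum_congr rfl fun a _ => ?_
    rw [mul_sum]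
  rw [sum_congr rfl fun i _ => h3 i]
  have h4 : ∀ a, ∑ b, ∑ i, μ i * ((U a i * f a) * (U b i * f b)) =
      ∑ i, ∑ b, μ i * ((U a i * f a) * (U b i * f b)) := fun a => sum_comm
  rw [sum_congr rfl fun a _ => h4 a]
  exact sum_comm

lemma norm_eq (h2 : U * Uᵀ = 1) (f : S → ℝ) : ∑ i, (∑ a, U a i * f a) ^ 2 = ∑ a, f a ^ 2 := by
  have h := quad_eq (U := U) (μ := fun _ => 1) f
  simp only [one_mul] at h
  rw [← h]
  have h3 : U * diagonal (fun _ => (1 : ℝ)) * Uᵀ = 1 := by
    rw [diagonal_one, Matrix.mul_one, h2]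
  rw [h3]
  refine sum_congr rfl fun a _ => ?_
  rw [sum_eq_single a]
  · rw [one_apply_eq]
    ring
  · intro b _ hb
    rw [one_apply_ne hb.symm]
    ring
  · simp

lemma col_eq (h1 : Uᵀ * U = 1) (i j : S) : ∑ a, U a i * U a j = if i = j then 1 else 0 := by
  have : (Uᵀ * U) i j = (1 : Matrix S S ℝ) i j := by rw [h1]
  rw [Matrix.mul_apply, one_apply] at this
  exact this

/-- **Two phases.** -/
theorem two_phases (T : Matrix S S ℝ) (hT : T.IsHermitian) (big : S → Prop)
    (h0 : ∀ a b, big a → big b → T a b = 0) (w : S → ℝ)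
    (hw : ∀ a b, ¬ big a → ¬ big b → |T a b| ≤ w a * w b) (W : ℝ)
    (hW : ∀ s : Finset S, (∀ a ∈ s, ¬ big a) → ∑ a ∈ s, w a ^ 2 ≤ W) (e0 : S) (m : ℝ) (hm : 0 < m)
    (hm2 : m ^ 2 ≤ (T * T) e0 e0) (L : ℕ) (hL : Even L) (hL0 : 0 < L) (hLW : 8 * L * W ≤ m) :
    (T ^ (2 * L)).trace ≤ 4 / 7 * (T ^ L).trace ^ 2 := by
  classical
  obtain ⟨U, μ, h1, h2, rfl⟩ := diag T hT
  have hW0 : 0 ≤ W := by
    have := hW ∅ (by simp)
    simpa using this
  obtain ⟨i0, -, hi0⟩ := exists_max_image (univ : Finset S) (fun i => |μ i|) ⟨e0, mem_univ _⟩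
  set M : ℝ := |μ i0| with hM
  have hmax : ∀ i, |μ i| ≤ M := fun i => hi0 i (mem_univ i)
  have hmM : m ≤ M := by
    have h3 : (U * diagonal μ * Uᵀ * (U * diagonal μ * Uᵀ)) e0 e0 =
        ∑ i, μ i ^ 2 * (U e0 i) ^ 2 := by
      have : U * diagonal μ * Uᵀ * (U * diagonal μ * Uᵀ) =
          U * diagonal (fun i => μ i ^ 2) * Uᵀ := by
        rw [← pow_two, pow_eq h1 h2]
      rw [this, Matrix.mul_apply]
      refine sum_congr rfl fun i _ => ?_
      rw [Matrix.mul_diagonal, transpose_apply]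
      ring
    rw [h3] at hm2
    have h4 : ∑ i, (U e0 i) ^ 2 = 1 := by
      have : (U * Uᵀ) e0 e0 = (1 : Matrix S S ℝ) e0 e0 := by rw [h2]
      rw [Matrix.mul_apply, one_apply_eq] at this
      rw [← this]
      refine sum_congr rfl fun i _ => ?_
      rw [transpose_apply]
      ring
    have h5 : ∑ i, μ i ^ 2 * (U e0 i) ^ 2 ≤ M ^ 2 := by
      calc ∑ i, μ i ^ 2 * (U e0 i) ^ 2 ≤ ∑ i, M ^ 2 * (U e0 i) ^ 2 := by
            refine sum_le_sum fun i _ => ?_
            refine mul_le_mul_of_nonneg_right ?_ (sq_nonneg _)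
            rw [← sq_abs (μ i)]
            exact pow_le_pow_left₀ (abs_nonneg _) (hmax i) 2
        _ = M ^ 2 := by rw [← mul_sum, h4, mul_one]
    exact le_of_sq_le_sq (hm2.trans h5) (abs_nonneg _)
  have hM0 : 0 < M := hm.trans_le hmM
  -- the test vector
  set v : S → ℝ := fun a => U a i0 with hv
  set f : S → ℝ := fun a => if big a then - v a else v a with hf
  have hvv : ∑ a, v a ^ 2 = 1 := by
    have := col_eq h1 i0 i0
    rw [if_pos rfl] at this
    rw [← this]
    refine sum_congr rfl fun a _ => ?_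
    rw [pow_two]
  have hff : ∑ a, f a ^ 2 = 1 := by
    rw [← hvv]
    refine sum_congr rfl fun a _ => ?_
    simp only [hf]
    split_ifs
    · rw [neg_sq]
    · rfl
  set T : Matrix S S ℝ := U * diagonal μ * Uᵀ with hTdef
  have hQv : ∑ a, ∑ b, v a * T a b * v b = μ i0 := by
    rw [hTdef, quad_eq v, sum_eq_single i0]
    · have := col_eq h1 i0 i0
      rw [if_pos rfl] at this
      rw [this]
      ring
    · intro i _ hi
      have := col_eq h1 i i0
      rw [if_neg hi] at this
      rw [this]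
      ring
    · simp
  have hQf : ∑ a, ∑ b, f a * T a b * f b = ∑ i, μ i * (∑ a, U a i * f a) ^ 2 := by
    rw [hTdef, quad_eq f]
  have hg : ∑ i, (∑ a, U a i * f a) ^ 2 = 1 := by
    rw [norm_eq h2 f, hff]
  set Qs : ℝ := ∑ a ∈ univ.filter (fun a => ¬ big a), ∑ b ∈ univ.filter (fun b => ¬ big b),
    v a * T a b * v b with hQs
  have hsum : ∑ a, ∑ b, f a * T a b * f b + ∑ a, ∑ b, v a * T a b * v b = 2 * Qs := by
    rw [hQs, sum_filter, mul_sum, ← sum_add_distrib]
    refine sum_congr rfl fun a _ => ?_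
    by_cases ha : big a
    · rw [if_neg (not_not.mpr ha), mul_zero, ← sum_add_distrib]
      refine sum_eq_zero fun b _ => ?_
      by_cases hb : big b
      · rw [h0 a b ha hb]
        ring
      · simp only [hf, if_pos ha, if_neg hb]
        ring
    · rw [if_pos ha, sum_filter, mul_sum, ← sum_add_distrib]
      refine sum_congr rfl fun b _ => ?_
      by_cases hb : big b
      · rw [if_neg (not_not.mpr hb)]
        simp only [hf, if_neg ha, if_pos hb]
        ring
      · rw [if_pos hb]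
        simp only [hf, if_neg ha, if_neg hb]
        ring
  have hQs2 : |Qs| ≤ W := by
    have h3 : |Qs| ≤ ∑ a ∈ univ.filter (fun a => ¬ big a), ∑ b ∈ univ.filter (fun b => ¬ big b),
        (|v a| * w a) * (|v b| * w b) := by
      rw [hQs]
      refine (abs_sum_le_sum_abs _ _).trans (sum_le_sum fun a ha => ?_)
      refine (abs_sum_le_sum_abs _ _).trans (sum_le_sum fun b hb => ?_)
      rw [mem_filter] at ha hb
      rw [abs_mul, abs_mul]
      calc |v a| * |T a b| * |v b| ≤ |v a| * (w a * w b) * |v b| := by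
            refine mul_le_mul_of_nonneg_right ?_ (abs_nonneg _)
            exact mul_le_mul_of_nonneg_left (hw a b ha.2 hb.2) (abs_nonneg _)
        _ = _ := by ring
    rw [← sum_mul_sum, ← pow_two] at h3
    have h4 := sum_mul_sq_le_sq_mul_sq (univ.filter (fun a => ¬ big a)) (fun a => |v a|) w
    have h5 : ∑ a ∈ univ.filter (fun a => ¬ big a), |v a| ^ 2 ≤ 1 := by
      rw [← hvv]
      refine (sum_le_sum_of_subset_of_nonneg (subset_univ _) fun a _ _ => sq_nonneg _).trans ?_
      refine le_of_eq (sum_congr rfl fun a _ => sq_abs _)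
    have h6 : ∑ a ∈ univ.filter (fun a => ¬ big a), w a ^ 2 ≤ W := by
      refine hW _ fun a ha => ?_
      rw [mem_filter] at ha
      exact ha.2
    calc |Qs| ≤ _ := h3
      _ ≤ _ := h4
      _ ≤ 1 * W := mul_le_mul h5 h6 (sum_nonneg fun a _ => sq_nonneg _) (by norm_num)
      _ = W := one_mul W
  have hWM : 2 * W < M := by
    have : (1 : ℝ) ≤ L := by exact_mod_cast hL0
    have h3 : W ≤ L * W := by nlinarith
    rcases hW0.eq_or_lt with h4 | h4
    · rw [← h4]
      linarith
    · nlinarith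
  -- the second eigenvalue
  obtain ⟨i1, hne, hi1⟩ : ∃ i, i ≠ i0 ∧ M - 2 * W ≤ |μ i| := by
    rw [hQv, hQf] at hsum
    have h3 := abs_le.mp hQs2
    rcases abs_choice (μ i0) with h4 | h4
    · -- positive
      rw [← hM] at h4
      by_contra hcon
      push Not at hcon
      have h5 : ∀ i, - M + 2 * W < μ i := by
        intro i
        by_cases hi : i = i0
        · rw [hi, ← h4]
          linarith
        · have := hcon i hi
          have h6 := neg_abs_le (μ i)
          linarith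
      have h7 : ∑ i, (- M + 2 * W) * (∑ a, U a i * f a) ^ 2 <
          ∑ i, μ i * (∑ a, U a i * f a) ^ 2 := by
        have hex : ∃ i, 0 < (∑ a, U a i * f a) ^ 2 := by
          by_contra hc
          push Not at hc
          have : ∑ i, (∑ a, U a i * f a) ^ 2 ≤ 0 := sum_nonpos fun i _ => hc i
          linarith
        obtain ⟨i, hi⟩ := hex
        refine sum_lt_sum (fun j _ => mul_le_mul_of_nonneg_right (h5 j).le (sq_nonneg _)) ?_
        exact ⟨i, mem_univ _, mul_lt_mul_of_pos_right (h5 i) hi⟩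
      rw [← mul_sum, hg, mul_one] at h7
      linarith [h3.2]
    · rw [← hM] at h4
      by_contra hcon
      push Not at hcon
      have h5 : ∀ i, μ i < M - 2 * W := by
        intro i
        by_cases hi : i = i0
        · rw [hi]
          linarith
        · have := hcon i hi
          have h6 := le_abs_self (μ i)
          linarith
      have h7 : ∑ i, μ i * (∑ a, U a i * f a) ^ 2 <
          ∑ i, (M - 2 * W) * (∑ a, U a i * f a) ^ 2 := by
        have hex : ∃ i, 0 < (∑ a, U a i * f a) ^ 2 := by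
          by_contra hc
          push Not at hc
          have : ∑ i, (∑ a, U a i * f a) ^ 2 ≤ 0 := sum_nonpos fun i _ => hc i
          linarith
        obtain ⟨i, hi⟩ := hex
        refine sum_lt_sum (fun j _ => mul_le_mul_of_nonneg_right (h5 j).le (sq_nonneg _)) ?_
        exact ⟨i, mem_univ _, mul_lt_mul_of_pos_right (h5 i) hi⟩
      rw [← mul_sum, hg, mul_one] at h7
      linarith [h3.1]
  -- powers
  have hp : ∀ i, μ i ^ L = |μ i| ^ L := fun i => (hL.pow_abs (μ i)).symm
  have hp0 : ∀ i, 0 ≤ μ i ^ L := fun i => by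
    rw [hp]
    positivity
  have hpM : ∀ i, μ i ^ L ≤ M ^ L := fun i => by
    rw [hp]
    exact pow_le_pow_left₀ (abs_nonneg _) (hmax i) L
  have hp1 : 3 / 4 * M ^ L ≤ μ i1 ^ L := by
    rw [hp]
    have h3 : (M - 2 * W) ^ L ≤ |μ i1| ^ L := pow_le_pow_left₀ (by linarith) hi1 L
    refine le_trans ?_ h3
    have h4 : (1 + (L : ℝ) * (-(2 * W / M))) ≤ (1 + (-(2 * W / M))) ^ L := by
      refine one_add_mul_le_pow ?_ L
      have : 2 * W / M ≤ 1 := by
        rw [div_le_one hM0]
        exact hWM.le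
      linarith
    have h5 : M - 2 * W = M * (1 + (-(2 * W / M))) := by
      field_simp
      ring
    rw [h5, mul_pow, mul_comm (3 / 4 : ℝ)]
    refine mul_le_mul_of_nonneg_left (le_trans ?_ h4) (by positivity)
    have h6 : (L : ℝ) * (2 * W / M) ≤ 1 / 4 := by
      rw [← mul_div_assoc, div_le_iff₀ hM0]
      nlinarith
    linarith
  have hsumL : (T ^ L).trace = ∑ i, μ i ^ L := by
    rw [hTdef, pow_eq h1 h2, trace_eq h1]
  have hsum2L : (T ^ (2 * L)).trace = ∑ i, (μ i ^ L) ^ 2 := by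
    rw [hTdef, pow_eq h1 h2, trace_eq h1]
    refine sum_congr rfl fun i _ => ?_
    rw [← pow_mul, mul_comm]
  rw [hsumL, hsum2L]
  have h3 : 7 / 4 * M ^ L ≤ ∑ i, μ i ^ L := by
    have h4 : ∑ i ∈ ({i0, i1} : Finset S), μ i ^ L ≤ ∑ i, μ i ^ L :=
      sum_le_sum_of_subset_of_nonneg (subset_univ _) fun i _ _ => hp0 i
    rw [sum_pair hne.symm] at h4
    have h5 : μ i0 ^ L = M ^ L := by rw [hp, hM]
    linarith
  have h4 : ∑ i, (μ i ^ L) ^ 2 ≤ M ^ L * ∑ i, μ i ^ L := by
    rw [mul_sum]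
    refine sum_le_sum fun i _ => ?_
    rw [pow_two]
    exact mul_le_mul_of_nonneg_right (hpM i) (hp0 i)
  have h5 : 0 ≤ ∑ i, μ i ^ L := sum_nonneg fun i _ => hp0 i
  nlinarith

end Pool.Agent.Lib.SubBisL.SharpSpec
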