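import Pool.Agent.Lib.SubBisL.SharpWrap
import Pool.Agent.Lib.SubBisL.SharpExp
import Pool.Agent.Lib.SubBisL.SharpSpec

/-!
# A lower bound for the radius, for a fixed degree and every activity
-/

set_option autoImplicit false

namespace Pool.Agent.Lib.SubBisL.SharpFix

open Finset Pool.Agent.Lib.SubBisL SharpBall SharpTr SharpWrap SharpExp SharpSpec

/-- the weight of the small sets -/
lemma small_weight {s t : ℕ} {lam x b : ℝ} (hlam : 0 < lam) (hx : 0 < x)
    (hb : 1 ≤ b) (h1 : 1 + lam * x ≤ b) (h2 : 1 / x ≤ b ^ t) (F : Finset (Finset (Fin s)))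
    (hF : ∀ A ∈ F, t * A.card ≤ s) : ∑ A ∈ F, lam ^ A.card ≤ b ^ (2 * s) := by
  classical
  have h3 : ∀ A ∈ F, lam ^ A.card ≤ b ^ s * (lam * x) ^ A.card := by
    intro A hA
    have h4 : (1 / x) ^ A.card ≤ b ^ s := by
      calc (1 / x) ^ A.card ≤ (b ^ t) ^ A.card := pow_le_pow_left₀ (by positivity) h2 _
        _ = b ^ (t * A.card) := by rw [← pow_mul]
        _ ≤ b ^ s := pow_le_pow_right₀ hb (hF A hA)
    have h5 : lam ^ A.card = (1 / x) ^ A.card * (lam * x) ^ A.card := by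
      rw [← mul_pow]
      congr 1
      field_simp
    rw [h5]
    exact mul_le_mul_of_nonneg_right h4 (by positivity)
  calc ∑ A ∈ F, lam ^ A.card ≤ ∑ A ∈ F, b ^ s * (lam * x) ^ A.card := sum_le_sum h3
    _ ≤ ∑ A : Finset (Fin s), b ^ s * (lam * x) ^ A.card :=
      sum_le_sum_of_subset_of_nonneg (subset_univ _) fun A _ _ => by positivity
    _ = b ^ s * (1 + lam * x) ^ s := by
      rw [← mul_sum]
      have h6 := Fintype.sum_pow_mul_eq_add_pow (Fin s) (lam * x) 1
      simp only [one_pow, mul_one, Fintype.card_fin] at h6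
      rw [h6, add_comm]
    _ ≤ b ^ s * b ^ s := by gcongr
    _ = b ^ (2 * s) := by rw [← pow_add]; congr 1; ring

lemma ZZ_wrap' {s : ℕ} (E : Fin s → Fin s → Prop) (hE : ∀ i j, E i j → E j i) (q : ℝ) (N : ℕ)
    [NeZero N] (hN : 2 ≤ N) : ZZ (wrap N E hE) (q ^ 2) = ((TM E q) ^ N).trace := by
  obtain ⟨n, rfl⟩ : ∃ n, N = n + 2 := ⟨N - 2, by omega⟩
  exact ZZ_wrap E hE n q

/-- the two cyclic products -/
theorem gap {s t L : ℕ} [NeZero L] [NeZero (2 * L)] {lam x b : ℝ} (hlam : 0 < lam) (hx : 0 < x) (hb : 1 ≤ b)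
    (h1 : 1 + lam * x ≤ b) (h2 : 1 / x ≤ b ^ t) (hb8 : b ^ 8 = 1 + lam)
    (E : Fin s → Fin s → Prop) (hE : ∀ i j, E i j → E j i)
    (hmix : ∀ A B : Finset (Fin s), s < t * A.card → s < t * B.card → ∃ i ∈ A, ∃ j ∈ B, E i j)
    (hL : Even L) (hL0 : 0 < L) (hs : 8 * (L : ℝ) ≤ b ^ (2 * s)) :
    ZZ (wrap (2 * L) E hE) lam ≤ 4 / 7 * ZZ (wrap L E hE) lam ^ 2 := by
  classical
  set q : ℝ := Real.sqrt lam with hq
  have hq0 : 0 ≤ q := Real.sqrt_nonneg _
  have hq2 : q ^ 2 = lam := Real.sq_sqrt hlam.le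
  obtain ⟨k, hk⟩ := hL
  have e1 : ZZ (wrap L E hE) lam = ((TM E q) ^ L).trace := by
    rw [← hq2]
    exact ZZ_wrap' E hE q L (by omega)
  have e2 : ZZ (wrap (2 * L) E hE) lam = ((TM E q) ^ (2 * L)).trace := by
    rw [← hq2]
    exact ZZ_wrap' E hE q (2 * L) (by omega)
  rw [e1, e2]
  have hsym : (TM E q).IsHermitian := by
    rw [Matrix.IsHermitian, Matrix.conjTranspose_eq_transpose_of_trivial]
    ext A B
    rw [Matrix.transpose_apply]
    unfold TM
    by_cases h : ∀ i ∈ A, ∀ j ∈ B, ¬ E i j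
    · rw [if_pos h, if_pos fun i hi j hj hij => h j hj i hi (hE _ _ hij)]
      ring
    · rw [if_neg h, if_neg]
      intro h'
      exact h fun i hi j hj hij => h' j hj i hi (hE _ _ hij)
  refine two_phases (TM E q) hsym (fun A => s < t * A.card) ?_ (fun A => q ^ A.card) ?_
    (b ^ (2 * s)) ?_ ∅ (b ^ (4 * s)) (by positivity) ?_ L ⟨k, hk⟩ hL0 ?_
  · intro A B hA hB
    obtain ⟨i, hi, j, hj, hij⟩ := hmix A B hA hB
    unfold TM
    exact if_neg fun h => h i hi j hj hij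
  · intro A B _ _
    unfold TM
    split_ifs
    · rw [abs_of_nonneg (by positivity)]
    · rw [abs_zero]
      positivity
  · intro F hF
    have h3 : ∀ A ∈ F, (q ^ A.card) ^ 2 = lam ^ A.card := by
      intro A _
      rw [← pow_mul, mul_comm, pow_mul, hq2]
    rw [sum_congr rfl h3]
    exact small_weight hlam hx hb h1 h2 F fun A hA => not_lt.mp (hF A hA)
  · rw [Matrix.mul_apply]
    have h3 : ∀ A : Finset (Fin s), TM E q ∅ A * TM E q A ∅ = lam ^ A.card := by
      intro A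
      unfold TM
      rw [if_pos (by simp), if_pos (by simp), card_empty, pow_zero, one_mul, mul_one, ← pow_two,
        ← pow_mul, mul_comm, pow_mul, hq2]
    rw [sum_congr rfl fun A _ => h3 A]
    have h6 := Fintype.sum_pow_mul_eq_add_pow (Fin s) lam 1
    simp only [one_pow, mul_one, Fintype.card_fin] at h6
    rw [h6, add_comm, ← hb8, ← pow_mul, ← pow_mul]
    exact le_of_eq (by congr 1; ring)
  · calc 8 * (L : ℝ) * b ^ (2 * s) ≤ b ^ (2 * s) * b ^ (2 * s) :=
          mul_le_mul_of_nonneg_right hs (by positivity)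
      _ = b ^ (4 * s) := by rw [← pow_add]; congr 1; ring

/-- the constants -/
lemma consts (lam : ℝ) (hlam : 0 < lam) : ∃ (b x : ℝ) (t : ℕ), 1 < b ∧ 0 < x ∧ 0 < t ∧
    1 + lam * x ≤ b ∧ 1 / x ≤ b ^ t ∧ b ^ 8 = 1 + lam := by
  set b : ℝ := (1 + lam) ^ ((1 : ℝ) / 8) with hb
  have hb8 : b ^ 8 = 1 + lam := by
    rw [hb, ← Real.rpow_natCast, ← Real.rpow_mul (by linarith)]
    norm_num
  have hb1 : 1 < b := Real.one_lt_rpow (by linarith) (by norm_num)
  have hx : 0 < (b - 1) / lam := div_pos (by linarith) hlam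
  obtain ⟨t, ht⟩ := pow_unbounded_of_one_lt (1 / ((b - 1) / lam)) hb1
  refine ⟨b, (b - 1) / lam, t + 1, hb1, hx, by omega, ?_, ?_, hb8⟩
  · rw [mul_div_cancel₀ _ hlam.ne']
    linarith
  · exact ht.le.trans (pow_le_pow_right₀ hb1.le (Nat.le_succ t))

lemma log_seven : (0.8 : ℝ) ≤ Real.logb 2 (7 / 4) := by
  rw [Real.le_logb_iff_rpow_le (by norm_num) (by norm_num)]
  have h : ((2 : ℝ) ^ (0.8 : ℝ)) ^ (5 : ℕ) ≤ (7 / 4 : ℝ) ^ (5 : ℕ) := by
    rw [← Real.rpow_natCast, ← Real.rpow_mul (by norm_num)]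
    have : (0.8 : ℝ) * ((5 : ℕ) : ℝ) = ((4 : ℕ) : ℝ) := by norm_num
    rw [this, Real.rpow_natCast]
    norm_num
  exact le_of_pow_le_pow_left₀ (by norm_num) (by norm_num) h

lemma logb_le_self {y : ℝ} (hy : 0 < y) : Real.logb 2 y ≤ 2 * y := by
  rw [Real.logb, div_le_iff₀ (Real.log_pos (by norm_num))]
  have h1 := Real.log_le_sub_one_of_pos hy
  have h2 := Real.log_two_gt_d9
  nlinarith

/-- the length and the width -/
lemma pars (b : ℝ) (hb : 1 < b) : ∃ c : ℝ, 0 < c ∧ ∀ ε : ℝ, 0 < ε → ε ≤ c → ∀ r : ℕ,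
    (r : ℝ) ≤ c / (ε * Real.logb 2 (1 / ε)) → ∃ s : ℕ, 0 < s ∧
      8 * ((2 * r + 4 : ℕ) : ℝ) ≤ b ^ (2 * s) ∧ ε * (((2 * r + 4 : ℕ) : ℝ) * s) < 0.2 := by
  set β : ℝ := Real.logb 2 b with hβ
  have hβ0 : 0 < β := Real.logb_pos (by norm_num) hb
  set k : ℝ := 1 / (2 * β) + 1 with hk
  have hk1 : 1 ≤ k := by
    have : 0 < 1 / (2 * β) := by positivity
    linarith
  set c : ℝ := 1 / (90000 * k ^ 2) with hc
  have hk0 : 0 < k := by linarith
  have hc0 : 0 < c := by positivity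
  have hc1 : c ≤ 1 / 90000 := by
    rw [hc]
    refine one_div_le_one_div_of_le (by norm_num) ?_
    nlinarith
  refine ⟨c, hc0, ?_⟩
  intro ε hε hεc r hr
  set l : ℝ := Real.logb 2 (1 / ε) with hl
  have hl1 : 6 ≤ l := by
    rw [hl, Real.le_logb_iff_rpow_le (by norm_num) (by positivity)]
    have h1 : (2 : ℝ) ^ (6 : ℝ) = 64 := by norm_num
    rw [h1, le_div_iff₀ hε]
    have := hεc.trans hc1
    linarith
  have hεl : ε * l * r ≤ c := by
    rw [le_div_iff₀ (by positivity)] at hr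
    linarith
  -- the width
  obtain ⟨s, hs1, hs2⟩ : ∃ s : ℕ, l ≤ 2 * s * β ∧ (s : ℝ) ≤ k * l := by
    refine ⟨⌈l / (2 * β)⌉₊, ?_, ?_⟩
    · have := Nat.le_ceil (l / (2 * β))
      rw [div_le_iff₀ (by positivity)] at this
      linarith
    · have := (Nat.ceil_lt_add_one (a := l / (2 * β)) (by positivity)).le
      refine this.trans ?_
      rw [hk]
      have : l / (2 * β) = 1 / (2 * β) * l := by ring
      rw [this]
      linarith
  have hs0 : 0 < s := by
    rcases Nat.eq_zero_or_pos s with h | h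
    · rw [h] at hs1
      norm_num at hs1
      linarith
    · exact h
  refine ⟨s, hs0, ?_, ?_⟩
  · -- 8 L ≤ 1 / ε ≤ b ^ (2 s)
    have h1 : 8 * ((2 * r + 4 : ℕ) : ℝ) ≤ 1 / ε := by
      rw [le_div_iff₀ hε]
      push_cast
      have h2 : ε * r ≤ c / 6 := by
        have : ε * r * 6 ≤ ε * r * l := mul_le_mul_of_nonneg_left hl1 (by positivity)
        linarith
      have h3 := hεc.trans hc1
      nlinarith
    have h2 : (1 : ℝ) / ε ≤ b ^ (2 * s) := by
      have h3 : (1 : ℝ) / ε = 2 ^ l := by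
        rw [hl, Real.rpow_logb (by norm_num) (by norm_num) (by positivity)]
      have h4 : (b : ℝ) = 2 ^ β := by
        rw [hβ, Real.rpow_logb (by norm_num) (by norm_num) (by linarith)]
      rw [h3, h4, ← Real.rpow_natCast, ← Real.rpow_mul (by norm_num)]
      refine Real.rpow_le_rpow_of_exponent_le (by norm_num) ?_
      push_cast
      linarith
    exact h1.trans h2
  · have h1 : ε * (((2 * r + 4 : ℕ) : ℝ) * s) ≤ ε * ((2 * r + 4) * (k * l)) := by
      push_cast
      refine mul_le_mul_of_nonneg_left ?_ hε.le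
      exact mul_le_mul_of_nonneg_left hs2 (by positivity)
    have h2 : ε * ((2 * r + 4) * (k * l)) = 2 * k * (ε * l * r) + 4 * k * (ε * l) := by ring
    -- ε l ≤ 4 √ε
    have h3 : ε * l ≤ 4 * Real.sqrt ε := by
      have h4 : l = 2 * Real.logb 2 (1 / Real.sqrt ε) := by
        rw [hl]
        have h5 : (1 : ℝ) / ε = (1 / Real.sqrt ε) ^ 2 := by
          rw [div_pow, Real.sq_sqrt hε.le, one_pow]
        rw [h5, Real.logb_pow]
        norm_num
      have h5 := logb_le_self (y := 1 / Real.sqrt ε) (by positivity)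
      rw [h4]
      have h6 : ε * (2 * (2 * (1 / Real.sqrt ε))) = 4 * Real.sqrt ε := by
        have h7 : ε = Real.sqrt ε * Real.sqrt ε := (Real.mul_self_sqrt hε.le).symm
        have h8 : Real.sqrt ε ≠ 0 := (Real.sqrt_pos.mpr hε).ne'
        field_simp
        rw [Real.sq_sqrt hε.le]
        ring
      rw [← h6]
      exact mul_le_mul_of_nonneg_left (mul_le_mul_of_nonneg_left h5 (by norm_num)) hε.le
    have h4 : Real.sqrt ε ≤ 1 / (300 * k) := by
      rw [Real.sqrt_le_left (by positivity)]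
      refine hεc.trans (le_of_eq ?_)
      rw [hc, div_pow]
      ring
    have h5 : 4 * k * (ε * l) ≤ 16 / 300 := by
      calc 4 * k * (ε * l) ≤ 4 * k * (4 * (1 / (300 * k))) := by
            refine mul_le_mul_of_nonneg_left ?_ (by positivity)
            linarith
        _ = 16 / 300 := by
          field_simp
          ring
    have h6 : 2 * k * (ε * l * r) ≤ 1 / 10 := by
      have h7 : 2 * k * (ε * l * r) ≤ 2 * k * c := mul_le_mul_of_nonneg_left hεl (by positivity)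
      refine h7.trans ?_
      rw [hc, mul_one_div, div_le_iff₀ (by positivity)]
      nlinarith
    rw [h2] at h1
    have h7 : (16 : ℝ) / 300 + 1 / 10 < 0.2 := by norm_num
    linarith

/-- **Sharpness of the radius**, for graphs of fixed degree. -/
theorem pair_fixed (lam : ℝ) (hlam : 0 < lam) : ∃ (D : ℕ) (c : ℝ), 0 < c ∧
    ∀ ε : ℝ, 0 < ε → ε ≤ c → ∀ r : ℕ, (r : ℝ) ≤ c / (ε * Real.logb 2 (1 / ε)) → ∀ N : ℕ,
      ∃ (V V' : Type) (_ : Fintype V) (_ : Fintype V') (G : SimpleGraph V) (G' : SimpleGraph V')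
        (e : V' ≃ V), G.Colorable 2 ∧ G'.Colorable 2 ∧ DegLe G D ∧ DegLe G' D ∧
        N ≤ Fintype.card V ∧ (∀ v, SameBall G' v G (e v) r) ∧
        2 * (ε * Fintype.card V) < Real.logb 2 (ZZ G lam) - Real.logb 2 (ZZ G' lam) := by
  obtain ⟨b, x, t, hb, hx, ht, h1, h2, hb8⟩ := consts lam hlam
  obtain ⟨Δ, hΔ⟩ := exists_rel t ht
  obtain ⟨c, hc, hpar⟩ := pars b hb
  refine ⟨2 * Δ, c, hc, ?_⟩
  intro ε hε hεc r hr N
  obtain ⟨s, hs0, hs, hLs⟩ := hpar ε hε hεc r hr
  obtain ⟨E, hE, hdeg, hmix⟩ := hΔ s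
  set L : ℕ := 2 * r + 4 with hL
  have hLeven : Even L := ⟨r + 2, by omega⟩
  have hL0 : 0 < L := by omega
  have : NeZero L := ⟨hL0.ne'⟩
  have : NeZero (2 * L) := ⟨by omega⟩
  set m : ℕ := N + 1 with hm
  obtain ⟨e0, he0⟩ := exists_equiv L hL0
  -- the bijection
  let e : Fin m × (ZMod (2 * L) × Fin s) ≃ (Fin m × Fin 2) × (ZMod L × Fin s) :=
    { toFun := fun y => ((y.1, (e0 y.2.1).2), ((e0 y.2.1).1, y.2.2))
      invFun := fun z => (z.1.1, (e0.symm (z.2.1, z.1.2), z.2.2))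
      left_inv := by
        intro y
        simp
      right_inv := by
        intro z
        simp }
  have c1 : Fintype.card ((Fin m × Fin 2) × (ZMod L × Fin s)) = 2 * L * s * m := by
    simp only [Fintype.card_prod, Fintype.card_fin, ZMod.card]
    ring
  have hm0 : (0 : ℝ) < m := by
    rw [hm]
    positivity
  refine ⟨(Fin m × Fin 2) × (ZMod L × Fin s), Fin m × (ZMod (2 * L) × Fin s), inferInstance,
    inferInstance, copies (Fin m × Fin 2) (wrap L E hE), copies (Fin m) (wrap (2 * L) E hE), e,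
    copies_colorable (wrap_colorable E hE L hLeven),
    copies_colorable (wrap_colorable E hE (2 * L) ⟨L, by ring⟩),
    copies_deg (wrap_deg E hE L Δ hdeg), copies_deg (wrap_deg E hE (2 * L) Δ hdeg), ?_, ?_, ?_⟩
  · rw [c1]
    have : 0 < 2 * L * s := by positivity
    nlinarith
  · intro y
    have h3 := sameBall_copies r (wrap (2 * L) E hE) y
    have h4 := sameBall_double E hE r L (by omega) y.2
    have h5 := sameBall_copies r (wrap L E hE) (e y)
    have h6 : (e y).2 = cov L y.2 := by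
      refine Prod.ext ?_ rfl
      exact he0 y.2.1
    rw [h6] at h5
    exact sb_trans h3 (sb_trans h4 (sb_symm h5))
  · have hp1 := ZZ_pos (wrap L E hE) hlam
    have hp2 := ZZ_pos (wrap (2 * L) E hE) hlam
    set l1 : ℝ := Real.logb 2 (ZZ (wrap L E hE) lam) with hl1
    set l2 : ℝ := Real.logb 2 (ZZ (wrap (2 * L) E hE) lam) with hl2
    have z1 : Real.logb 2 (ZZ (copies (Fin m × Fin 2) (wrap L E hE)) lam) = m * (2 * l1) := by
      rw [ZZ_copies, Real.logb_pow]
      simp only [Fintype.card_prod, Fintype.card_fin]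
      push_cast
      ring
    have z2 : Real.logb 2 (ZZ (copies (Fin m) (wrap (2 * L) E hE)) lam) = m * l2 := by
      rw [ZZ_copies, Real.logb_pow, Fintype.card_fin]
    have hgap : 0.8 ≤ 2 * l1 - l2 := by
      have h := gap hlam hx hb.le h1 h2 hb8 E hE hmix hLeven hL0 hs
      have h' : (7 / 4 : ℝ) * ZZ (wrap (2 * L) E hE) lam ≤ ZZ (wrap L E hE) lam ^ 2 := by
        linarith
      have h3 := Real.logb_le_logb_of_le (b := 2) (by norm_num) (by positivity) h'
      rw [Real.logb_mul (by norm_num) hp2.ne', Real.logb_pow] at h3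
      have h4 := log_seven
      push_cast at h3
      linarith
    rw [z1, z2, c1]
    have h3 : 2 * (ε * ((2 * L * s * m : ℕ) : ℝ)) = 4 * (ε * ((L : ℝ) * s)) * m := by
      push_cast
      ring
    have h4 : 4 * (ε * ((L : ℝ) * s)) * m < 4 * 0.2 * m :=
      mul_lt_mul_of_pos_right (mul_lt_mul_of_pos_left hLs (by norm_num)) hm0
    have h5 : (m : ℝ) * 0.8 ≤ m * (2 * l1 - l2) := mul_le_mul_of_nonneg_left hgap hm0.le
    rw [h3]
    linarith

/-- For every activity there are a degree `D` and a constant `c` such that no invariant function of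
balls of radius `r ≤ c / (ε log₂ (1/ε))` approximates `log₂ Z(G)` within `ε n` by its sum over the
vertices, for all bipartite graphs of degree at most `D`. -/
theorem sharp_fixed (lam : ℝ) (hlam : 0 < lam) : ∃ (D : ℕ) (c : ℝ), 0 < c ∧
    ∀ ε : ℝ, 0 < ε → ε ≤ c → ∀ r : ℕ, (r : ℝ) ≤ c / (ε * Real.logb 2 (1 / ε)) →
      ∀ φ : RootFun, φ.Invariant → ∀ N : ℕ, ∃ (V : Type) (_ : Fintype V) (G : SimpleGraph V),
        G.Colorable 2 ∧ DegLe G D ∧ N ≤ Fintype.card V ∧
        ε * Fintype.card V < |Real.logb 2 (ZZ G lam) - ∑ v, φ.at G r v| := by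
  obtain ⟨D, c, hc, h⟩ := pair_fixed lam hlam
  refine ⟨D, c, hc, ?_⟩
  intro ε hε hεc r hr φ hφ N
  obtain ⟨V, V', i1, i2, G, G', e, h1, h2, h3, h4, h5, h7, h8⟩ := h ε hε hεc r hr N
  have hcard : Fintype.card V' = Fintype.card V := Fintype.card_congr e
  have hsum : ∑ v, φ.at G' r v = ∑ v, φ.at G r v := by
    rw [← e.sum_comp]
    exact sum_congr rfl fun v _ => at_eq hφ (h7 v)
  by_cases hcase : ε * (Fintype.card V : ℝ) < |Real.logb 2 (ZZ G lam) - ∑ v, φ.at G r v|
  · exact ⟨V, i1, G, h1, h3, h5, hcase⟩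
  · refine ⟨V', i2, G', h2, h4, by omega, ?_⟩
    rw [hsum, hcard]
    have h9 := abs_le.mp (not_lt.mp hcase)
    rw [lt_abs]
    right
    linarith [h9.2, h8]

end Pool.Agent.Lib.SubBisL.SharpFix
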