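import Pool.Agent.Lib.SubBisL.CoreL
import Pool.Agent.Lib.SubBisX.AccCore

/-!
# The accelerated ascent for a general integer energy
-/

namespace Pool.Agent.Lib.SubBisL

open Finset Pool.Agent.Lib.SubBisX Pool.Agent.Lib.SubBisX.Reg Pool.Agent.Lib.SubBisX.Core SubBis
  SubBisY Pool.Agent.Lib.SubBisX.Acc Pool.Agent.Lib.SubBisX.AccI

variable {n m : ℕ} {F : Finset (Fin n) → ℤ}

/-- The smoothed objective. -/
noncomputable def PsiL (c N : ℕ) (F : Finset (Fin n) → ℤ) (U : Fin n → Fin m) (y : Fin n → ℤ) : ℝ :=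
  ((∑ v, ee m c (U v) * y v : ℤ) : ℝ) - fN N F y

theorem mg_eqL (c : ℕ) {N : ℕ} [NeZero N] (F : Finset (Fin n) → ℤ) (v : Fin n) (u : Fin m)
    (y : Fin n → ℤ) : mg N (grL c F) v u y = (ee m c u : ℝ) - Gs N F y v := by
  have h1 : (av fun _ : Fin n → Fin N => (ee m c u : ℝ)) = (ee m c u : ℝ) := av_const _
  unfold mg Gs
  rw [← h1, ← av_sub]
  refine congrArg av (funext fun ξ => ?_)
  show ((ee m c u - (F (Up (pert y ξ) v) - F (Upo (pert y ξ) v)) : ℤ) : ℝ) =
    (ee m c u : ℝ) - ((F (Up (pert y ξ) v) - F (Upo (pert y ξ) v) : ℤ) : ℝ)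
  push_cast
  ring

theorem sum_mgL (c : ℕ) {N : ℕ} [NeZero N] (F : Finset (Fin n) → ℤ) (U : Fin n → Fin m)
    (y z : Fin n → ℤ) :
    ∑ v, mg N (grL c F) v (U v) y * ((z v - y v : ℤ) : ℝ) =
      ((∑ v, ee m c (U v) * z v : ℤ) : ℝ) - ((∑ v, ee m c (U v) * y v : ℤ) : ℝ) -
        ∑ v, Gs N F y v * ((z v - y v : ℤ) : ℝ) := by
  rw [Int.cast_sum, Int.cast_sum, ← sum_sub_distrib, ← sum_sub_distrib]
  refine sum_congr rfl fun v _ => ?_
  rw [mg_eqL]
  push_cast
  ring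

/-- Concavity of the smoothed objective. -/
theorem hcvL (hF : FCS.Subm F) (h0 : F ∅ = 0) (c : ℕ) {N : ℕ} [NeZero N] (U : Fin n → Fin m)
    (y z : Fin n → ℤ) :
    PsiL c N F U z ≤ PsiL c N F U y + ∑ v, mg N (grL c F) v (U v) y * ((z v - y v : ℤ) : ℝ) := by
  rw [sum_mgL]
  have h1 := fN_sub hF h0 N y z
  unfold PsiL
  linarith

/-- Smoothness of the smoothed objective. -/
theorem hsmL (hF : FCS.Subm F) (h0 : F ∅ = 0) {c G N : ℕ} [NeZero N]
    (hk : ∀ S v, |F (insert v S) - F S| ≤ G) (U : Fin n → Fin m) (y z : Fin n → ℤ) :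
    PsiL c N F U y + ∑ v, mg N (grL c F) v (U v) y * ((z v - y v : ℤ) : ℝ) -
      5 * G / N * ∑ v, ((z v - y v : ℤ) : ℝ) ^ 2 ≤ PsiL c N F U z := by
  rw [sum_mgL]
  have h1 := fN_smooth (N := N) hF h0 hk y z
  unfold PsiL
  linarith

theorem hDL {c G : ℕ} (hk : ∀ S v, |F (insert v S) - F S| ≤ G) (v : Fin n) (u : Fin m) :
    ∃ e : ℤ, ∀ y, |grL c F v u y - e| ≤ G := by
  refine ⟨ee m c u, fun y => ?_⟩
  have h1 : grL c F v u y - ee m c u = -(inc F y v) := by
    unfold grL inc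
    ring
  rw [h1, abs_neg]
  exact abs_inc hk y v

theorem hGL {mu c G : ℕ} (hk : ∀ S v, |F (insert v S) - F S| ≤ G) (v : Fin n)
    (u : Fin (2 ^ mu)) (y : Fin n → ℤ) : |grL c F v u y| ≤ c * mu + G := by
  have h1 : grL c F v u y = ee (2 ^ mu) c u - inc F y v := by
    unfold grL inc
    ring
  rw [h1]
  refine (abs_sub _ _).trans ?_
  have h2 := abs_ee_le (c := c) u.2
  have h3 := abs_inc hk y v
  linarith

/-- The smoothed objective is close to the objective. -/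
theorem abs_PsiL_sub (hF : FCS.Subm F) (h0 : F ∅ = 0) {c G N M : ℕ} [NeZero N]
    (hk : ∀ S v, |F (insert v S) - F S| ≤ G) (U : Fin n → Fin m) {y : Fin n → ℤ}
    (hy0 : ∀ v, 0 ≤ y v) (hy1 : ∀ v, y v ≤ M) :
    |PsiL c N F U y - PhiL c M F U y| ≤ G * (n * N) := by
  rw [PhiL_eq c M h0 U hy0 hy1]
  have h1 : PsiL c N F U y - (FCS.phi F (fun _ u => ee m c u) 1 U y : ℝ) =
      -(av fun ξ : Fin n → Fin N =>
        ((FCS.fhat F (pert y ξ) - FCS.fhat F y : ℤ) : ℝ)) := by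
    unfold PsiL fN FCS.phi
    have h2 : (av fun _ : Fin n → Fin N => (FCS.fhat F y : ℝ)) = (FCS.fhat F y : ℝ) := av_const _
    have h3 : (av fun ξ : Fin n → Fin N => ((FCS.fhat F (pert y ξ) - FCS.fhat F y : ℤ) : ℝ)) =
        (av fun ξ : Fin n → Fin N => (FCS.fhat F (pert y ξ) : ℝ)) - (FCS.fhat F y : ℝ) := by
      rw [← h2, ← av_sub]
      exact congrArg av (funext fun ξ => by push_cast; rfl)
    rw [h3]
    push_cast
    ring
  rw [h1, abs_neg]
  have h4 : (av fun _ : Fin n → Fin N => (G * (n * N) : ℝ)) = G * (n * N) := av_const _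
  have h5 : (av fun _ : Fin n → Fin N => (-(G * (n * N)) : ℝ)) = -(G * (n * N)) := av_const _
  have h6 : ∀ ξ : Fin n → Fin N, -(G * (n * N) : ℝ) ≤
      ((FCS.fhat F (pert y ξ) - FCS.fhat F y : ℤ) : ℝ) ∧
      ((FCS.fhat F (pert y ξ) - FCS.fhat F y : ℤ) : ℝ) ≤ G * (n * N) := by
    intro ξ
    have h7 := abs_le.1 (abs_fhat_pert hF h0 hk y ξ)
    constructor
    · exact_mod_cast h7.1
    · exact_mod_cast h7.2
  rw [abs_le]
  constructor
  · rw [← h5]
    exact av_mono fun ξ => (h6 ξ).1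
  · rw [← h4]
    exact av_mono fun ξ => (h6 ξ).2

/-- **Core of the accelerated method** for a general integer energy. -/
theorem coreAL {mu c M T s N G : ℕ} (hc : 0 < c) (hM : 0 < M) (hT : 0 < T) (hs : 0 < s)
    (hN : 0 < N) (hNG : 80 * s * G ≤ N) (h0 : F ∅ = 0) (hF : FCS.Subm F)
    (hk : ∀ S v, |F (insert v S) - F S| ≤ G) :
    |(av fun w : Fin n → XA (2 ^ mu) n s N T =>
        (PhiL c M F (dig T w) (xo (M : ℤ) (grL c F) T w) : ℝ)) / (c * M) - logZL c F| ≤
      n * ((1 + c * (Real.logb 2 ((2 : ℝ) ^ mu + 1) / 2 ^ mu)) / c + 2 * (G * N) / (c * M) +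
        M / (c * s * T ^ 2) + T * G ^ 2 / (c * M) + T * ((c * mu + G) + 1) / (c * M)) := by
  have : NeZero s := ⟨hs.ne'⟩
  have : NeZero N := ⟨hN.ne'⟩
  obtain ⟨z, hz, hz0, hz1, hzL⟩ := lower_intL (m := 2 ^ mu) (n := n) hc M F
  have hM0 : (0 : ℤ) ≤ (M : ℤ) := Int.natCast_nonneg _
  have hphi : ∀ (U : Fin n → Fin (2 ^ mu)) (y : Fin n → ℤ),
      ((∑ v, ee (2 ^ mu) c (U v) * y v - Bounds.Fhat F M y : ℤ) : ℝ) = (PhiL c M F U y : ℝ) := by
    intro U y
    unfold PhiL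
    rw [Bounds.Fhat_eq_nat]
  have hNr : (0 : ℝ) < N := by exact_mod_cast hN
  have hreg : (wt T : ℝ) * (av fun U : Fin n → Fin (2 ^ mu) =>
      PsiL c N F U (z U)) - n * (M : ℝ) ^ 2 / (2 * s) -
      (∑ a ∈ range T, ((a : ℝ) + 1) ^ 2) * n * (G : ℝ) ^ 2 -
      (∑ a ∈ range T, (wt (a + 1) : ℝ)) * n * ((c * mu + G) + 1) ≤
      wt T * av fun w : Fin n → XA (2 ^ mu) n s N T =>
        PsiL c N F (dig T w) (xo (M : ℤ) (grL c F) T w) := by
    have h := acc_regretX (n := n) (s := s) (N := N) (g := grL c F) hM0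
      (fun U y => PsiL c N F U y) (fun U => PsiL c N F U (z U))
      (L := 5 * G / N) (G := (c : ℝ) * mu + G) (D := (G : ℝ))
      (fun U y z _ _ => hcvL hF h0 c U y z) (fun U y z _ _ => hsmL hF h0 hk U y z)
      z hz0 hz1 hz (fun U y _ => hcvL hF h0 c U y (z U)) (by positivity) ?_ ?_ ?_ T
    · refine le_trans (le_of_eq ?_) h
      have e1 : ∑ a ∈ range T, ((a + 1 : ℕ) : ℝ) ^ 2 = ∑ a ∈ range T, ((a : ℝ) + 1) ^ 2 :=
        sum_congr rfl fun a _ => by push_cast; rfl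
      rw [e1]
      push_cast
      ring
    · have h1 : (80 * s * G : ℝ) ≤ N := by exact_mod_cast hNG
      have e1 : 16 * (s : ℝ) * (5 * G / N) = 80 * s * G / N := by ring
      rw [e1, div_le_one hNr]
      exact h1
    · intro v u y
      unfold mg
      rw [abs_le]
      constructor
      · rw [← av_const (Ω := Fin n → Fin N) (-((c : ℝ) * mu + G))]
        refine av_mono fun ξ => ?_
        have h1 := (abs_le.1 (hGL (mu := mu) (c := c) hk v u fun x => y x + (((ξ x : ℕ) : ℤ)))).1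
        exact_mod_cast h1
      · rw [← av_const (Ω := Fin n → Fin N) ((c : ℝ) * mu + G)]
        refine av_mono fun ξ => ?_
        have h1 := (abs_le.1 (hGL (mu := mu) (c := c) hk v u fun x => y x + (((ξ x : ℕ) : ℤ)))).2
        exact_mod_cast h1
    · intro v u
      obtain ⟨e, he⟩ := hDL (c := c) hk v u
      refine ⟨e, fun y => ?_⟩
      have h1 := he y
      exact_mod_cast h1
  have hmain := acore_num (n := n) (c := c) (M := M) (T := T) (s := s)
    (lZ := logZL c F) (AX := av fun w : Fin n → XA (2 ^ mu) n s N T =>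
      (PhiL c M F (dig T w) (xo (M : ℤ) (grL c F) T w) : ℝ))
    (dl := G * (n * N))
    (el := 1 + c * (Real.logb 2 ((2 : ℝ) ^ mu + 1) / 2 ^ mu))
    hc hM hT hs (by positivity) hreg ?_ ?_ ?_
  · obtain ⟨h1, h2⟩ := hmain
    have hn : (0 : ℝ) ≤ n := Nat.cast_nonneg n
    have hc' : (0 : ℝ) < c := by exact_mod_cast hc
    have hM' : (0 : ℝ) < M := by exact_mod_cast hM
    have hT' : (0 : ℝ) < T := by exact_mod_cast hT
    have hs' : (0 : ℝ) < s := by exact_mod_cast hs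
    have hl : (0 : ℝ) ≤ Real.logb 2 ((2 : ℝ) ^ mu + 1) / 2 ^ mu := by
      apply div_nonneg _ (by positivity)
      apply Real.logb_nonneg (by norm_num)
      have : (0 : ℝ) ≤ 2 ^ mu := by positivity
      linarith
    have h3 : (n : ℝ) / c ≤ n * ((1 + c * (Real.logb 2 ((2 : ℝ) ^ mu + 1) / 2 ^ mu)) / c) := by
      rw [div_eq_mul_one_div]
      refine mul_le_mul_of_nonneg_left (div_le_div_of_nonneg_right ?_ hc'.le) hn
      have := mul_nonneg hc'.le hl
      linarith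
    have h4 : (0 : ℝ) ≤ n * (2 * (G * N) / (c * M) + M / (c * s * T ^ 2) + T * G ^ 2 / (c * M) +
        T * ((c * mu + G) + 1) / (c * M)) := by positivity
    have h5 : (n : ℝ) * (1 + c * (Real.logb 2 ((2 : ℝ) ^ mu + 1) / 2 ^ mu)) / c +
        2 * (G * (n * N)) / (c * M) + n * M / (c * s * T ^ 2) + n * T * (G : ℝ) ^ 2 / (c * M) +
        n * T * ((c * mu + G) + 1) / (c * M) =
        n * ((1 + c * (Real.logb 2 ((2 : ℝ) ^ mu + 1) / 2 ^ mu)) / c + 2 * (G * N) / (c * M) +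
        M / (c * s * T ^ 2) + T * G ^ 2 / (c * M) + T * ((c * mu + G) + 1) / (c * M)) := by ring
    rw [h5] at h2
    have h6 : (n : ℝ) * ((1 + c * (Real.logb 2 ((2 : ℝ) ^ mu + 1) / 2 ^ mu)) / c +
        2 * (G * N) / (c * M) +
        M / (c * s * T ^ 2) + T * G ^ 2 / (c * M) + T * ((c * mu + G) + 1) / (c * M)) =
        n * ((1 + c * (Real.logb 2 ((2 : ℝ) ^ mu + 1) / 2 ^ mu)) / c) +
        n * (2 * (G * N) / (c * M) + M / (c * s * T ^ 2) + T * G ^ 2 / (c * M) +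
        T * ((c * mu + G) + 1) / (c * M)) := by ring
    rw [abs_le]
    constructor <;> linarith
  · have h := upper_intL hc M (base (2 ^ mu) n s N T) (fun f => Acc.av_base _ f) F
      (fun w => xo (M : ℤ) (grL c F) T w)
      (fun w v => (xo_mem hM0 _ w v).1) (fun w v => (xo_mem hM0 _ w v).2)
      (fun v => xo_upto _ v)
    refine (le_of_eq (congrArg av (funext fun w => ?_))).trans h
    exact (hphi (dig T w) _).symm
  · rw [← av_sub]
    rw [abs_le]
    constructor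
    · rw [← av_const (Ω := Fin n → XA (2 ^ mu) n s N T) (-((G : ℝ) * (n * N)))]
      refine av_mono fun w => ?_
      exact (abs_le.1 (abs_PsiL_sub (M := M) hF h0 hk (dig T w)
        (fun v => (xo_mem (g := grL c F) hM0 _ w v).1)
        (fun v => (xo_mem (g := grL c F) hM0 _ w v).2))).1
    · rw [← av_const (Ω := Fin n → XA (2 ^ mu) n s N T) ((G : ℝ) * (n * N))]
      refine av_mono fun w => ?_
      exact (abs_le.1 (abs_PsiL_sub (M := M) hF h0 hk (dig T w)
        (fun v => (xo_mem (g := grL c F) hM0 _ w v).1)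
        (fun v => (xo_mem (g := grL c F) hM0 _ w v).2))).2
  · have h1 : (av fun U : Fin n → Fin (2 ^ mu) => (PhiL c M F U (z U) : ℝ)) ≤
        (av fun U : Fin n → Fin (2 ^ mu) => PsiL c N F U (z U)) + (G : ℝ) * (n * N) := by
      rw [← av_const (Ω := Fin n → Fin (2 ^ mu)) ((G : ℝ) * (n * N)), ← av_add]
      refine av_mono fun U => ?_
      have := (abs_le.1 (abs_PsiL_sub (c := c) (N := N) (M := M) hF h0 hk U
        (fun v => hz0 U v) (fun v => hz1 U v))).1
      linarith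
    refine le_trans ?_ h1
    refine le_trans (le_of_eq ?_) (hzL.trans (le_of_eq (congrArg av (funext fun U => hphi U _))))
    push_cast
    ring

end Pool.Agent.Lib.SubBisL
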