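import Pool.Agent.Lib.SubBisL.Defs

/-!
# Frequencies of balls, vertices of high degree, tight and locally convergent sequences
-/

namespace Pool.Agent.Lib.SubBisL

open Classical in
/-- The fraction of the vertices of `G` whose ball of radius `r` is isomorphic, as a rooted graph,
to `(H, o)`. -/
noncomputable def freq {V : Type} [Fintype V] (G : SimpleGraph V) (r : ℕ) {W : Type}
    (H : SimpleGraph W) (o : W) : ℝ :=
  ((Finset.univ.filter (fun v : V =>
    ∃ e : G.induce (ball G r v) ≃g H, e (root G r v) = o)).card : ℝ) / Fintype.card V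

/-- The number of the vertices of degree more than `D`. -/
noncomputable def high {V : Type} (G : SimpleGraph V) (D : ℕ) : ℕ :=
  Nat.card {v // D < (G.neighborSet v).ncard}

/-- Tightness of a sequence of finite graphs: for every radius all but a small fraction of the
balls have bounded size. -/
def Tight (V : ℕ → Type) [∀ n, Fintype (V n)] (G : ∀ n, SimpleGraph (V n)) : Prop :=
  ∀ (r : ℕ) (delta : ℝ), 0 < delta → ∃ N M : ℕ, ∀ n ≥ M,
    (Nat.card {v : V n // N < (ball (G n) r v).ncard} : ℝ) ≤ delta * Fintype.card (V n)

/-- Every rooted isomorphism type of balls has a limit frequency. -/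
def FreqConv (V : ℕ → Type) [∀ n, Fintype (V n)] (G : ∀ n, SimpleGraph (V n)) : Prop :=
  ∀ (r k : ℕ) (H : SimpleGraph (Fin k)) (o : Fin k),
    ∃ p : ℝ, Filter.Tendsto (fun n => freq (G n) r H o) Filter.atTop (nhds p)

end Pool.Agent.Lib.SubBisL
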