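import Pool.Agent.Lib.SubBisL.Local
import Pool.Agent.Lib.SubBisL.Freq

/-!
# The Benjamini-Schramm form of the locality theorem

The normalised hard-core free energy of a bipartite graph of bounded degree is determined up to
`eps` by the frequencies of the isomorphism types of the balls of a fixed radius; along a locally
convergent sequence it converges.
-/

namespace Pool.Agent.Lib.SubBisL

namespace BSFormAux

open Finset

/-- A ball of radius `r` has at most `(D + 1) ^ r` vertices. -/
theorem ball_ncard {V : Type} [Fintype V] (G : SimpleGraph V) {D : ℕ} (hD : DegLe G D) (v : V)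
    (r : ℕ) : (ball G r v).ncard ≤ (D + 1) ^ r := by
  classical
  induction r with
  | zero =>
    have h : ball G 0 v ⊆ {v} := by
      rintro w ⟨p, hp⟩
      have h0 : p.length = 0 := Nat.le_zero.mp hp
      exact (SimpleGraph.Walk.eq_of_length_eq_zero h0).symm
    calc _ ≤ ({v} : Set V).ncard := Set.ncard_le_ncard h (Set.finite_singleton v)
      _ = 1 := Set.ncard_singleton v
      _ = (D + 1) ^ 0 := by simp
  | succ r ih =>
    have hsub : ball G (r + 1) v ⊆
        (((ball G r v).toFinite.toFinset.biUnion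
          (fun w => insert w (G.neighborSet w).toFinite.toFinset) : Finset V) : Set V) := by
      rintro w ⟨p, hp⟩
      have hq : p.reverse.length ≤ r + 1 := by
        rw [SimpleGraph.Walk.length_reverse]; exact hp
      generalize p.reverse = q at hq
      simp only [Finset.coe_biUnion, Set.mem_iUnion, Finset.coe_insert,
        Set.Finite.coe_toFinset, Set.mem_insert_iff, exists_prop]
      cases q with
      | nil => exact ⟨_, ⟨SimpleGraph.Walk.nil, Nat.zero_le r⟩, Or.inl rfl⟩
      | @cons _ x _ h q =>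
        refine ⟨x, ⟨q.reverse, ?_⟩, Or.inr h.symm⟩
        rw [SimpleGraph.Walk.length_reverse]
        rw [SimpleGraph.Walk.length_cons] at hq
        omega
    have h1 : (ball G (r + 1) v).ncard ≤
        ((ball G r v).toFinite.toFinset.biUnion
          (fun w => insert w (G.neighborSet w).toFinite.toFinset)).card := by
      rw [← Set.ncard_coe_finset]
      exact Set.ncard_le_ncard hsub (Finset.finite_toSet _)
    refine h1.trans ?_
    have h2 := Finset.card_biUnion_le_card_mul (ball G r v).toFinite.toFinset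
      (fun w => insert w (G.neighborSet w).toFinite.toFinset) (D + 1) (by
        intro w _
        refine (Finset.card_insert_le _ _).trans ?_
        rw [← Set.ncard_eq_toFinset_card]
        exact Nat.succ_le_succ (hD w))
    refine h2.trans ?_
    rw [← Set.ncard_eq_toFinset_card, pow_succ]
    exact Nat.mul_le_mul_right _ ih

/-- The labelled rooted graphs with at most `N` vertices. -/
abbrev T (N : ℕ) : Type := Σ k : Fin (N + 1), SimpleGraph (Fin k) × Fin k

/-- Isomorphism of labelled rooted graphs. -/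
def Rel {N : ℕ} (s t : T N) : Prop := ∃ e : s.2.1 ≃g t.2.1, e s.2.2 = t.2.2

theorem rel_refl {N : ℕ} (s : T N) : Rel s s := ⟨SimpleGraph.Iso.refl, rfl⟩

theorem rel_symm {N : ℕ} {s t : T N} (h : Rel s t) : Rel t s := by
  obtain ⟨e, he⟩ := h
  exact ⟨e.symm, by rw [← he]; exact e.symm_apply_apply _⟩

theorem rel_trans {N : ℕ} {s t u : T N} (h : Rel s t) (h' : Rel t u) : Rel s u := by
  obtain ⟨e, he⟩ := h
  obtain ⟨e', he'⟩ := h'
  refine ⟨e.trans e', ?_⟩
  rw [← he', ← he]
  rfl

/-- The setoid of rooted isomorphism. -/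
def std (N : ℕ) : Setoid (T N) := ⟨Rel, rel_refl, rel_symm, rel_trans⟩

/-- A canonical representative of the isomorphism class. -/
noncomputable def rep {N : ℕ} (t : T N) : T N := (Quotient.mk (std N) t).out

theorem rel_rep {N : ℕ} (t : T N) : Rel (rep t) t :=
  Quotient.exact (s := std N) (Quotient.out_eq _)

theorem rep_eq {N : ℕ} {s t : T N} (h : Rel s t) : rep s = rep t := by
  have : Quotient.mk (std N) s = Quotient.mk (std N) t := Quotient.sound (s := std N) h
  rw [rep, rep, this]

theorem rep_rep {N : ℕ} (t : T N) : rep (rep t) = rep t := rep_eq (rel_rep t)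

/-- The ball of `v` has the type `t`. -/
def IsT {V : Type} (G : SimpleGraph V) (r : ℕ) {N : ℕ} (v : V) (t : T N) : Prop :=
  ∃ e : G.induce (ball G r v) ≃g t.2.1, e (root G r v) = t.2.2

theorem isT_rel {V : Type} {G : SimpleGraph V} {r N : ℕ} {v : V} {s t : T N} (h : IsT G r v s)
    (h' : Rel s t) : IsT G r v t := by
  obtain ⟨e, he⟩ := h
  obtain ⟨e', he'⟩ := h'
  refine ⟨e.trans e', ?_⟩
  rw [← he', ← he]
  rfl

theorem rel_of_isT {V : Type} {G : SimpleGraph V} {r N : ℕ} {v : V} {s t : T N}
    (h : IsT G r v s) (h' : IsT G r v t) : Rel s t := by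
  obtain ⟨e, he⟩ := h
  obtain ⟨e', he'⟩ := h'
  refine ⟨e.symm.trans e', ?_⟩
  rw [← he, ← he']
  change e' (e.symm (e (root G r v))) = _
  rw [e.symm_apply_apply]

theorem exists_isT {V : Type} [Fintype V] {G : SimpleGraph V} {r N : ℕ} {v : V}
    (h : (ball G r v).ncard ≤ N) : ∃ t : T N, IsT G r v t := by
  classical
  have : Fintype (ball G r v) := Fintype.ofFinite _
  have hc : Fintype.card (ball G r v) ≤ N := by
    rw [← Nat.card_eq_fintype_card]; exact h
  let f : ball G r v ≃ Fin (Fintype.card (ball G r v)) := Fintype.equivFin _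
  refine ⟨⟨⟨Fintype.card (ball G r v), Nat.lt_succ_of_le hc⟩,
    (G.induce (ball G r v)).comap f.symm, f (root G r v)⟩, ?_⟩
  refine ⟨(SimpleGraph.Iso.comap f.symm (G.induce (ball G r v))).symm, ?_⟩
  rfl

open Classical in
/-- The sum of an invariant function over the vertices, by types. -/
theorem sum_at {V : Type} [Fintype V] (G : SimpleGraph V) {r N : ℕ} [Fintype (T N)]
    (hN : ∀ v, (ball G r v).ncard ≤ N) (φ : RootFun) (hφ : φ.Invariant) :
    (∑ v, φ.at G r v) / Fintype.card V
      = ∑ t : T N, (if rep t = t then freq G r t.2.1 t.2.2 else 0) * φ (Fin t.1) t.2.1 t.2.2 := by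
  have hex : ∀ v, ∃ t : T N, IsT G r v t := fun v => exists_isT (hN v)
  choose τ₀ hτ₀ using hex
  set τ : V → T N := fun v => rep (τ₀ v) with hτ
  have h1 : ∀ v, IsT G r v (τ v) := fun v => isT_rel (hτ₀ v) (rel_symm (rel_rep _))
  have h2 : ∀ v (t : T N), rep t = t → (IsT G r v t ↔ τ v = t) := by
    intro v t ht
    constructor
    · intro h
      have h3 := rep_eq (rel_of_isT (h1 v) h)
      rw [ht] at h3
      rw [← h3, hτ]
      exact (rep_rep _).symm
    · rintro rfl
      exact h1 v
  have h4 : ∀ v, φ.at G r v = φ (Fin (τ v).1) (τ v).2.1 (τ v).2.2 := by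
    intro v
    obtain ⟨e, he⟩ := h1 v
    rw [← he]
    exact hφ _ _ _ _ e _
  rw [← Finset.sum_fiberwise (s := univ) (g := τ) (f := fun v => φ.at G r v), Finset.sum_div]
  apply Finset.sum_congr rfl
  intro t _
  have h5 : ∑ v ∈ univ.filter (fun v => τ v = t), φ.at G r v
      = ((univ.filter (fun v => τ v = t)).card : ℝ) * φ (Fin t.1) t.2.1 t.2.2 := by
    rw [← nsmul_eq_mul, ← Finset.sum_const]
    apply Finset.sum_congr rfl
    intro v hv
    rw [Finset.mem_filter] at hv
    rw [h4 v, hv.2]
  rw [h5]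
  by_cases ht : rep t = t
  · rw [if_pos ht, freq, mul_div_right_comm]
    congr 3
    apply congrArg
    apply Finset.filter_congr
    intro v _
    exact (h2 v t ht).symm
  · rw [if_neg ht]
    have h6 : univ.filter (fun v => τ v = t) = ∅ := by
      apply Finset.filter_eq_empty_iff.mpr
      intro v _ h7
      apply ht
      rw [← h7, hτ]
      exact rep_rep _
    rw [h6]
    simp

end BSFormAux

open BSFormAux in
/-- **Benjamini-Schramm form.** The free energy per vertex is determined up to `eps` by the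
frequencies of the balls of radius `r` (which have at most `N` vertices) up to `eta`. -/
theorem bs_form (D : ℕ) {lam eps : ℝ} (hlam : 0 < lam) (heps : 0 < eps) :
    ∃ (r N : ℕ) (eta : ℝ), 0 < eta ∧
      ∀ (V V' : Type) [Fintype V] [Fintype V'] [Nonempty V] [Nonempty V']
        (G : SimpleGraph V) (G' : SimpleGraph V'), G.Colorable 2 → G'.Colorable 2 →
        DegLe G D → DegLe G' D →
        (∀ k ≤ N, ∀ (H : SimpleGraph (Fin k)) (o : Fin k),
          |freq G r H o - freq G' r H o| ≤ eta) →
        |Real.logb 2 (ZZ G lam) / Fintype.card V - Real.logb 2 (ZZ G' lam) / Fintype.card V'|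
          ≤ eps := by
  classical
  obtain ⟨r, φ, C, hinv, hC, hloc⟩ := locality D hlam (by positivity : 0 < eps / 3)
  have hC0 : 0 ≤ C := (abs_nonneg _).trans (hC (Fin 1) ⊥ 0)
  set N := (D + 1) ^ r with hN
  have : Fintype (T N) := Fintype.ofFinite _
  have hT : (0 : ℝ) ≤ (Fintype.card (T N) : ℝ) := Nat.cast_nonneg _
  refine ⟨r, N, eps / 3 / (Fintype.card (T N) * C + 1), by positivity, ?_⟩
  intro V V' _ _ _ _ G G' hcol hcol' hdeg hdeg' hfreq
  have hn : (0 : ℝ) < (Fintype.card V : ℝ) := by exact_mod_cast Fintype.card_pos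
  have hn' : (0 : ℝ) < (Fintype.card V' : ℝ) := by exact_mod_cast Fintype.card_pos
  have h1 : |Real.logb 2 (ZZ G lam) / Fintype.card V
      - (∑ v, φ.at G r v) / Fintype.card V| ≤ eps / 3 := by
    rw [← sub_div, abs_div, abs_of_pos hn, div_le_iff₀ hn]
    exact hloc V G hcol hdeg
  have h2 : |Real.logb 2 (ZZ G' lam) / Fintype.card V'
      - (∑ v, φ.at G' r v) / Fintype.card V'| ≤ eps / 3 := by
    rw [← sub_div, abs_div, abs_of_pos hn', div_le_iff₀ hn']
    exact hloc V' G' hcol' hdeg'
  have h3 : |(∑ v, φ.at G r v) / Fintype.card V - (∑ v, φ.at G' r v) / Fintype.card V'|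
      ≤ eps / 3 := by
    rw [sum_at G (fun v => ball_ncard G hdeg v r) φ hinv,
      sum_at G' (fun v => ball_ncard G' hdeg' v r) φ hinv, ← Finset.sum_sub_distrib]
    have h4 : ∀ t : T N, |(if rep t = t then freq G r t.2.1 t.2.2 else 0)
          * φ (Fin t.1) t.2.1 t.2.2
        - (if rep t = t then freq G' r t.2.1 t.2.2 else 0) * φ (Fin t.1) t.2.1 t.2.2|
        ≤ eps / 3 / (Fintype.card (T N) * C + 1) * C := by
      intro t
      rw [← sub_mul, abs_mul]
      have h6 : |φ (Fin t.1) t.2.1 t.2.2| ≤ C := hC _ _ _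
      have h7 : |(if rep t = t then freq G r t.2.1 t.2.2 else 0)
          - (if rep t = t then freq G' r t.2.1 t.2.2 else 0)|
          ≤ eps / 3 / (Fintype.card (T N) * C + 1) := by
        split_ifs
        · exact hfreq _ (Nat.lt_succ_iff.mp t.1.2) _ _
        · rw [sub_zero, abs_zero]; positivity
      exact mul_le_mul h7 h6 (abs_nonneg _) (by positivity)
    calc _ ≤ ∑ t : T N, |(if rep t = t then freq G r t.2.1 t.2.2 else 0)
          * φ (Fin t.1) t.2.1 t.2.2
        - (if rep t = t then freq G' r t.2.1 t.2.2 else 0) * φ (Fin t.1) t.2.1 t.2.2| :=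
          Finset.abs_sum_le_sum_abs _ _
      _ ≤ ∑ _t : T N, eps / 3 / (Fintype.card (T N) * C + 1) * C :=
          Finset.sum_le_sum (fun t _ => h4 t)
      _ = Fintype.card (T N) * C * (eps / 3) / (Fintype.card (T N) * C + 1) := by
          rw [Finset.sum_const, Finset.card_univ, nsmul_eq_mul]; ring
      _ ≤ eps / 3 := by
          rw [div_le_iff₀ (by positivity)]
          nlinarith [mul_nonneg hT hC0]
  have e1 := abs_sub_le (Real.logb 2 (ZZ G lam) / Fintype.card V)
    ((∑ v, φ.at G r v) / Fintype.card V) (Real.logb 2 (ZZ G' lam) / Fintype.card V')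
  have e2 := abs_sub_le ((∑ v, φ.at G r v) / Fintype.card V)
    ((∑ v, φ.at G' r v) / Fintype.card V') (Real.logb 2 (ZZ G' lam) / Fintype.card V')
  rw [abs_sub_comm ((∑ v, φ.at G' r v) / Fintype.card V')] at e2
  linarith

open Filter Topology in
/-- **Convergence.** Along a locally (Benjamini-Schramm) convergent sequence of bipartite graphs of
bounded degree the free energy per vertex converges. -/
theorem bs_convergence (D : ℕ) {lam : ℝ} (hlam : 0 < lam) (V : ℕ → Type)
    [∀ n, Fintype (V n)] [∀ n, Nonempty (V n)] (G : ∀ n, SimpleGraph (V n))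
    (hcol : ∀ n, (G n).Colorable 2) (hdeg : ∀ n, DegLe (G n) D)
    (hconv : ∀ (r k : ℕ) (H : SimpleGraph (Fin k)) (o : Fin k),
      ∃ p : ℝ, Tendsto (fun n => freq (G n) r H o) atTop (𝓝 p)) :
    ∃ L : ℝ, Tendsto (fun n => Real.logb 2 (ZZ (G n) lam) / Fintype.card (V n)) atTop (𝓝 L) := by
  classical
  apply cauchySeq_tendsto_of_complete
  rw [Metric.cauchySeq_iff]
  intro eps heps
  obtain ⟨r, N, eta, heta, hbs⟩ := bs_form D hlam (half_pos heps)
  have : Fintype (BSFormAux.T N) := Fintype.ofFinite _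
  have h1 : ∀ t : BSFormAux.T N, ∃ M : ℕ, ∀ m ≥ M, ∀ n ≥ M,
      |freq (G m) r t.2.1 t.2.2 - freq (G n) r t.2.1 t.2.2| ≤ eta := by
    intro t
    obtain ⟨p, hp⟩ := hconv r t.1 t.2.1 t.2.2
    obtain ⟨M, hM⟩ := Metric.cauchySeq_iff.mp hp.cauchySeq eta heta
    exact ⟨M, fun m hm n hn => by
      have := hM m hm n hn
      rw [Real.dist_eq] at this
      exact this.le⟩
  choose M hM using h1
  refine ⟨Finset.univ.sup M, fun m hm n hn => ?_⟩
  rw [Real.dist_eq]
  refine lt_of_le_of_lt (hbs (V m) (V n) (G m) (G n) (hcol m) (hcol n) (hdeg m) (hdeg n) ?_)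
    (half_lt_self heps)
  intro k hk H o
  have h2 : M ⟨⟨k, Nat.lt_succ_of_le hk⟩, H, o⟩ ≤ Finset.univ.sup M :=
    Finset.le_sup (f := M) (Finset.mem_univ _)
  exact hM ⟨⟨k, Nat.lt_succ_of_le hk⟩, H, o⟩ m (h2.trans hm) n (h2.trans hn)

end Pool.Agent.Lib.SubBisL
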