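import Pool.Agent.Lib.SubBisL.Local

/-!
# Constant-query estimation and the Benjamini-Schramm form of the locality theorem
-/

namespace Pool.Agent.Lib.SubBisL

namespace EstimAux

open Finset

/-! ## Second moment of an average of independent samples -/

/-- The sum over all samples of the sum of a centred function vanishes. -/
theorem sum_sum_eq_zero {V : Type} [Fintype V] (g : V → ℝ) (hg : ∑ v, g v = 0) (K : ℕ) :
    ∑ s : Fin K → V, ∑ i, g (s i) = 0 := by
  classical
  rw [Finset.sum_comm]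
  apply Finset.sum_eq_zero
  intro i _
  have h := Fintype.sum_equiv (Equiv.piSplitAt i (fun _ : Fin K => V))
    (fun s => g (s i)) (fun p => g p.1) (fun s => by simp [Equiv.piSplitAt])
  rw [h, Fintype.sum_prod_type]
  rw [Finset.sum_comm]
  simp [hg]

/-- Second moment: `∑_s (∑_i g (s i))² ≤ K n^K B` for a centred `g` with `∑ g² ≤ n B`. -/
theorem second_moment {V : Type} [Fintype V] (g : V → ℝ) (hg : ∑ v, g v = 0) (B : ℝ)
    (hB : ∑ v, g v ^ 2 ≤ Fintype.card V * B) (K : ℕ) :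
    ∑ s : Fin K → V, (∑ i, g (s i)) ^ 2 ≤ K * (Fintype.card V : ℝ) ^ K * B := by
  classical
  induction K with
  | zero => simp
  | succ K ih =>
    have h := Fintype.sum_equiv (Fin.consEquiv (fun _ : Fin (K + 1) => V))
      (fun p : V × (Fin K → V) => (g p.1 + ∑ i, g (p.2 i)) ^ 2)
      (fun s => (∑ i, g (s i)) ^ 2) (fun p => by
        simp [Fin.consEquiv, Fin.sum_univ_succ])
    rw [← h, Fintype.sum_prod_type]
    have h2 : ∀ v : V, ∑ s : Fin K → V, (g v + ∑ i, g (s i)) ^ 2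
        = (Fintype.card V : ℝ) ^ K * g v ^ 2 + ∑ s : Fin K → V, (∑ i, g (s i)) ^ 2 := by
      intro v
      have h3 : ∀ s : Fin K → V, (g v + ∑ i, g (s i)) ^ 2
          = g v ^ 2 + 2 * g v * (∑ i, g (s i)) + (∑ i, g (s i)) ^ 2 := fun s => by ring
      simp_rw [h3]
      rw [Finset.sum_add_distrib, Finset.sum_add_distrib, ← Finset.mul_sum,
        sum_sum_eq_zero g hg K]
      simp
    simp_rw [h2]
    rw [Finset.sum_add_distrib, ← Finset.mul_sum]
    simp only [Finset.sum_const, Finset.card_univ, nsmul_eq_mul]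
    have hn : (0 : ℝ) ≤ (Fintype.card V : ℝ) := Nat.cast_nonneg _
    have h4 : (Fintype.card V : ℝ) ^ K * ∑ v, g v ^ 2
        ≤ (Fintype.card V : ℝ) ^ K * (Fintype.card V * B) :=
      mul_le_mul_of_nonneg_left hB (pow_nonneg hn K)
    have h5 : (Fintype.card V : ℝ) * ∑ s : Fin K → V, (∑ i, g (s i)) ^ 2
        ≤ (Fintype.card V : ℝ) * (K * (Fintype.card V : ℝ) ^ K * B) :=
      mul_le_mul_of_nonneg_left ih hn
    push_cast
    calc _ ≤ (Fintype.card V : ℝ) ^ K * (Fintype.card V * B)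
          + (Fintype.card V : ℝ) * (K * (Fintype.card V : ℝ) ^ K * B) := add_le_add h4 h5
      _ = ((K : ℝ) + 1) * (Fintype.card V : ℝ) ^ (K + 1) * B := by ring

/-- Chebyshev's inequality for the average of a bounded function over a random sample. -/
theorem cheb {V : Type} [Fintype V] [Nonempty V] (f : V → ℝ) {C eta delta : ℝ}
    (hC : ∀ v, |f v| ≤ C) (heta : 0 < eta) {K : ℕ} (hK1 : 1 ≤ K)
    (hK : C ^ 2 ≤ K * eta ^ 2 * delta) :
    ((univ.filter (fun s : Fin K → V =>
        eta < |(∑ i, f (s i)) / K - (∑ v, f v) / Fintype.card V|)).card : ℝ)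
      ≤ delta * (Fintype.card V : ℝ) ^ K := by
  classical
  have hn : (0 : ℝ) < (Fintype.card V : ℝ) := by exact_mod_cast Fintype.card_pos
  have hKr : (0 : ℝ) < (K : ℝ) := by exact_mod_cast hK1
  set m : ℝ := (∑ v, f v) / Fintype.card V with hm
  have hmn : (Fintype.card V : ℝ) * m = ∑ v, f v := by
    rw [hm]; field_simp
  set g : V → ℝ := fun v => f v - m with hgdef
  have hg : ∑ v, g v = 0 := by
    simp only [hgdef, Finset.sum_sub_distrib, Finset.sum_const, Finset.card_univ, nsmul_eq_mul]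
    rw [hmn]; ring
  have hB : ∑ v, g v ^ 2 ≤ Fintype.card V * C ^ 2 := by
    have h1 : ∀ v, g v ^ 2 = f v ^ 2 - 2 * m * f v + m ^ 2 := fun v => by
      simp only [hgdef]; ring
    simp_rw [h1]
    rw [Finset.sum_add_distrib, Finset.sum_sub_distrib, ← Finset.mul_sum, ← hmn]
    have h2 : ∑ v, f v ^ 2 ≤ ∑ _v : V, C ^ 2 := by
      apply Finset.sum_le_sum
      intro v _
      exact sq_le_sq' (by linarith [neg_abs_le (f v), hC v]) (by linarith [le_abs_self (f v), hC v])
    simp only [Finset.sum_const, Finset.card_univ, nsmul_eq_mul] at h2 ⊢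
    nlinarith [sq_nonneg m]
  have hsm := second_moment g hg (C ^ 2) hB K
  set S := univ.filter (fun s : Fin K → V => eta < |(∑ i, f (s i)) / K - m|) with hS
  have hpt : ∀ s ∈ S, (K * eta) ^ 2 ≤ (∑ i, g (s i)) ^ 2 := by
    intro s hs
    rw [hS, Finset.mem_filter] at hs
    have h1 : ∑ i, g (s i) = K * ((∑ i, f (s i)) / K - m) := by
      simp only [hgdef, Finset.sum_sub_distrib, Finset.sum_const, Finset.card_univ,
        Fintype.card_fin, nsmul_eq_mul]
      field_simp
    rw [h1, mul_pow, mul_pow]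
    apply mul_le_mul_of_nonneg_left _ (by positivity)
    rw [← sq_abs ((∑ i, f (s i)) / K - m)]
    exact pow_le_pow_left₀ heta.le hs.2.le 2
  have h1 : (S.card : ℝ) * (K * eta) ^ 2 ≤ K * (Fintype.card V : ℝ) ^ K * C ^ 2 := by
    have e1 : (S.card : ℝ) * (K * eta) ^ 2 = ∑ _s ∈ S, (K * eta) ^ 2 := by
      rw [Finset.sum_const, nsmul_eq_mul]
    have e2 : ∑ _s ∈ S, (K * eta) ^ 2 ≤ ∑ s ∈ S, (∑ i, g (s i)) ^ 2 := Finset.sum_le_sum hpt
    have e3 : ∑ s ∈ S, (∑ i, g (s i)) ^ 2 ≤ ∑ s : Fin K → V, (∑ i, g (s i)) ^ 2 := by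
      clear_value S
      exact Finset.sum_le_univ_sum_of_nonneg (fun s => sq_nonneg _)
    rw [e1]
    exact (e2.trans e3).trans hsm
  have hpow : (0 : ℝ) ≤ (Fintype.card V : ℝ) ^ K := pow_nonneg hn.le K
  have h2 : K * (Fintype.card V : ℝ) ^ K * C ^ 2
      ≤ K * (Fintype.card V : ℝ) ^ K * (K * eta ^ 2 * delta) :=
    mul_le_mul_of_nonneg_left hK (mul_nonneg hKr.le hpow)
  have h4 : K * (Fintype.card V : ℝ) ^ K * (K * eta ^ 2 * delta)
      = (delta * (Fintype.card V : ℝ) ^ K) * (K * eta) ^ 2 := by ring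
  rw [h4] at h2
  have hpos : (0 : ℝ) < (K * eta) ^ 2 := by positivity
  clear_value S
  exact le_of_mul_le_mul_right (h1.trans h2) hpos

end EstimAux

open EstimAux in
open Classical in
/-- **Locality and constant-query estimation**, with one radius and one function, explicit
bounds. -/
theorem local_sampling (D : ℕ) {lam eps : ℝ} (hlam : 0 < lam) (heps : 0 < eps)
    (heps1 : eps ≤ 1) :
    ∃ (r : ℕ) (φ : RootFun),
      (r : ℝ) ≤ 80 * (D + 1) * (Real.logb 2 (1 / eps) + |Real.logb 2 lam| + 5) / eps ∧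
      φ.Invariant ∧
      (∀ (W : Type) (H : SimpleGraph W) (o : W),
        |φ W H o| ≤ (D + 3) * (Real.logb 2 (1 / eps) + |Real.logb 2 lam| + 5)) ∧
      ∀ (V : Type) [Fintype V] [Nonempty V] (G : SimpleGraph V), G.Colorable 2 → DegLe G D →
        |Real.logb 2 (ZZ G lam) - ∑ v, φ.at G r v| ≤ eps * Fintype.card V ∧
        ∀ (K : ℕ) (delta : ℝ), 1 ≤ K →
          ((D + 3) * (Real.logb 2 (1 / eps) + |Real.logb 2 lam| + 5)) ^ 2 ≤ K * eps ^ 2 * delta →
          ((Finset.univ.filter (fun s : Fin K → V => 2 * eps <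
              |(∑ i, φ.at G r (s i)) / K - Real.logb 2 (ZZ G lam) / Fintype.card V|)).card : ℝ)
            ≤ delta * (Fintype.card V : ℝ) ^ K := by
  obtain ⟨r, φ, hr, hinv, hC, hloc⟩ := locality_radius D hlam heps heps1
  refine ⟨r, φ, hr, hinv, hC, ?_⟩
  intro V _ _ G hcol hdeg
  have h2 := hloc V G hcol hdeg
  refine ⟨h2, ?_⟩
  intro K delta hK1 hK2
  have hn : (0 : ℝ) < (Fintype.card V : ℝ) := by exact_mod_cast Fintype.card_pos
  have h1 := cheb (fun v => φ.at G r v) (fun v => hC _ _ _) heps hK1 hK2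
  refine le_trans ?_ h1
  norm_cast
  apply Finset.card_le_card
  intro s hs
  rw [Finset.mem_filter] at hs ⊢
  refine ⟨hs.1, ?_⟩
  have h3 : |Real.logb 2 (ZZ G lam) / Fintype.card V
      - (∑ v, φ.at G r v) / Fintype.card V| ≤ eps := by
    rw [← sub_div, abs_div, abs_of_pos hn, div_le_iff₀ hn]
    exact h2
  have h4 := hs.2
  have h5 := abs_sub_le ((∑ i, φ.at G r (s i)) / K) ((∑ v, φ.at G r v) / Fintype.card V)
    (Real.logb 2 (ZZ G lam) / Fintype.card V)
  rw [abs_sub_comm ((∑ v, φ.at G r v) / Fintype.card V)] at h5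
  linarith

end Pool.Agent.Lib.SubBisL
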