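import Pool.Agent.Lib.SubBisL.Trunc
import Pool.Agent.Lib.SubBisL.Estim
import Pool.Agent.Lib.SubBisL.BSForm

/-!
# Constant-query estimation and local convergence without a degree bound
-/

namespace Pool.Agent.Lib.SubBisL

open Finset

open EstimAux in
open Classical in
/-- **Locality and constant-query estimation for all bipartite graphs**, with one radius and one
function, explicit bounds. -/
theorem local_sampling_all (D : ℕ) {lam eps : ℝ} (hlam : 0 < lam) (heps : 0 < eps)
    (heps1 : eps ≤ 1) :
    ∃ (r : ℕ) (φ : RootFun),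
      (r : ℝ) ≤ 81 * (D + 1) * (Real.logb 2 (1 / eps) + |Real.logb 2 lam| + 5) / eps ∧
      φ.Invariant ∧
      (∀ (W : Type) (H : SimpleGraph W) (o : W),
        |φ W H o| ≤ (D + 3) * (Real.logb 2 (1 / eps) + |Real.logb 2 lam| + 5)) ∧
      ∀ (V : Type) [Fintype V] [Nonempty V] (G : SimpleGraph V), G.Colorable 2 →
        |Real.logb 2 (ZZ G lam) - ∑ v, φ.at G r v| ≤
          eps * Fintype.card V + Real.logb 2 (1 + lam) * high G D ∧
        ∀ (K : ℕ) (delta : ℝ), 1 ≤ K →
          ((D + 3) * (Real.logb 2 (1 / eps) + |Real.logb 2 lam| + 5)) ^ 2 ≤ K * eps ^ 2 * delta →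
          ((Finset.univ.filter (fun s : Fin K → V =>
              2 * eps + Real.logb 2 (1 + lam) * high G D / Fintype.card V <
              |(∑ i, φ.at G r (s i)) / K - Real.logb 2 (ZZ G lam) / Fintype.card V|)).card : ℝ)
            ≤ delta * (Fintype.card V : ℝ) ^ K := by
  obtain ⟨r, φ, hr, hinv, hC, hloc⟩ := locality_all D hlam heps heps1
  refine ⟨r, φ, hr, hinv, hC, ?_⟩
  intro V _ _ G hcol
  have h2 := hloc V G hcol
  refine ⟨h2, ?_⟩
  intro K delta hK1 hK
  have hn : (0 : ℝ) < (Fintype.card V : ℝ) := by exact_mod_cast Fintype.card_pos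
  have h3 := cheb (fun v => φ.at G r v) (C := (D + 3) *
    (Real.logb 2 (1 / eps) + |Real.logb 2 lam| + 5)) (eta := eps) (delta := delta)
    (fun v => hC _ _ _) heps hK1 hK
  refine le_trans ?_ h3
  refine Nat.cast_le.2 (Finset.card_le_card fun s hs => ?_)
  rw [Finset.mem_filter] at hs ⊢
  refine ⟨hs.1, ?_⟩
  have h4 : |(∑ v, φ.at G r v) / Fintype.card V - Real.logb 2 (ZZ G lam) / Fintype.card V| ≤
      eps + Real.logb 2 (1 + lam) * high G D / Fintype.card V := by
    rw [← sub_div, abs_div, abs_of_pos hn, div_le_iff₀ hn, abs_sub_comm]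
    refine h2.trans (le_of_eq ?_)
    field_simp
    rfl
  have h5 := abs_sub_le ((∑ i, φ.at G r (s i)) / K) ((∑ v, φ.at G r v) / Fintype.card V)
    (Real.logb 2 (ZZ G lam) / Fintype.card V)
  linarith [hs.2]

open BSFormAux in
open Classical in
/-- The sum of an invariant function over the vertices with small balls, by types. -/
theorem sum_at_all {V : Type} [Fintype V] (G : SimpleGraph V) {r N : ℕ} [Fintype (T N)]
    (φ : RootFun) (hφ : φ.Invariant) :
    ∑ t : T N, (if rep t = t then freq G r t.2.1 t.2.2 else 0) * φ (Fin t.1) t.2.1 t.2.2 =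
      (∑ v, if (ball G r v).ncard ≤ N then φ.at G r v else 0) / Fintype.card V := by
  have h1 : ∀ t : T N, (if rep t = t then freq G r t.2.1 t.2.2 else 0) * φ (Fin t.1) t.2.1 t.2.2 =
      (∑ v, if rep t = t ∧ IsT G r v t then φ.at G r v else 0) / Fintype.card V := by
    intro t
    by_cases ht : rep t = t
    · have h2 : ∑ v, (if rep t = t ∧ IsT G r v t then φ.at G r v else 0) =
          ((univ.filter fun v => IsT G r v t).card : ℝ) * φ (Fin t.1) t.2.1 t.2.2 := by
        rw [← nsmul_eq_mul, ← Finset.sum_const, Finset.sum_filter]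
        refine Finset.sum_congr rfl fun v _ => ?_
        by_cases hv : IsT G r v t
        · rw [if_pos ⟨ht, hv⟩, if_pos hv]
          obtain ⟨e, he⟩ := hv
          rw [← he]
          exact hφ _ _ _ _ e _
        · rw [if_neg fun h => hv h.2, if_neg hv]
      rw [h2, if_pos ht, freq, mul_div_right_comm]
      rfl
    · have h2 : ∑ v, (if rep t = t ∧ IsT G r v t then φ.at G r v else 0) = 0 :=
        Finset.sum_eq_zero fun v _ => if_neg fun h => ht h.1
      rw [h2, if_neg ht, zero_mul, zero_div]
  rw [Finset.sum_congr rfl fun t _ => h1 t, ← Finset.sum_div, Finset.sum_comm]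
  congr 1
  refine Finset.sum_congr rfl fun v _ => ?_
  by_cases hv : (ball G r v).ncard ≤ N
  · rw [if_pos hv]
    obtain ⟨t₀, ht₀⟩ := exists_isT hv
    have h3 : IsT G r v (rep t₀) := isT_rel ht₀ (rel_symm (rel_rep _))
    rw [Finset.sum_eq_single (rep t₀)]
    · rw [if_pos ⟨rep_rep t₀, h3⟩]
    · intro t _ hne
      rw [if_neg]
      rintro ⟨h4, h5⟩
      apply hne
      have h6 := rep_eq (rel_of_isT h3 h5)
      rw [h4, rep_rep] at h6
      exact h6.symm
    · intro h
      exact absurd (Finset.mem_univ _) h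
  · rw [if_neg hv]
    refine Finset.sum_eq_zero fun t _ => ?_
    rw [if_neg]
    rintro ⟨-, e, -⟩
    apply hv
    have h4 : (ball G r v).ncard = Nat.card (ball G r v) := (Nat.card_coe_set_eq _).symm
    rw [h4, Nat.card_congr e.toEquiv, Nat.card_eq_fintype_card, Fintype.card_fin]
    exact Nat.lt_succ_iff.mp t.1.2

theorem nbr_lt_ball {V : Type} [Finite V] (G : SimpleGraph V) (v : V) :
    (G.neighborSet v).ncard < (ball G 1 v).ncard := by
  have h1 : insert v (G.neighborSet v) ⊆ ball G 1 v := by
    intro w hw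
    rcases hw with rfl | hw
    · exact self_mem_ball G 1 w
    · exact mem_ball_succ.2 (Or.inr ⟨v, mem_ball_zero.2 rfl, hw⟩)
  have h2 := Set.ncard_le_ncard h1 (Set.toFinite _)
  have h3 : v ∉ G.neighborSet v := fun h => G.irrefl h
  rw [Set.ncard_insert_of_notMem h3 (Set.toFinite _)] at h2
  omega

open BSFormAux in
open Filter Topology in
/-- **Convergence.** Along every locally (Benjamini-Schramm) convergent sequence of finite bipartite
graphs with a locally finite limit the free energy per vertex converges, for every activity. -/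
theorem bs_convergence_all {lam : ℝ} (hlam : 0 < lam) (V : ℕ → Type)
    [∀ n, Fintype (V n)] [∀ n, Nonempty (V n)] (G : ∀ n, SimpleGraph (V n))
    (hcol : ∀ n, (G n).Colorable 2) (htight : Tight V G) (hconv : FreqConv V G) :
    ∃ L : ℝ, Tendsto (fun n => Real.logb 2 (ZZ (G n) lam) / Fintype.card (V n)) atTop (𝓝 L) := by
  classical
  apply cauchySeq_tendsto_of_complete
  rw [Metric.cauchySeq_iff]
  intro eps heps
  set e : ℝ := min (eps / 8) 1 with he
  have he0 : 0 < e := lt_min (by positivity) one_pos
  have he1 : e ≤ 1 := min_le_right _ _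
  have he8 : e ≤ eps / 8 := min_le_left _ _
  have hl : 0 ≤ Real.logb 2 (1 + lam) := Real.logb_nonneg (by norm_num) (by linarith)
  obtain ⟨D, M1, hD⟩ := htight 1 (e / (Real.logb 2 (1 + lam) + 1)) (by positivity)
  obtain ⟨r, φ, -, hinv, hC, hloc⟩ := locality_all D hlam he0 he1
  set C : ℝ := (D + 3) * (Real.logb 2 (1 / e) + |Real.logb 2 lam| + 5) with hCdef
  have hC0 : 0 ≤ C := (abs_nonneg _).trans (hC (Fin 1) ⊥ 0)
  obtain ⟨N, M2, hN⟩ := htight r (e / (C + 1)) (by positivity)
  have : Fintype (T N) := Fintype.ofFinite _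
  -- the frequency sums
  set f : ℕ → ℝ := fun n => ∑ t : T N, (if rep t = t then freq (G n) r t.2.1 t.2.2 else 0) *
    φ (Fin t.1) t.2.1 t.2.2 with hf
  have hfc : CauchySeq f := by
    have h1 : ∃ p : ℝ, Tendsto f atTop (𝓝 p) := by
      have h2 : ∀ t : T N, ∃ p : ℝ, Tendsto (fun n => (if rep t = t then
          freq (G n) r t.2.1 t.2.2 else 0) * φ (Fin t.1) t.2.1 t.2.2) atTop (𝓝 p) := by
        intro t
        obtain ⟨p, hp⟩ := hconv r t.1 t.2.1 t.2.2
        by_cases ht : rep t = t
        · simp only [if_pos ht]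
          exact ⟨_, hp.mul_const _⟩
        · simp only [if_neg ht]
          exact ⟨_, tendsto_const_nhds⟩
      choose p hp using h2
      exact ⟨∑ t, p t, tendsto_finset_sum _ fun t _ => hp t⟩
    obtain ⟨p, hp⟩ := h1
    exact hp.cauchySeq
  obtain ⟨M3, hM3⟩ := Metric.cauchySeq_iff.mp hfc e he0
  -- closeness
  have hclose : ∀ n ≥ max M1 M2, |Real.logb 2 (ZZ (G n) lam) / Fintype.card (V n) - f n| ≤
      3 * e := by
    intro n hn
    have hn1 : n ≥ M1 := (le_max_left _ _).trans hn
    have hn2 : n ≥ M2 := (le_max_right _ _).trans hn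
    have hc : (0 : ℝ) < (Fintype.card (V n) : ℝ) := by exact_mod_cast Fintype.card_pos
    have hh : (Nat.card {v : V n // D < ((G n).neighborSet v).ncard} : ℝ) ≤
        e / (Real.logb 2 (1 + lam) + 1) * Fintype.card (V n) := by
      refine le_trans ?_ (hD n hn1)
      have : Nat.card {v : V n // D < ((G n).neighborSet v).ncard} ≤
          Nat.card {v : V n // D < (ball (G n) 1 v).ncard} :=
        Nat.card_le_card_of_injective (fun v => (⟨v.1, v.2.trans (nbr_lt_ball (G n) v.1)⟩ :
          {v : V n // D < (ball (G n) 1 v).ncard})) fun a b hab => by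
            have h := congrArg Subtype.val hab
            exact Subtype.ext h
      exact_mod_cast this
    have h1 := hloc (V n) (G n) (hcol n)
    have h2 : Real.logb 2 (1 + lam) * (Nat.card {v : V n // D < ((G n).neighborSet v).ncard} : ℝ) ≤
        e * Fintype.card (V n) := by
      refine (mul_le_mul_of_nonneg_left hh hl).trans ?_
      have h3 : Real.logb 2 (1 + lam) * (e / (Real.logb 2 (1 + lam) + 1) *
          Fintype.card (V n)) = (Real.logb 2 (1 + lam) / (Real.logb 2 (1 + lam) + 1)) *
            (e * Fintype.card (V n)) := by ring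
      rw [h3]
      have h4 : Real.logb 2 (1 + lam) / (Real.logb 2 (1 + lam) + 1) ≤ 1 := by
        rw [div_le_one (by positivity)]
        linarith
      have h5 : 0 ≤ e * (Fintype.card (V n) : ℝ) := by positivity
      nlinarith
    have h3 : |Real.logb 2 (ZZ (G n) lam) / Fintype.card (V n) -
        (∑ v, φ.at (G n) r v) / Fintype.card (V n)| ≤ 2 * e := by
      rw [← sub_div, abs_div, abs_of_pos hc, div_le_iff₀ hc]
      linarith
    have h4 : |(∑ v, φ.at (G n) r v) / Fintype.card (V n) - f n| ≤ e := by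
      have h5 : f n = (∑ v, if (ball (G n) r v).ncard ≤ N then φ.at (G n) r v else 0) /
        Fintype.card (V n) := sum_at_all (G n) φ hinv
      rw [h5, ← sub_div, abs_div, abs_of_pos hc, div_le_iff₀ hc, ← Finset.sum_sub_distrib]
      refine (Finset.abs_sum_le_sum_abs _ _).trans ?_
      have h6 : ∀ v, |φ.at (G n) r v - (if (ball (G n) r v).ncard ≤ N then φ.at (G n) r v else 0)| ≤
          (if N < (ball (G n) r v).ncard then C else 0) := by
        intro v
        by_cases hv : (ball (G n) r v).ncard ≤ N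
        · rw [if_pos hv, sub_self, abs_zero, if_neg (by omega)]
        · rw [if_neg hv, sub_zero, if_pos (by omega)]
          exact hC _ _ _
      refine (Finset.sum_le_sum fun v _ => h6 v).trans ?_
      rw [← Finset.sum_filter, Finset.sum_const, nsmul_eq_mul, ← Fintype.card_subtype,
        ← Nat.card_eq_fintype_card]
      refine (mul_le_mul_of_nonneg_right (hN n hn2) hC0).trans ?_
      have h7 : e / (C + 1) * Fintype.card (V n) * C = (C / (C + 1)) * (e * Fintype.card (V n)) := by
        ring
      rw [h7]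
      have h8 : C / (C + 1) ≤ 1 := by
        rw [div_le_one (by positivity)]
        linarith
      have h9 : 0 ≤ e * (Fintype.card (V n) : ℝ) := by positivity
      nlinarith
    have h5 := abs_sub_le (Real.logb 2 (ZZ (G n) lam) / Fintype.card (V n))
      ((∑ v, φ.at (G n) r v) / Fintype.card (V n)) (f n)
    linarith
  refine ⟨max (max M1 M2) M3, fun m hm n hn => ?_⟩
  have a1 := hclose m ((le_max_left _ _).trans hm)
  have a2 := hclose n ((le_max_left _ _).trans hn)
  have a3 := hM3 m ((le_max_right _ _).trans hm) n ((le_max_right _ _).trans hn)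
  rw [Real.dist_eq] at a3 ⊢
  have e1 := abs_sub_le (Real.logb 2 (ZZ (G m) lam) / Fintype.card (V m)) (f m)
    (Real.logb 2 (ZZ (G n) lam) / Fintype.card (V n))
  have e2 := abs_sub_le (f m) (f n) (Real.logb 2 (ZZ (G n) lam) / Fintype.card (V n))
  rw [abs_sub_comm (f n)] at e2
  linarith

end Pool.Agent.Lib.SubBisL
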