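import Pool.Agent.Lib.SubBisL.Hard

/-!
# The partition function of a bipartite graph as the value of its system
-/

namespace Pool.Agent.Lib.SubBisL

open Finset

variable {V : Type} [Fintype V]

theorem Zsoft_pos (G : SimpleGraph V) (col : V → Prop) {q mu : ℝ} (hq : 0 < q) (hmu : 0 < mu) :
    0 < Zsoft G col q mu := sum_pos (fun I _ => by positivity) ⟨∅, mem_univ _⟩

open Classical in
theorem logZL_eq {n : ℕ} (G : SimpleGraph V) (col : V → Prop) (h : ℤ) (σ : Fin n ≃ V)
    {c : ℕ} (hc : 0 < c) (kap : ℕ) :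
    logZL c ((sysG G col h σ).F (c * kap)) =
      Real.logb 2 (Zsoft G col ((1 / 2) ^ kap) ((2 : ℝ) ^ ((h : ℝ) / c))) -
        (h : ℝ) / c * (univ.filter fun v => ¬ col v).card := by
  have hc' : (c : ℝ) ≠ 0 := by exact_mod_cast hc.ne'
  set B : ℝ := ((univ.filter fun v => ¬ col v).card : ℝ) with hB
  have h1 : ∑ S : Finset (Fin n), (2 : ℝ) ^ (-((sysG G col h σ).F (c * kap) S : ℝ) / c) =
      Zsoft G col ((1 / 2) ^ kap) ((2 : ℝ) ^ ((h : ℝ) / c)) * (2 : ℝ) ^ (-((h : ℝ) / c * B)) := by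
    unfold Zsoft
    rw [sum_mul, ← Equiv.sum_comp (code col σ)]
    refine sum_congr rfl fun S _ => ?_
    rw [sysG_F]
    set I := code col σ S
    have e1 : ((1 / 2 : ℝ) ^ kap) ^ eIn G col I = (2 : ℝ) ^ (-((kap : ℝ) * eIn G col I)) := by
      rw [← pow_mul, one_div, inv_pow, Real.rpow_neg (by norm_num), ← Real.rpow_natCast]
      push_cast
      rfl
    rw [e1, ← Real.rpow_natCast ((2 : ℝ) ^ ((h : ℝ) / c)), ← Real.rpow_mul (by norm_num),
      ← Real.rpow_add (by norm_num), ← Real.rpow_add (by norm_num)]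
    congr 1
    push_cast
    rw [← hB]
    field_simp
    ring
  unfold logZL
  rw [h1, Real.logb_mul (Zsoft_pos G col (by positivity)
    (Real.rpow_pos_of_pos (by norm_num) _)).ne' (Real.rpow_pos_of_pos (by norm_num) _).ne',
    Real.logb_rpow (by norm_num) (by norm_num)]
  ring

open Classical in
/-- The partition function and the value of the system. -/
theorem hard_abs {n : ℕ} (G : SimpleGraph V) (col : V → Prop)
    (hcol : ∀ v w, G.Adj v w → (col v ↔ ¬ col w)) (h : ℤ) (σ : Fin n ≃ V)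
    {c : ℕ} (hc : 0 < c) (kap : ℕ) {lam : ℝ} (hlam : 0 < lam)
    (hh : |Real.logb 2 lam - (h : ℝ) / c| ≤ 1 / c) :
    |Real.logb 2 (ZZ G lam) - (logZL c ((sysG G col h σ).F (c * kap)) +
      Real.logb 2 lam * (univ.filter fun v => ¬ col v).card)| ≤
      Fintype.card V * (2 / c + Real.logb 2 (1 + (2 : ℝ) ^ ((h : ℝ) / c) * (1 / 2) ^ kap)) := by
  rw [logZL_eq G col h σ hc kap]
  set mu : ℝ := (2 : ℝ) ^ ((h : ℝ) / c) with hmu
  set q : ℝ := (1 / 2) ^ kap with hq
  set B : ℝ := ((univ.filter fun v => ¬ col v).card : ℝ) with hB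
  have hmu0 : 0 < mu := Real.rpow_pos_of_pos (by norm_num) _
  have hq0 : 0 < q := by positivity
  have hq1 : q ≤ 1 := pow_le_one₀ (by norm_num) (by norm_num)
  have h1 := Real.logb_le_logb_of_le (b := 2) (by norm_num) (ZZ_pos G hmu0)
    (ZZ_le_Zsoft G col hq0.le hmu0.le)
  have h2 := Real.logb_le_logb_of_le (b := 2) (by norm_num) (Zsoft_pos G col hq0 hmu0)
    (Zsoft_le G col hcol hq0.le hq1 hmu0.le)
  have h1q : 0 < 1 + mu * q := by positivity
  rw [Real.logb_mul (pow_pos h1q _).ne' (ZZ_pos G hmu0).ne', Real.logb_pow] at h2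
  have h3 := logb_ZZ_abs G hh
  rw [Real.rpow_logb (by norm_num) (by norm_num) hlam, ← hmu] at h3
  have h4 : |(Real.logb 2 lam - (h : ℝ) / c) * B| ≤ 1 / c * Fintype.card V := by
    rw [abs_mul, abs_of_nonneg (Nat.cast_nonneg _ : (0 : ℝ) ≤ B)]
    refine mul_le_mul hh ?_ (Nat.cast_nonneg _) (by positivity)
    exact_mod_cast card_le_univ _
  obtain ⟨h5, h6⟩ := abs_le.1 h3
  obtain ⟨h7, h8⟩ := abs_le.1 h4
  have h9 : (Fintype.card V : ℝ) * (2 / c + Real.logb 2 (1 + mu * q)) =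
      2 * (1 / c * Fintype.card V) + Fintype.card V * Real.logb 2 (1 + mu * q) := by ring
  have h10 : (0 : ℝ) ≤ Fintype.card V * Real.logb 2 (1 + mu * q) := by
    apply mul_nonneg (Nat.cast_nonneg _)
    apply Real.logb_nonneg (by norm_num)
    have : 0 ≤ mu * q := by positivity
    linarith
  rw [h9, abs_le]
  constructor <;> nlinarith

theorem card_le_deg {G : SimpleGraph V} {D : ℕ} (hD : DegLe G D) {n : ℕ} (σ : Fin n ≃ V) (v : V)
    (P : Fin n → Prop) (hP : ∀ a, P a → G.Adj v (σ a)) : Nat.card {a // P a} ≤ D := by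
  refine le_trans ?_ (hD v)
  have h0 : Nat.card {a // P a} = ({a | P a} : Set (Fin n)).ncard := Nat.card_coe_set_eq _
  rw [h0]
  have h1 : (σ '' {a | P a}) ⊆ G.neighborSet v := by
    rintro _ ⟨a, ha, rfl⟩
    exact hP a ha
  have h2 := Set.ncard_le_ncard h1 (Set.toFinite _)
  rwa [Set.ncard_image_of_injective _ σ.injective] at h2

theorem sysG_irr {n : ℕ} (G : SimpleGraph V) (col : V → Prop) (h : ℤ) (σ : Fin n → V) (v : Fin n) :
    ¬ (sysG G col h σ).E v v := fun hE => hE.2.1 hE.1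

theorem sysG_deg {G : SimpleGraph V} {D : ℕ} (hD : DegLe G D) {n : ℕ} (col : V → Prop) (h : ℤ)
    (σ : Fin n ≃ V) (v : Fin n) :
    Nat.card {b // (sysG G col h σ).E v b} + Nat.card {a // (sysG G col h σ).E a v} ≤ D := by
  by_cases hc : col (σ v)
  · have h1 : Nat.card {a // (sysG G col h σ).E a v} = 0 := by
      rw [Nat.card_eq_zero]
      left
      exact ⟨fun a => a.2.2.1 hc⟩
    rw [h1, add_zero]
    exact card_le_deg hD σ (σ v) _ fun a ha => ha.2.2
  · have h1 : Nat.card {b // (sysG G col h σ).E v b} = 0 := by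
      rw [Nat.card_eq_zero]
      left
      exact ⟨fun a => hc a.2.1⟩
    rw [h1, zero_add]
    exact card_le_deg hD σ (σ v) _ fun a ha => ha.2.2.symm

theorem sysG_hf {n : ℕ} (G : SimpleGraph V) (col : V → Prop) (h : ℤ) (σ : Fin n → V) (v : Fin n) :
    |(sysG G col h σ).hf v| ≤ (h.natAbs : ℤ) := by
  classical
  unfold sysG
  show |if col (σ v) then -h else h| ≤ _
  split_ifs
  · rw [abs_neg, Int.natCast_natAbs]
  · rw [Int.natCast_natAbs]

end Pool.Agent.Lib.SubBisL
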