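import Pool.Agent.Lib.SubBisL.Order
import Pool.Agent.Lib.SubBisL.Hard2

/-!
# The local value as a function of the ball
-/

namespace Pool.Agent.Lib.SubBisL

open Finset Pool.Agent.Lib.SubBisX.Reg

/-- The class of the vertices of a rooted graph, if the root has the class `b`. -/
def colR {W : Type} (H : SimpleGraph W) (o : W) (b : Prop) (w : W) : Prop :=
  (∃ p : H.Walk o w, Even p.length) ↔ b

/-- the mean of the local value at the root over the orders of the vertices -/
noncomputable def val (K c M mu T : ℕ) (h : ℤ) (k : ℕ) {W : Type} (H : SimpleGraph W) (o : W)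
    (b : Prop) : ℝ :=
  avF fun τ : Fin k ≃ W => (sysG H (colR H o b) h τ).lv K c M mu T (τ.symm o)

/-! ## Invariance -/

theorem even_walk_iso {W W' : Type} {H : SimpleGraph W} {H' : SimpleGraph W'} (e : H ≃g H')
    {o w : W} (h : ∃ p : H.Walk o w, Even p.length) :
    ∃ p : H'.Walk (e o) (e w), Even p.length := by
  obtain ⟨p, hp⟩ := h
  exact ⟨p.map e.toHom, by rw [SimpleGraph.Walk.length_map]; exact hp⟩

theorem colR_iso {W W' : Type} {H : SimpleGraph W} {H' : SimpleGraph W'} (e : H ≃g H')
    (o w : W) (b : Prop) : colR H' (e o) b (e w) ↔ colR H o b w := by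
  unfold colR
  have h : (∃ p : H'.Walk (e o) (e w), Even p.length) ↔ ∃ p : H.Walk o w, Even p.length := by
    constructor
    · intro h
      have h1 := even_walk_iso e.symm h
      rw [e.symm_apply_apply, e.symm_apply_apply] at h1
      exact h1
    · exact even_walk_iso e
  rw [h]

theorem val_iso (K c M mu T : ℕ) (h : ℤ) (k : ℕ) {W W' : Type} {H : SimpleGraph W}
    {H' : SimpleGraph W'} (e : H ≃g H') (o : W) (b : Prop) :
    val K c M mu T h k H o b = val K c M mu T h k H' (e o) b := by
  classical
  unfold val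
  rw [← avF_equiv (Equiv.equivCongr (Equiv.refl (Fin k)) e.toEquiv)]
  refine congrArg avF (funext fun τ => ?_)
  have h1 : sysG H (colR H o b) h τ = sysG H' (colR H' (e o) b) h
      (Equiv.equivCongr (Equiv.refl (Fin k)) e.toEquiv τ) := by
    have ha : ∀ a, (Equiv.equivCongr (Equiv.refl (Fin k)) e.toEquiv τ) a = e (τ a) := fun _ => rfl
    unfold sysG
    congr 1
    · funext a x
      refine propext ?_
      rw [ha, ha, colR_iso e, colR_iso e, e.map_adj_iff]
    · funext a
      refine if_congr ?_ rfl rfl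
      rw [ha, colR_iso e]
  have h2 : (Equiv.equivCongr (Equiv.refl (Fin k)) e.toEquiv τ).symm (e o) = τ.symm o := by
    rw [Equiv.symm_apply_eq]
    show e o = e (τ (τ.symm o))
    rw [Equiv.apply_symm_apply]
  rw [h1, h2]

/-! ## The colouring of a ball -/

theorem color_parity {W : Type} {H : SimpleGraph W} {col : W → Prop}
    (hcol : ∀ v w, H.Adj v w → (col v ↔ ¬ col w)) {u w : W} (p : H.Walk u w) :
    Even p.length ↔ (col u ↔ col w) := by
  induction p with
  | nil => simp
  | cons h p ih =>
    rw [SimpleGraph.Walk.length_cons, Nat.even_add_one, ih, hcol _ _ h]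
    tauto

variable {V : Type}

theorem exists_walk {G : SimpleGraph V} {r : ℕ} {v : V} (w : ball G r v) :
    Nonempty ((G.induce (ball G r v)).Walk (root G r v) w) := by
  obtain ⟨w, p, hp⟩ := w
  classical
  have hs : ∀ x ∈ p.support, x ∈ ball G r v := fun x hx =>
    ⟨p.takeUntil x hx, (p.length_takeUntil_le hx).trans hp⟩
  exact ⟨p.induce (ball G r v) hs⟩

theorem colR_ball {G : SimpleGraph V} {col : V → Prop}
    (hcol : ∀ v w, G.Adj v w → (col v ↔ ¬ col w)) (r : ℕ) (v : V) (w : ball G r v) :
    colR (G.induce (ball G r v)) (root G r v) (col v) w ↔ col w := by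
  have hcol' : ∀ x y : ball G r v, (G.induce (ball G r v)).Adj x y → (col x ↔ ¬ col y) :=
    fun x y h => hcol x y h
  have h1 : (∃ p : (G.induce (ball G r v)).Walk (root G r v) w, Even p.length) ↔
      (col v ↔ col w) := by
    constructor
    · rintro ⟨p, hp⟩
      exact (color_parity (col := fun x : ball G r v => col x) hcol' p).1 hp
    · intro h
      obtain ⟨p⟩ := exists_walk w
      exact ⟨p, (color_parity (col := fun x : ball G r v => col x) hcol' p).2 h⟩
  unfold colR
  rw [h1]
  tauto

/-! ## Covering -/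

theorem ball_mono (G : SimpleGraph V) {d e : ℕ} (h : d ≤ e) (v : V) : ball G d v ⊆ ball G e v :=
  fun _ ⟨p, hp⟩ => ⟨p, hp.trans h⟩

theorem ball_adj {G : SimpleGraph V} {d : ℕ} {v w : V} (h : G.Adj v w) :
    ball G d w ⊆ ball G (d + 1) v := fun _ ⟨p, hp⟩ =>
  ⟨SimpleGraph.Walk.cons h p, by rw [SimpleGraph.Walk.length_cons]; omega⟩

theorem cov_ball {G : SimpleGraph V} (col : V → Prop) (h : ℤ) {n k : ℕ} {W : Set V}
    (hk : Nat.card W = k) (σ : Fin n ≃ V) (d : ℕ) (x : Fin k)
    (hx : ball G d (σ (iot hk σ x)) ⊆ W) : Cov (sysG G col h σ) (iot hk σ) d x := by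
  induction d generalizing x with
  | zero => exact trivial
  | succ d ih =>
    refine ⟨ih x ((ball_mono G (Nat.le_succ d) _).trans hx), fun b hb => ?_⟩
    have hadj : G.Adj (σ (iot hk σ x)) (σ b) := by
      rcases hb with hb | hb
      · exact hb.2.2
      · exact hb.2.2.symm
    have hsub := (ball_adj (d := d) hadj).trans hx
    have hW : σ b ∈ W := hsub ⟨SimpleGraph.Walk.nil, Nat.zero_le _⟩
    obtain ⟨j, hj⟩ := exists_iot hk σ hW
    refine ⟨j, σ.injective hj, ih j ?_⟩
    rw [hj]
    exact hsub

/-! ## The local value -/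

theorem comap_eq {G : SimpleGraph V} {col : V → Prop}
    (hcol : ∀ v w, G.Adj v w → (col v ↔ ¬ col w)) (h : ℤ) {n k : ℕ} (T : ℕ) (v : V)
    (hk : Nat.card (ball G T v) = k) (σ : Fin n ≃ V) :
    (sysG G col h σ).comap (iot hk σ) =
      sysG (G.induce (ball G T v)) (colR (G.induce (ball G T v)) (root G T v) (col v)) h
        (tau hk σ) := by
  classical
  have hc : ∀ a, colR (G.induce (ball G T v)) (root G T v) (col v) (tau hk σ a) ↔
      col (σ (iot hk σ a)) := fun a => colR_ball hcol T v (tau hk σ a)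
  unfold sysG Sys.comap
  congr 1
  · funext a b
    refine propext ?_
    rw [hc, hc]
    rfl
  · funext a
    exact if_congr (hc a).symm rfl rfl

/-- The local value of the ball is the mean of the local values over the orders of the graph. -/
theorem val_ball {G : SimpleGraph V} [Fintype V] {col : V → Prop}
    (hcol : ∀ v w, G.Adj v w → (col v ↔ ¬ col w)) (K c M mu T : ℕ) (h : ℤ) {n : ℕ} (v : V)
    (σ₀ : Fin n ≃ V) :
    val K c M mu T h (Nat.card (ball G T v)) (G.induce (ball G T v)) (root G T v) (col v) =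
      avF fun σ : Fin n ≃ V => (sysG G col h σ).lv K c M mu T (σ.symm v) := by
  unfold val
  rw [← av_tau rfl σ₀]
  refine congrArg avF (funext fun σ => ?_)
  set x := (tau (rfl : Nat.card (ball G T v) = _) σ).symm (root G T v) with hx
  have h1 : σ (iot (rfl : Nat.card (ball G T v) = _) σ x) = v := by
    rw [← tau_apply, hx, Equiv.apply_symm_apply]
    rfl
  have h2 : σ.symm v = iot (rfl : Nat.card (ball G T v) = _) σ x := by
    rw [Equiv.symm_apply_eq, h1]
  rw [h2, lv_res _ K c M mu T (iot (rfl : Nat.card (ball G T v) = _) σ).strictMono x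
    (cov_ball col h rfl σ T x (by rw [h1])), comap_eq hcol h T v rfl σ]

end Pool.Agent.Lib.SubBisL
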