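import Pool.Agent.Lib.SubBisX.Core

/-!
# The ascent for a general integer energy

As `SubBisX/Core.lean`, for the weight `2 ^ (-F S / c)` (an integer valued `F`, so that every real
energy can be approximated).
-/

namespace Pool.Agent.Lib.SubBisL

open Finset Pool.Agent.Lib.SubBisX Pool.Agent.Lib.SubBisX.Reg Pool.Agent.Lib.SubBisX.Core SubBis

variable {n : ℕ}

/-- the step at `v`, with digit `u` -/
def grL {m : ℕ} (c : ℕ) (F : Finset (Fin n) → ℤ) (v : Fin n) (u : Fin m) (y : Fin n → ℤ) : ℤ :=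
  ee m c u - (F (Up y v) - F (Upo y v))

/-- the objective -/
def PhiL {m : ℕ} (c M : ℕ) (F : Finset (Fin n) → ℤ) (U : Fin n → Fin m) (y : Fin n → ℤ) : ℤ :=
  ∑ v, ee m c (U v) * y v - ∑ i ∈ Icc 1 M, F (univ.filter fun w => (i : ℤ) ≤ y w)

/-- `log2 ∑_S 2 ^ (-F S / c)` -/
noncomputable def logZL (c : ℕ) (F : Finset (Fin n) → ℤ) : ℝ :=
  Real.logb 2 (∑ S : Finset (Fin n), (2 : ℝ) ^ (-(F S : ℝ) / c))

theorem sum_bool_eqL (c : ℕ) (F : Finset (Fin n) → ℤ) :
    ∑ z : Fin n → Bool, (2 : ℝ) ^ (-(F (Bounds.setOf z) : ℝ) / c)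
      = ∑ S : Finset (Fin n), (2 : ℝ) ^ (-(F S : ℝ) / c) := by
  classical
  refine Finset.sum_bij' (fun z _ => Bounds.setOf z) (fun S _ => fun v => decide (v ∈ S))
    ?_ ?_ ?_ ?_ ?_
  · intro z _; simp
  · intro S _; simp
  · intro z _
    funext v
    simp [Bounds.setOf]
  · intro S _
    ext v
    simp [Bounds.setOf]
  · intro z _; rfl

/-- Upper bound for the integer iterates. -/
theorem upper_intL {m : ℕ} [NeZero m] {X : Type*} [Fintype X] [Nonempty X] {c : ℕ} (hc : 0 < c)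
    (M : ℕ) (d : X → Fin m)
    (hd : ∀ f : Fin m → ℝ, av (fun x => f (d x)) = av f)
    (F : Finset (Fin n) → ℤ) (Y : (Fin n → X) → Fin n → ℤ)
    (hY0 : ∀ w v, 0 ≤ Y w v) (hY1 : ∀ w v, Y w v ≤ M)
    (hY : ∀ v, Upto v fun w => Y w v) :
    (av fun w => ((∑ v, ee m c (d (w v)) * Y w v - Bounds.Fhat F M (Y w) : ℤ) : ℝ))
      ≤ M * (c * logZL c F + n) := by
  classical
  have hc' : (c : ℝ) ≠ 0 := by exact_mod_cast hc.ne'
  have h1 : ∀ i ∈ range M, (av fun w => ∑ v, (ee m c (d (w v)) : ℝ)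
        * bit (decide (((i : ℤ) + 1) ≤ Y w v))
        + c * (-(F (Bounds.setOf (fun v => decide (((i : ℤ) + 1) ≤ Y w v))) : ℝ) / c))
      ≤ c * logZL c F + n := by
    intro i _
    have h := Bounds.upper_av c d hd (fun z => -(F (Bounds.setOf z) : ℝ) / c)
      (fun w v => decide (((i : ℤ) + 1) ≤ Y w v)) (by
        intro v a b hab
        have := hY v a b hab
        simp only at this
        simp only [this])
    rw [sum_bool_eqL] at h
    exact h
  have h2 : (fun w : Fin n → X => ((∑ v, ee m c (d (w v)) * Y w v - Bounds.Fhat F M (Y w) : ℤ) : ℝ))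
      = fun w => ∑ i ∈ range M, (∑ v, (ee m c (d (w v)) : ℝ)
        * bit (decide (((i : ℤ) + 1) ≤ Y w v))
        + c * (-(F (Bounds.setOf (fun v => decide (((i : ℤ) + 1) ≤ Y w v))) : ℝ) / c)) := by
    funext w
    rw [Finset.sum_add_distrib, Finset.sum_comm]
    have e1 : ∀ v : Fin n, ∑ i ∈ range M, (ee m c (d (w v)) : ℝ)
        * bit (decide (((i : ℤ) + 1) ≤ Y w v)) = (ee m c (d (w v)) : ℝ) * (Y w v : ℝ) := by
      intro v
      rw [← Finset.mul_sum, Bounds.sum_levels (hY0 w v) (hY1 w v)]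
    have e2 : ∀ x : ℝ, (c : ℝ) * (x / c) = x := fun x => by field_simp
    simp only [e1, e2]
    rw [Finset.sum_neg_distrib]
    unfold Bounds.Fhat Bounds.setOf
    push_cast
    simp only [decide_eq_true_eq]
    ring
  rw [h2, av_sum]
  refine (Finset.sum_le_sum h1).trans (le_of_eq ?_)
  simp only [Finset.sum_const, Finset.card_range, nsmul_eq_mul]

/-- Comparison family in integer form. -/
theorem lower_intL {m : ℕ} [NeZero m] {c : ℕ} (hc : 0 < c) (M : ℕ) (F : Finset (Fin n) → ℤ) :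
    ∃ z : (Fin n → Fin m) → Fin n → ℤ, (∀ v, Upto v fun U => z U v) ∧
      (∀ U v, 0 ≤ z U v) ∧ (∀ U v, z U v ≤ M) ∧
      M * (c * logZL c F - n * (1 + c * Real.logb 2 ((m : ℝ) + 1) / m))
        ≤ av fun U => ((∑ v, ee m c (U v) * z U v - Bounds.Fhat F M (z U) : ℤ) : ℝ) := by
  have hc' : (c : ℝ) ≠ 0 := by exact_mod_cast hc.ne'
  obtain ⟨z, hz, h⟩ := Bounds.lower_av (m := m) (n := n) c
    (fun z => -(F (Bounds.setOf z) : ℝ) / c)
  refine ⟨fun U v => (M : ℤ) * (if z U v then 1 else 0), ?_, ?_, ?_, ?_⟩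
  · intro v a b hab
    have := hz v a b hab
    simp only at this
    simp only [this]
  · intro U v
    simp only
    cases z U v <;> simp
  · intro U v
    simp only
    cases z U v <;> simp
  · rw [sum_bool_eqL] at h
    have h2 : (fun U : Fin n → Fin m => ((∑ v, ee m c (U v)
          * ((M : ℤ) * (if z U v then 1 else 0))
          - Bounds.Fhat F M (fun v => (M : ℤ) * (if z U v then 1 else 0)) : ℤ) : ℝ))
        = fun U => (M : ℝ) * (∑ v, (ee m c (U v) : ℝ) * bit (z U v)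
          + c * (-(F (Bounds.setOf (z U)) : ℝ) / c)) := by
      funext U
      rw [Bounds.Fhat_mul, mul_add, Finset.mul_sum]
      push_cast
      have : ∀ v, (ee m c (U v) : ℝ) * ((M : ℝ) * (if z U v = true then 1 else 0))
          = (M : ℝ) * ((ee m c (U v) : ℝ) * bit (z U v)) := by
        intro v
        unfold bit
        ring
      simp only [this]
      field_simp
      ring
    rw [h2, av_smul]
    exact mul_le_mul_of_nonneg_left h (by positivity)

theorem grL_eq {m : ℕ} (c : ℕ) (F : Finset (Fin n) → ℤ) :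
    (grL c F : Fin n → Fin m → (Fin n → ℤ) → ℤ) = FCS.gr F (fun _ u => ee m c u) 1 := by
  funext v u y
  unfold grL FCS.gr FCS.kv
  rw [CA.Up_eq, CA.Upo_eq, one_mul]

theorem PhiL_eq {m : ℕ} (c M : ℕ) {F : Finset (Fin n) → ℤ} (h0 : F ∅ = 0) (U : Fin n → Fin m)
    {y : Fin n → ℤ} (hy0 : ∀ v, 0 ≤ y v) (hy1 : ∀ v, y v ≤ M) :
    PhiL c M F U y = FCS.phi F (fun _ u => ee m c u) 1 U y := by
  unfold PhiL FCS.phi
  rw [FCS.fhat_levels h0 y hy0 hy1, ← Bounds.Fhat_eq_nat, one_mul]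
  rfl

/-- the arithmetic of the three estimates -/
theorem core_arith {n : ℕ} {c M T : ℕ} (hc : 0 < c) (hM : 0 < M) (hT : 0 < T)
    {lZ e G2 b : ℝ} (a : ℕ → ℝ)
    (hU : ∀ r, a r ≤ M * (c * lZ + n))
    (hL : M * (c * lZ - n * (1 + c * e)) ≤ b)
    (hR : 2 * ∑ r ∈ range T, (b - a r) ≤ n * (M : ℝ) ^ 2 + T * G2) :
    (∑ r ∈ range T, a r) / (T * c * M) ≤ lZ + n / c ∧
      lZ - (n * (1 / c + e) + n * M / (2 * T * c) + G2 / (2 * c * M)) ≤
        (∑ r ∈ range T, a r) / (T * c * M) := by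
  have hc' : (0 : ℝ) < c := by exact_mod_cast hc
  have hM' : (0 : ℝ) < M := by exact_mod_cast hM
  have hT' : (0 : ℝ) < T := by exact_mod_cast hT
  have h1 : ∑ r ∈ range T, a r ≤ T * (M * (c * lZ + n)) := by
    refine (sum_le_card_nsmul _ _ _ fun r _ => hU r).trans (le_of_eq ?_)
    rw [card_range, nsmul_eq_mul]
  have h2 : 2 * (T * b - ∑ r ∈ range T, a r) ≤ n * (M : ℝ) ^ 2 + T * G2 := by
    refine (le_of_eq ?_).trans hR
    rw [sum_sub_distrib, sum_const, card_range, nsmul_eq_mul]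
  constructor
  · rw [div_le_iff₀ (by positivity)]
    refine h1.trans (le_of_eq ?_)
    field_simp
  · rw [le_div_iff₀ (by positivity)]
    have h3 : (lZ - (n * (1 / c + e) + n * M / (2 * T * c) + G2 / (2 * c * M))) * (T * c * M) =
        T * (M * (c * lZ - n * (1 + c * e))) - (n * (M : ℝ) ^ 2 + T * G2) / 2 := by
      field_simp
      ring
    rw [h3]
    nlinarith [mul_le_mul_of_nonneg_left hL hT'.le]

/-- **Core** for a general integer energy. -/
theorem coreL {mu c M T G : ℕ} (hc : 0 < c) (hM : 0 < M) (hT : 0 < T)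
    {F : Finset (Fin n) → ℤ} (h0 : F ∅ = 0) (hF : FCS.Subm F)
    (hk : ∀ S v, |F (insert v S) - F S| ≤ G) :
    |(∑ r ∈ range T, av fun w : Fin n → XW (2 ^ mu) n r =>
        (PhiL c M F (dig r w) (Yit (M : ℤ) (grL c F) r w) : ℝ)) / (T * c * M) - logZL c F| ≤
      n * (1 / c + Real.logb 2 ((2 : ℝ) ^ mu + 1) / 2 ^ mu) +
        n * M / (2 * T * c) + n * (c * mu + G) ^ 2 / (2 * c * M) := by
  obtain ⟨z, hz, hz0, hz1, hzL⟩ := lower_intL (m := 2 ^ mu) (n := n) hc M F
  have hM0 : (0 : ℤ) ≤ (M : ℤ) := Int.natCast_nonneg M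
  have hc' : (0 : ℝ) < c := by exact_mod_cast hc
  obtain ⟨hA, hB⟩ := core_arith (n := n) hc hM hT (lZ := logZL c F)
    (e := Real.logb 2 ((2 : ℝ) ^ mu + 1) / 2 ^ mu) (G2 := n * (c * mu + G) ^ 2)
    (b := av fun U : Fin n → Fin (2 ^ mu) => (PhiL c M F U (z U) : ℝ))
    (fun r => av fun w : Fin n → XW (2 ^ mu) n r =>
        (PhiL c M F (dig r w) (Yit (M : ℤ) (grL c F) r w) : ℝ)) (fun r => by
      have h := upper_intL hc M (base (2 ^ mu) n r) (fun f => CA.av_base r f) F
        (fun w => Yit (M : ℤ) (grL c F) r w) (fun w v => CA.Yit_nonneg _ r w v)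
        (fun w v => CA.Yit_le hM0 _ r w v) (fun v => Yit_upto r v)
      refine (le_of_eq (congrArg av (funext fun w => ?_))).trans h
      unfold PhiL
      rw [Bounds.Fhat_eq_nat]
      rfl) (by
      have h1 : (fun U : Fin n → Fin (2 ^ mu) => (PhiL c M F U (z U) : ℝ)) = fun U =>
          ((∑ v, ee (2 ^ mu) c (U v) * z U v - Bounds.Fhat F M (z U) : ℤ) : ℝ) := by
        funext U
        unfold PhiL
        rw [Bounds.Fhat_eq_nat]
      rw [h1]
      refine le_trans (le_of_eq ?_) hzL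
      push_cast
      ring) (by
      have hgr := regret (m := 2 ^ mu) (n := n) (M := (M : ℤ)) (g := grL c F) hM0
        (FCS.phi F (fun _ u => ee (2 ^ mu) c u) 1)
        (fun U y z _ _ => by
          rw [grL_eq]
          exact FCS.gr_super hF h0 _ (by norm_num) U y z)
        ((n : ℝ) * (c * mu + G) ^ 2)
        (fun U y => by
          have h1 : ∀ v, grL c F v (U v) y ^ 2 ≤ ((c * mu + G : ℕ) : ℤ) ^ 2 := by
            intro v
            rw [← sq_abs (grL c F v (U v) y)]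
            refine pow_le_pow_left₀ (abs_nonneg _) ?_ 2
            unfold grL
            refine (abs_sub _ _).trans ?_
            have h2 := abs_ee_le (c := c) (U v).2
            have h3 : |F (Up y v) - F (Upo y v)| ≤ G := by
              rw [CA.Up_eq, CA.Upo_eq]
              exact hk _ _
            push_cast
            linarith
          have h2 : ∑ v, grL c F v (U v) y ^ 2 ≤ n * ((c * mu + G : ℕ) : ℤ) ^ 2 := by
            refine (sum_le_card_nsmul _ _ _ fun v _ => h1 v).trans ?_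
            rw [card_univ, Fintype.card_fin, nsmul_eq_mul]
          exact_mod_cast h2)
        z hz0 hz1 hz T
      refine le_trans (le_of_eq ?_) hgr
      have h1 : (fun U : Fin n → Fin (2 ^ mu) => (PhiL c M F U (z U) : ℝ)) = fun U =>
          (FCS.phi F (fun _ u => ee (2 ^ mu) c u) 1 U (z U) : ℝ) := by
        funext U
        rw [PhiL_eq c M h0 U (hz0 U) (hz1 U)]
      have h2 : ∀ r, (fun w : Fin n → XW (2 ^ mu) n r =>
          (PhiL c M F (dig r w) (Yit (M : ℤ) (grL c F) r w) : ℝ)) = fun w =>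
          (FCS.phi F (fun _ u => ee (2 ^ mu) c u) 1 (dig r w) (Yit (M : ℤ) (grL c F) r w) : ℝ) := by
        intro r
        funext w
        rw [PhiL_eq c M h0 _ (fun v => CA.Yit_nonneg _ r w v) (fun v => CA.Yit_le hM0 _ r w v)]
      simp only [h1, h2])
  have hn : (0 : ℝ) ≤ n := Nat.cast_nonneg n
  have hl : (0 : ℝ) ≤ Real.logb 2 ((2 : ℝ) ^ mu + 1) / 2 ^ mu := by
    apply div_nonneg _ (by positivity)
    apply Real.logb_nonneg (by norm_num)
    have : (0 : ℝ) ≤ 2 ^ mu := by positivity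
    linarith
  have h1 : (n : ℝ) / c ≤ n * (1 / c + Real.logb 2 ((2 : ℝ) ^ mu + 1) / 2 ^ mu) := by
    have h : (n : ℝ) / c = n * (1 / c) := by ring
    rw [h]
    apply mul_le_mul_of_nonneg_left _ hn
    linarith
  have h2 : (0 : ℝ) ≤ n * M / (2 * T * c) := by positivity
  have h3 : (0 : ℝ) ≤ n * (c * mu + G) ^ 2 / (2 * c * M) := by positivity
  rw [abs_le]
  constructor <;> linarith

end Pool.Agent.Lib.SubBisL
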