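import Pool.Agent.Lib.SubBisL.CoreL

/-!
# Systems: directed edges and a field

The energy `F S = K * #{(a, b) : E a b, a ∈ S, b ∉ S} + ∑_{v ∈ S} hf v`, its submodularity, its
marginals, and the local form of the step and of the objective.
-/

namespace Pool.Agent.Lib.SubBisL

open Finset Pool.Agent.Lib.SubBisX Pool.Agent.Lib.SubBisX.Reg Pool.Agent.Lib.SubBisX.Core SubBis

/-- A system on `Fin n`: directed edges and an integer field. -/
structure Sys (n : ℕ) where
  /-- the edges -/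
  E : Fin n → Fin n → Prop
  /-- the field -/
  hf : Fin n → ℤ

open Classical in
/-- the energy -/
noncomputable def Sys.F {n : ℕ} (s : Sys n) (K : ℕ) (S : Finset (Fin n)) : ℤ :=
  ∑ a, ∑ b, (if s.E a b ∧ a ∈ S ∧ b ∉ S then (K : ℤ) else 0) + ∑ v ∈ S, s.hf v

/-- `w` comes before `v` in the order of decreasing `y` -/
def Bef {n : ℕ} (y : Fin n → ℤ) (v w : Fin n) : Prop := y v < y w ∨ (y w = y v ∧ w < v)

open Classical in
/-- the local form of the step -/
noncomputable def Sys.g {n m : ℕ} (s : Sys n) (K c : ℕ) (v : Fin n) (u : Fin m) (y : Fin n → ℤ) : ℤ :=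
  ee m c u - ((∑ b, (if s.E v b ∧ ¬ Bef y v b then (K : ℤ) else 0)) -
    (∑ a, if s.E a v ∧ Bef y v a then (K : ℤ) else 0) + s.hf v)

open Classical in
/-- the local term of the objective -/
noncomputable def Sys.tm {n m : ℕ} (s : Sys n) (K c : ℕ) (U : Fin n → Fin m) (y : Fin n → ℤ)
    (v : Fin n) : ℤ :=
  (ee m c (U v) - s.hf v) * y v - ∑ b, (if s.E v b then (K : ℤ) * max 0 (y v - y b) else 0)

variable {n : ℕ}

theorem Sys.F_empty (s : Sys n) (K : ℕ) : s.F K ∅ = 0 := by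
  unfold Sys.F
  simp

theorem Sys.subm (s : Sys n) (K : ℕ) : FCS.Subm (s.F K) := by
  classical
  intro S T
  unfold Sys.F
  have h1 : ∑ v ∈ S ∪ T, s.hf v + ∑ v ∈ S ∩ T, s.hf v = ∑ v ∈ S, s.hf v + ∑ v ∈ T, s.hf v :=
    Finset.sum_union_inter
  have h2 : ∑ a, ∑ b, (if s.E a b ∧ a ∈ S ∪ T ∧ b ∉ S ∪ T then (K : ℤ) else 0) +
      ∑ a, ∑ b, (if s.E a b ∧ a ∈ S ∩ T ∧ b ∉ S ∩ T then (K : ℤ) else 0) ≤
      ∑ a, ∑ b, (if s.E a b ∧ a ∈ S ∧ b ∉ S then (K : ℤ) else 0) +
      ∑ a, ∑ b, (if s.E a b ∧ a ∈ T ∧ b ∉ T then (K : ℤ) else 0) := by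
    rw [← sum_add_distrib, ← sum_add_distrib]
    refine sum_le_sum fun a _ => ?_
    rw [← sum_add_distrib, ← sum_add_distrib]
    refine sum_le_sum fun b _ => ?_
    have hK : (0 : ℤ) ≤ K := Int.natCast_nonneg K
    simp only [mem_union, mem_inter]
    by_cases hE : s.E a b <;> by_cases h1 : a ∈ S <;> by_cases h2 : a ∈ T <;>
      by_cases h3 : b ∈ S <;> by_cases h4 : b ∈ T <;> simp [hE, h1, h2, h3, h4]
  linarith

open Classical in
theorem Sys.marg (s : Sys n) (K : ℕ) (hE : ∀ v, ¬ s.E v v) {S : Finset (Fin n)} {v : Fin n}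
    (hv : v ∉ S) : s.F K (insert v S) - s.F K S =
      (∑ b, (if s.E v b ∧ b ∉ S then (K : ℤ) else 0)) -
        (∑ a, if s.E a v ∧ a ∈ S then (K : ℤ) else 0) + s.hf v := by
  unfold Sys.F
  rw [sum_insert hv]
  have h1 : ∑ a, ∑ b, (if s.E a b ∧ a ∈ insert v S ∧ b ∉ insert v S then (K : ℤ) else 0) -
      ∑ a, ∑ b, (if s.E a b ∧ a ∈ S ∧ b ∉ S then (K : ℤ) else 0) =
      ∑ a, ∑ b, ((if a = v then (if s.E v b ∧ b ∉ S then (K : ℤ) else 0) else 0) -
        (if b = v then (if s.E a v ∧ a ∈ S then (K : ℤ) else 0) else 0)) := by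
    rw [← sum_sub_distrib]
    refine sum_congr rfl fun a _ => ?_
    rw [← sum_sub_distrib]
    refine sum_congr rfl fun b _ => ?_
    by_cases ha : a = v
    · subst ha
      by_cases hb : b = a
      · subst hb
        simp [hE, hv]
      · simp [hb, hv, mem_insert]
    · by_cases hb : b = v
      · subst hb
        simp [ha, hv, mem_insert]
      · simp [ha, hb, mem_insert]
  have h2 : ∑ a, ∑ b, ((if a = v then (if s.E v b ∧ b ∉ S then (K : ℤ) else 0) else 0) -
        (if b = v then (if s.E a v ∧ a ∈ S then (K : ℤ) else 0) else 0)) =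
      (∑ b, (if s.E v b ∧ b ∉ S then (K : ℤ) else 0)) -
        (∑ a, if s.E a v ∧ a ∈ S then (K : ℤ) else 0) := by
    have e1 : ∀ a : Fin n, ∑ b, ((if a = v then (if s.E v b ∧ b ∉ S then (K : ℤ) else 0) else 0) -
        (if b = v then (if s.E a v ∧ a ∈ S then (K : ℤ) else 0) else 0)) =
        (if a = v then ∑ b, (if s.E v b ∧ b ∉ S then (K : ℤ) else 0) else 0) -
          (if s.E a v ∧ a ∈ S then (K : ℤ) else 0) := by
      intro a
      rw [sum_sub_distrib, sum_ite_eq' univ v, if_pos (mem_univ v)]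
      congr 1
      by_cases ha : a = v
      · simp only [if_pos ha]
      · simp only [if_neg ha, sum_const_zero]
    rw [sum_congr rfl fun a _ => e1 a, sum_sub_distrib, sum_ite_eq' univ v, if_pos (mem_univ v)]
  rw [h2] at h1
  linarith

theorem mem_Upo {y : Fin n → ℤ} {v w : Fin n} : w ∈ Upo y v ↔ Bef y v w := by
  unfold Upo Bef
  simp

theorem Sys.grL_eq {m : ℕ} (s : Sys n) (K c : ℕ) (hE : ∀ v, ¬ s.E v v) :
    (grL c (s.F K) : Fin n → Fin m → (Fin n → ℤ) → ℤ) = s.g K c := by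
  classical
  funext v u y
  unfold grL Sys.g
  have hv : v ∉ Upo y v := by
    rw [mem_Upo]
    unfold Bef
    omega
  have h1 : Up y v = insert v (Upo y v) := CA.Up_eq y v
  rw [h1, s.marg K hE hv]
  simp only [mem_Upo]

open Classical in
theorem Sys.marg_le (s : Sys n) (K : ℕ) (hE : ∀ v, ¬ s.E v v) {D H : ℕ}
    (hD : ∀ v, (univ.filter fun b => s.E v b).card + (univ.filter fun a => s.E a v).card ≤ D)
    (hH : ∀ v, |s.hf v| ≤ H) (S : Finset (Fin n)) (v : Fin n) :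
    |s.F K (insert v S) - s.F K S| ≤ ((K * D + H : ℕ) : ℤ) := by
  by_cases hv : v ∈ S
  · rw [insert_eq_self.2 hv, sub_self, abs_zero]
    exact Int.natCast_nonneg _
  · rw [s.marg K hE hv]
    have hK : (0 : ℤ) ≤ K := Int.natCast_nonneg K
    have h1 : ∑ b, (if s.E v b ∧ b ∉ S then (K : ℤ) else 0) ≤
        K * ((univ.filter fun b => s.E v b).card : ℤ) := by
      rw [← sum_filter, sum_const, nsmul_eq_mul, mul_comm]
      refine mul_le_mul_of_nonneg_left ?_ hK
      exact_mod_cast card_le_card (fun b hb => by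
        rw [mem_filter] at hb ⊢
        exact ⟨hb.1, hb.2.1⟩)
    have h2 : ∑ a, (if s.E a v ∧ a ∈ S then (K : ℤ) else 0) ≤
        K * ((univ.filter fun a => s.E a v).card : ℤ) := by
      rw [← sum_filter, sum_const, nsmul_eq_mul, mul_comm]
      refine mul_le_mul_of_nonneg_left ?_ hK
      exact_mod_cast card_le_card (fun b hb => by
        rw [mem_filter] at hb ⊢
        exact ⟨hb.1, hb.2.1⟩)
    have h3 : 0 ≤ ∑ b, (if s.E v b ∧ b ∉ S then (K : ℤ) else 0) :=
      sum_nonneg fun b _ => by split_ifs <;> omega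
    have h4 : 0 ≤ ∑ a, (if s.E a v ∧ a ∈ S then (K : ℤ) else 0) :=
      sum_nonneg fun b _ => by split_ifs <;> omega
    have h5 : (K : ℤ) * (((univ.filter fun b => s.E v b).card : ℤ) +
        ((univ.filter fun a => s.E a v).card : ℤ)) ≤ K * D :=
      mul_le_mul_of_nonneg_left (by exact_mod_cast hD v) hK
    have h6 := abs_le.1 (hH v)
    push_cast
    rw [abs_le]
    constructor <;> nlinarith

theorem sum_step {M : ℕ} {x y : ℤ} (hx0 : 0 ≤ x) (hx : x ≤ M) (hy0 : 0 ≤ y) (hy : y ≤ M) :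
    ∑ i ∈ Icc 1 M, (if (i : ℤ) ≤ x ∧ ¬ (i : ℤ) ≤ y then (1 : ℤ) else 0) = max 0 (x - y) := by
  obtain ⟨p, rfl⟩ := Int.eq_ofNat_of_zero_le hx0
  obtain ⟨q, rfl⟩ := Int.eq_ofNat_of_zero_le hy0
  rw [← sum_filter, sum_const, nsmul_eq_mul, mul_one]
  have h : (Icc 1 M).filter (fun i : ℕ => (i : ℤ) ≤ (p : ℤ) ∧ ¬ (i : ℤ) ≤ (q : ℤ)) =
      Ioc q p := by
    ext i
    rw [mem_filter, mem_Icc, mem_Ioc]
    omega
  rw [h, Nat.card_Ioc]
  omega

theorem sum_step' {M : ℕ} {x : ℤ} (hx0 : 0 ≤ x) (hx : x ≤ M) :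
    ∑ i ∈ Icc 1 M, (if (i : ℤ) ≤ x then (1 : ℤ) else 0) = x := by
  obtain ⟨p, rfl⟩ := Int.eq_ofNat_of_zero_le hx0
  rw [← sum_filter, sum_const, nsmul_eq_mul, mul_one]
  have h : (Icc 1 M).filter (fun i : ℕ => (i : ℤ) ≤ (p : ℤ)) = Icc 1 p := by
    ext i
    rw [mem_filter, mem_Icc, mem_Icc]
    omega
  rw [h, Nat.card_Icc]
  omega

theorem Sys.PhiL_eq {m : ℕ} (s : Sys n) (K c M : ℕ) (U : Fin n → Fin m) {y : Fin n → ℤ}
    (hy0 : ∀ v, 0 ≤ y v) (hy1 : ∀ v, y v ≤ M) :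
    PhiL c M (s.F K) U y = ∑ v, s.tm K c U y v := by
  classical
  unfold PhiL Sys.F Sys.tm
  have h1 : ∑ i ∈ Icc 1 M, (∑ a, ∑ b, (if s.E a b ∧ a ∈ (univ.filter fun w => (i : ℤ) ≤ y w) ∧
      b ∉ (univ.filter fun w => (i : ℤ) ≤ y w) then (K : ℤ) else 0) +
        ∑ v ∈ (univ.filter fun w => (i : ℤ) ≤ y w), s.hf v) =
      ∑ a, ∑ b, (if s.E a b then (K : ℤ) * max 0 (y a - y b) else 0) + ∑ v, s.hf v * y v := by
    rw [sum_add_distrib, sum_comm]
    congr 1
    · refine sum_congr rfl fun a _ => ?_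
      rw [sum_comm]
      refine sum_congr rfl fun b _ => ?_
      by_cases hE : s.E a b
      · rw [if_pos hE, ← sum_step (hy0 a) (hy1 a) (hy0 b) (hy1 b), mul_sum]
        refine sum_congr rfl fun i _ => ?_
        simp only [hE, true_and, mem_filter, mem_univ]
        split_ifs <;> simp
      · rw [if_neg hE]
        refine sum_eq_zero fun i _ => ?_
        rw [if_neg fun h => hE h.1]
    · have e1 : ∀ i : ℕ, ∑ v ∈ (univ.filter fun w => (i : ℤ) ≤ y w), s.hf v =
          ∑ v, s.hf v * (if (i : ℤ) ≤ y v then (1 : ℤ) else 0) := by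
        intro i
        rw [sum_filter]
        refine sum_congr rfl fun v _ => ?_
        split_ifs <;> simp
      rw [sum_congr rfl fun i _ => e1 i, sum_comm]
      refine sum_congr rfl fun v _ => ?_
      rw [← mul_sum, sum_step' (hy0 v) (hy1 v)]
  rw [h1, sum_sub_distrib]
  have h2 : ∑ v, (ee m c (U v) - s.hf v) * y v =
      ∑ v, ee m c (U v) * y v - ∑ v, s.hf v * y v := by
    rw [← sum_sub_distrib]
    exact sum_congr rfl fun v _ => by ring
  rw [h2]
  ring

/-- **The value of a system**: the sum of the local values. -/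
theorem Sys.core {mu c M T K D H : ℕ} (s : Sys n) (hE : ∀ v, ¬ s.E v v) (hc : 0 < c) (hM : 0 < M)
    (hT : 0 < T) (hD : ∀ v, Nat.card {b // s.E v b} + Nat.card {a // s.E a v} ≤ D)
    (hH : ∀ v, |s.hf v| ≤ H) :
    |(∑ v, ∑ r ∈ range T, av fun w : Fin n → XW (2 ^ mu) n r =>
        (s.tm K c (dig r w) (Yit (M : ℤ) (s.g K c) r w) v : ℝ)) / (T * c * M) - logZL c (s.F K)| ≤
      n * (1 / c + Real.logb 2 ((2 : ℝ) ^ mu + 1) / 2 ^ mu) +
        n * M / (2 * T * c) + n * (c * mu + (K * D + H)) ^ 2 / (2 * c * M) := by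
  classical
  have h := coreL (mu := mu) (G := K * D + H) hc hM hT (s.F_empty K) (s.subm K)
    (s.marg_le K hE (D := D) (H := H) (fun v => by
      have := hD v
      rw [Nat.card_eq_fintype_card, Nat.card_eq_fintype_card, Fintype.card_subtype,
        Fintype.card_subtype] at this
      exact this) hH)
  rw [s.grL_eq K c hE] at h
  have e1 : ∑ r ∈ range T, (av fun w : Fin n → XW (2 ^ mu) n r =>
      (PhiL c M (s.F K) (dig r w) (Yit (M : ℤ) (s.g K c) r w) : ℝ)) =
      ∑ v, ∑ r ∈ range T, av fun w : Fin n → XW (2 ^ mu) n r =>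
        (s.tm K c (dig r w) (Yit (M : ℤ) (s.g K c) r w) v : ℝ) := by
    rw [sum_comm]
    refine sum_congr rfl fun r _ => ?_
    rw [← av_sum]
    refine congrArg av (funext fun w => ?_)
    rw [s.PhiL_eq K c M _ (fun v => CA.Yit_nonneg _ r w v)
      (fun v => CA.Yit_le (Int.natCast_nonneg M) _ r w v)]
    push_cast
    rfl
  rw [e1] at h
  push_cast at h
  exact h

end Pool.Agent.Lib.SubBisL
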