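import Mathlib

/-!
# Local functions of graphs: definitions

Balls, rooted isomorphism of balls, functions of rooted graphs, the hard-core partition function.
-/

namespace Pool.Agent.Lib.SubBisL

/-- The ball of radius `r` around `v`: the vertices joined to `v` by a walk of length at most `r`. -/
def ball {V : Type} (G : SimpleGraph V) (r : ℕ) (v : V) : Set V :=
  {w | ∃ p : G.Walk v w, p.length ≤ r}

/-- The centre, as a vertex of the ball. -/
def root {V : Type} (G : SimpleGraph V) (r : ℕ) (v : V) : ball G r v :=
  ⟨v, SimpleGraph.Walk.nil, Nat.zero_le r⟩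

/-- The `r`-balls around `v` and `v'` are isomorphic as rooted graphs. -/
def SameBall {V V' : Type} (G : SimpleGraph V) (v : V) (G' : SimpleGraph V') (v' : V') (r : ℕ) :
    Prop :=
  ∃ e : G.induce (ball G r v) ≃g G'.induce (ball G' r v'), e (root G r v) = root G' r v'

/-- A real function of rooted graphs. -/
abbrev RootFun : Type 1 := ∀ W : Type, SimpleGraph W → W → ℝ

/-- Invariance under isomorphism of rooted graphs. -/
def RootFun.Invariant (φ : RootFun) : Prop :=
  ∀ (W W' : Type) (H : SimpleGraph W) (H' : SimpleGraph W') (e : H ≃g H') (o : W),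
    φ W H o = φ W' H' (e o)

/-- The value of `φ` at the ball of radius `r` around `v`. -/
def RootFun.at (φ : RootFun) {V : Type} (G : SimpleGraph V) (r : ℕ) (v : V) : ℝ :=
  φ (ball G r v) (G.induce (ball G r v)) (root G r v)

open Classical in
/-- The hard-core partition function: the sum of `lam ^ |I|` over the independent sets `I`;
for `lam = 1` the number `i(G)` of independent sets. -/
noncomputable def ZZ {V : Type} [Fintype V] (G : SimpleGraph V) (lam : ℝ) : ℝ :=
  ∑ I ∈ Finset.univ.filter (fun I : Finset V => G.IsIndepSet (I : Set V)), lam ^ I.card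

/-- Every vertex has at most `D` neighbours (used for finite `V`). -/
def DegLe {V : Type} (G : SimpleGraph V) (D : ℕ) : Prop := ∀ v, (G.neighborSet v).ncard ≤ D

end Pool.Agent.Lib.SubBisL
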