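import Pool.Agent.Lib.SubBisL.Cut
import Pool.Agent.Lib.SubBisL.Defs

/-!
# The hard-core model of a bipartite graph as a system
-/

namespace Pool.Agent.Lib.SubBisL

open Finset

section ZZ

variable {V : Type} [Fintype V]

theorem ZZ_pos (G : SimpleGraph V) {lam : ℝ} (h : 0 < lam) : 0 < ZZ G lam := by
  classical
  unfold ZZ
  refine sum_pos (fun I _ => pow_pos h _) ⟨∅, ?_⟩
  rw [mem_filter]
  refine ⟨mem_univ _, ?_⟩
  rw [coe_empty]
  exact Set.pairwise_empty _

/-- The dependence on the activity. -/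
theorem ZZ_le (G : SimpleGraph V) {x y e : ℝ} (h : x ≤ y + e) (he : 0 ≤ e) :
    ZZ G ((2 : ℝ) ^ x) ≤ (2 : ℝ) ^ (e * Fintype.card V) * ZZ G ((2 : ℝ) ^ y) := by
  classical
  unfold ZZ
  rw [mul_sum]
  refine sum_le_sum fun I _ => ?_
  have h1 : (I.card : ℝ) ≤ Fintype.card V := by exact_mod_cast card_le_univ I
  rw [← Real.rpow_natCast, ← Real.rpow_natCast, ← Real.rpow_mul (by norm_num),
    ← Real.rpow_mul (by norm_num), ← Real.rpow_add (by norm_num)]
  refine Real.rpow_le_rpow_of_exponent_le (by norm_num) ?_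
  have h2 : x * I.card ≤ (y + e) * I.card := mul_le_mul_of_nonneg_right h (Nat.cast_nonneg _)
  have h3 : e * I.card ≤ e * Fintype.card V := mul_le_mul_of_nonneg_left h1 he
  linarith

theorem logb_ZZ_abs (G : SimpleGraph V) {x y e : ℝ} (h : |x - y| ≤ e) :
    |Real.logb 2 (ZZ G ((2 : ℝ) ^ x)) - Real.logb 2 (ZZ G ((2 : ℝ) ^ y))| ≤
      e * Fintype.card V := by
  have he : 0 ≤ e := (abs_nonneg _).trans h
  obtain ⟨h1, h2⟩ := abs_le.1 h
  have hp : ∀ z : ℝ, 0 < ZZ G ((2 : ℝ) ^ z) := fun z => ZZ_pos G (Real.rpow_pos_of_pos (by norm_num) z)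
  have key : ∀ a b : ℝ, a ≤ b + e → Real.logb 2 (ZZ G ((2 : ℝ) ^ a)) ≤
      e * Fintype.card V + Real.logb 2 (ZZ G ((2 : ℝ) ^ b)) := by
    intro a b hab
    have h3 := Real.logb_le_logb_of_le (b := 2) (by norm_num) (hp a) (ZZ_le G hab he)
    refine h3.trans (le_of_eq ?_)
    rw [Real.logb_mul (Real.rpow_pos_of_pos (by norm_num) _).ne' (hp b).ne',
      Real.logb_rpow (by norm_num) (by norm_num)]
  have h3 := key x y (by linarith)
  have h4 := key y x (by linarith)
  rw [abs_le]
  constructor <;> linarith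

end ZZ

section hard

variable {V : Type} [Fintype V]

open Classical in
/-- the number of edges inside `I` -/
noncomputable def eIn (G : SimpleGraph V) (col : V → Prop) (I : Finset V) : ℕ :=
  ∑ a, ∑ b, if (col a ∧ ¬ col b ∧ G.Adj a b) ∧ a ∈ I ∧ b ∈ I then 1 else 0

/-- the soft partition function -/
noncomputable def Zsoft (G : SimpleGraph V) (col : V → Prop) (q mu : ℝ) : ℝ :=
  ∑ I : Finset V, q ^ eIn G col I * mu ^ I.card

theorem eIn_indep (G : SimpleGraph V) (col : V → Prop) {I : Finset V}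
    (hI : G.IsIndepSet (I : Set V)) : eIn G col I = 0 := by
  classical
  unfold eIn
  refine sum_eq_zero fun a _ => sum_eq_zero fun b _ => ?_
  rw [if_neg]
  rintro ⟨⟨-, -, h⟩, ha, hb⟩
  exact hI ha hb h.ne h

theorem ZZ_le_Zsoft (G : SimpleGraph V) (col : V → Prop) {q mu : ℝ} (hq : 0 ≤ q) (hmu : 0 ≤ mu) :
    ZZ G mu ≤ Zsoft G col q mu := by
  classical
  unfold ZZ Zsoft
  refine le_trans (le_of_eq ?_) (sum_le_univ_sum_of_nonneg
    (s := univ.filter (fun I : Finset V => G.IsIndepSet (I : Set V))) fun I => by positivity)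
  refine sum_congr rfl fun I hI => ?_
  rw [mem_filter] at hI
  rw [eIn_indep G col hI.2, pow_zero, one_mul]

theorem Zsoft_le (G : SimpleGraph V) (col : V → Prop)
    (hcol : ∀ v w, G.Adj v w → (col v ↔ ¬ col w)) {q mu : ℝ} (hq : 0 ≤ q) (hq1 : q ≤ 1)
    (hmu : 0 ≤ mu) : Zsoft G col q mu ≤ (1 + mu * q) ^ Fintype.card V * ZZ G mu := by
  classical
  set A : Finset V → Finset V := fun I => I.filter fun a => col a ∧ ∃ b ∈ I, G.Adj a b with hA
  have h1 : (1 + mu * q) ^ Fintype.card V = ∑ A' : Finset V, (mu * q) ^ A'.card := by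
    have h := Finset.sum_pow_mul_eq_add_pow (mu * q) 1 (univ : Finset V)
    rw [powerset_univ, card_univ] at h
    rw [add_comm, ← h]
    refine sum_congr rfl fun t _ => ?_
    rw [one_pow, mul_one]
  have h2 : (1 + mu * q) ^ Fintype.card V * ZZ G mu =
      ∑ p ∈ (univ : Finset (Finset V)) ×ˢ
        (univ.filter (fun I : Finset V => G.IsIndepSet (I : Set V))),
          (mu * q) ^ p.1.card * mu ^ p.2.card := by
    rw [h1]
    unfold ZZ
    rw [sum_mul_sum, sum_product]
  have hind : ∀ I : Finset V, G.IsIndepSet ((I \ A I : Finset V) : Set V) := by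
    intro I x hx y hy _ hadj
    rw [mem_coe, mem_sdiff] at hx hy
    by_cases hc : col x
    · exact hx.2 (mem_filter.2 ⟨hx.1, hc, y, hy.1, hadj⟩)
    · have hc' : col y := by
        have := hcol y x hadj.symm
        exact this.2 hc
      exact hy.2 (mem_filter.2 ⟨hy.1, hc', x, hx.1, hadj.symm⟩)
  have hle : ∀ I : Finset V, (A I).card ≤ eIn G col I := by
    intro I
    unfold eIn
    rw [card_eq_sum_ones]
    refine le_trans ?_ (sum_le_univ_sum_of_nonneg (s := A I) fun _ => Nat.zero_le _)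
    refine sum_le_sum fun a ha => ?_
    rw [hA, mem_filter] at ha
    obtain ⟨haI, hca, b, hb, hab⟩ := ha
    refine le_trans (le_of_eq ?_) (single_le_sum (f := fun b => if (col a ∧ ¬ col b ∧ G.Adj a b) ∧
      a ∈ I ∧ b ∈ I then 1 else 0) (fun _ _ => Nat.zero_le _) (mem_univ b))
    show 1 = if (col a ∧ ¬ col b ∧ G.Adj a b) ∧ a ∈ I ∧ b ∈ I then 1 else 0
    rw [if_pos]
    exact ⟨⟨hca, (hcol a b hab).1 hca, hab⟩, haI, hb⟩
  rw [h2]
  unfold Zsoft
  have hinj : Set.InjOn (fun I : Finset V => (A I, I \ A I)) (univ : Finset (Finset V)) := by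
    intro I _ J _ hIJ
    have h3 : A I = A J := congrArg Prod.fst hIJ
    have h4 : I \ A I = J \ A J := congrArg Prod.snd hIJ
    have h5 : ∀ I : Finset V, A I ⊆ I := fun I => filter_subset _ _
    rw [← union_sdiff_of_subset (h5 I), h4, h3, union_sdiff_of_subset (h5 J)]
  calc ∑ I : Finset V, q ^ eIn G col I * mu ^ I.card
      ≤ ∑ I : Finset V, (mu * q) ^ (A I).card * mu ^ (I \ A I).card := by
        refine sum_le_sum fun I _ => ?_
        have h3 : I.card = (A I).card + (I \ A I).card := by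
          rw [add_comm]
          exact (card_sdiff_add_card_eq_card (filter_subset _ _)).symm
        rw [h3, mul_pow, pow_add]
        have h4 : q ^ eIn G col I ≤ q ^ (A I).card := pow_le_pow_of_le_one hq hq1 (hle I)
        have h5 : (0 : ℝ) ≤ mu ^ (A I).card * mu ^ (I \ A I).card := by positivity
        calc q ^ eIn G col I * (mu ^ (A I).card * mu ^ (I \ A I).card)
            ≤ q ^ (A I).card * (mu ^ (A I).card * mu ^ (I \ A I).card) :=
              mul_le_mul_of_nonneg_right h4 h5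
          _ = _ := by ring
    _ = ∑ p ∈ (univ : Finset (Finset V)).image (fun I : Finset V => (A I, I \ A I)),
          (mu * q) ^ p.1.card * mu ^ p.2.card := by
        rw [sum_image hinj]
    _ ≤ _ := by
        refine sum_le_sum_of_subset_of_nonneg ?_ fun _ _ _ => by positivity
        intro p hp
        rw [mem_image] at hp
        obtain ⟨I, -, rfl⟩ := hp
        rw [mem_product, mem_filter]
        exact ⟨mem_univ _, mem_univ _, hind I⟩

/-- The system of a bipartite graph with an ordering of its vertices. -/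
noncomputable def sysG {n : ℕ} (G : SimpleGraph V) (col : V → Prop) (h : ℤ) (σ : Fin n → V) :
    Sys n :=
  ⟨fun a b => col (σ a) ∧ ¬ col (σ b) ∧ G.Adj (σ a) (σ b),
    fun a => by classical exact if col (σ a) then -h else h⟩

open Classical in
/-- The subset coded by `S`. -/
noncomputable def code {n : ℕ} (col : V → Prop) (σ : Fin n ≃ V) : Finset (Fin n) ≃ Finset V where
  toFun S := univ.filter fun v => (σ.symm v ∈ S ↔ col v)
  invFun I := univ.filter fun a => (σ a ∈ I ↔ col (σ a))
  left_inv S := by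
    ext a
    simp only [mem_filter, mem_univ, true_and, Equiv.symm_apply_apply]
    tauto
  right_inv I := by
    ext v
    simp only [mem_filter, mem_univ, true_and, Equiv.apply_symm_apply]
    tauto

open Classical in
theorem sysG_F {n : ℕ} (G : SimpleGraph V) (col : V → Prop) (h : ℤ) (σ : Fin n ≃ V) (K : ℕ)
    (S : Finset (Fin n)) :
    (sysG G col h σ).F K S = K * eIn G col (code col σ S) - h * (code col σ S).card +
      h * (univ.filter fun v => ¬ col v).card := by
  set I := code col σ S with hI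
  have hmem : ∀ a : Fin n, σ a ∈ I ↔ (a ∈ S ↔ col (σ a)) := by
    intro a
    rw [hI]
    show σ a ∈ univ.filter (fun v => (σ.symm v ∈ S ↔ col v)) ↔ _
    rw [mem_filter, Equiv.symm_apply_apply]
    simp
  unfold Sys.F
  have h1 : ∑ a, ∑ b, (if (sysG G col h σ).E a b ∧ a ∈ S ∧ b ∉ S then (K : ℤ) else 0) =
      K * eIn G col I := by
    unfold eIn
    push_cast
    rw [← Equiv.sum_comp σ, mul_sum]
    refine sum_congr rfl fun a _ => ?_
    rw [← Equiv.sum_comp σ, mul_sum]
    refine sum_congr rfl fun b _ => ?_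
    have h2 : ((sysG G col h σ).E a b ∧ a ∈ S ∧ b ∉ S) ↔
        ((col (σ a) ∧ ¬ col (σ b) ∧ G.Adj (σ a) (σ b)) ∧ σ a ∈ I ∧ σ b ∈ I) := by
      rw [hmem, hmem]
      show ((col (σ a) ∧ ¬ col (σ b) ∧ G.Adj (σ a) (σ b)) ∧ a ∈ S ∧ b ∉ S) ↔ _
      tauto
    rw [if_congr h2 rfl rfl]
    split_ifs <;> simp
  have h3 : ∑ v ∈ S, (sysG G col h σ).hf v =
      - h * I.card + h * (univ.filter fun v => ¬ col v).card := by
    have e0 : ∑ v ∈ S, (sysG G col h σ).hf v =
        ∑ v, if v ∈ S then (sysG G col h σ).hf v else 0 := by simp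
    rw [e0]
    have e1 : (I.card : ℤ) = ∑ a : Fin n, if σ a ∈ I then (1 : ℤ) else 0 := by
      rw [Equiv.sum_comp σ fun v => if v ∈ I then (1 : ℤ) else 0]
      simp
    have e2 : ((univ.filter fun v => ¬ col v).card : ℤ) =
        ∑ a : Fin n, if ¬ col (σ a) then (1 : ℤ) else 0 := by
      rw [Equiv.sum_comp σ fun v => if ¬ col v then (1 : ℤ) else 0, ← sum_filter, sum_const,
        nsmul_eq_mul, mul_one]
    rw [e1, e2, mul_sum, mul_sum, ← sum_add_distrib]
    refine sum_congr rfl fun a _ => ?_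
    have h4 := hmem a
    show (if a ∈ S then (if col (σ a) then -h else h) else 0) = _
    by_cases ha : a ∈ S <;> by_cases hc : col (σ a) <;> simp [ha, hc, h4]
  rw [h1, h3]
  ring

end hard

end Pool.Agent.Lib.SubBisL
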