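import Pool.Agent.Lib.SubBisL.Ball

/-!
# From a local functional of systems to a local function of graphs
-/

namespace Pool.Agent.Lib.SubBisL

open Finset Pool.Agent.Lib.SubBisX Pool.Agent.Lib.SubBisX.Reg

/-- A real functional of systems with a marked vertex. -/
abbrev Func : Type := ∀ n : ℕ, Sys n → Fin n → ℝ

/-- It depends only on the ball of radius `R`. -/
def Func.Loc (L : Func) (R : ℕ) : Prop :=
  ∀ (n k : ℕ) (s : Sys n) (ι : Fin k → Fin n), StrictMono ι → ∀ x, Cov s ι R x →
    L n s (ι x) = L k (s.comap ι) x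

/-- The admissible systems. -/
structure Adm {n : ℕ} (s : Sys n) (D H : ℕ) : Prop where
  irr : ∀ v, ¬ s.E v v
  deg : ∀ v, Nat.card {b // s.E v b} + Nat.card {a // s.E a v} ≤ D
  hf : ∀ v, |s.hf v| ≤ H

theorem adm_sysG {V : Type} [Fintype V] {G : SimpleGraph V} {D : ℕ} (hD : DegLe G D) {n : ℕ}
    (col : V → Prop) (h : ℤ) (σ : Fin n ≃ V) : Adm (sysG G col h σ) D h.natAbs :=
  ⟨sysG_irr G col h σ, sysG_deg hD col h σ, sysG_hf G col h σ⟩

/-- the mean of the functional at the root over the orders of the vertices -/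
noncomputable def valG (L : Func) (h : ℤ) (k : ℕ) {W : Type} (H : SimpleGraph W) (o : W)
    (b : Prop) : ℝ :=
  avF fun τ : Fin k ≃ W => L k (sysG H (colR H o b) h τ) (τ.symm o)

theorem valG_iso (L : Func) (h : ℤ) (k : ℕ) {W W' : Type} {H : SimpleGraph W}
    {H' : SimpleGraph W'} (e : H ≃g H') (o : W) (b : Prop) :
    valG L h k H o b = valG L h k H' (e o) b := by
  classical
  unfold valG
  rw [← avF_equiv (Equiv.equivCongr (Equiv.refl (Fin k)) e.toEquiv)]
  refine congrArg avF (funext fun τ => ?_)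
  have h1 : sysG H (colR H o b) h τ = sysG H' (colR H' (e o) b) h
      (Equiv.equivCongr (Equiv.refl (Fin k)) e.toEquiv τ) := by
    have ha : ∀ a, (Equiv.equivCongr (Equiv.refl (Fin k)) e.toEquiv τ) a = e (τ a) := fun _ => rfl
    unfold sysG
    congr 1
    · funext a x
      refine propext ?_
      rw [ha, ha, colR_iso e, colR_iso e, e.map_adj_iff]
    · funext a
      refine if_congr ?_ rfl rfl
      rw [ha, colR_iso e]
  have h2 : (Equiv.equivCongr (Equiv.refl (Fin k)) e.toEquiv τ).symm (e o) = τ.symm o := by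
    rw [Equiv.symm_apply_eq]
    show e o = e (τ (τ.symm o))
    rw [Equiv.apply_symm_apply]
  rw [h1, h2]

/-- The value of the ball is the mean of the functional over the orders of the graph. -/
theorem valG_ball {V : Type} {G : SimpleGraph V} [Fintype V] {col : V → Prop}
    (hcol : ∀ v w, G.Adj v w → (col v ↔ ¬ col w)) {L : Func} {R : ℕ} (hL : L.Loc R) (h : ℤ)
    {n : ℕ} (v : V) (σ₀ : Fin n ≃ V) :
    valG L h (Nat.card (ball G R v)) (G.induce (ball G R v)) (root G R v) (col v) =
      avF fun σ : Fin n ≃ V => L n (sysG G col h σ) (σ.symm v) := by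
  unfold valG
  rw [← av_tau rfl σ₀]
  refine congrArg avF (funext fun σ => ?_)
  set x := (tau (rfl : Nat.card (ball G R v) = _) σ).symm (root G R v) with hx
  have h1 : σ (iot (rfl : Nat.card (ball G R v) = _) σ x) = v := by
    rw [← tau_apply, hx, Equiv.apply_symm_apply]
    rfl
  have h2 : σ.symm v = iot (rfl : Nat.card (ball G R v) = _) σ x := by
    rw [Equiv.symm_apply_eq, h1]
  rw [h2, hL _ _ _ _ (iot (rfl : Nat.card (ball G R v) = _) σ).strictMono x
    (cov_ball col h rfl σ R x (by rw [h1])), comap_eq hcol h R v rfl σ]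

theorem avF_sum {Ω ι : Type*} [Fintype Ω] (s : Finset ι) (f : ι → Ω → ℝ) :
    ∑ i ∈ s, avF (f i) = avF fun w => ∑ i ∈ s, f i w := by
  simp only [avF_eq]
  rw [av_sum]

theorem avF_near {Ω : Type*} [Fintype Ω] [Nonempty Ω] {f : Ω → ℝ} {a e : ℝ}
    (h : ∀ w, |f w - a| ≤ e) : |avF f - a| ≤ e := by
  rw [avF_eq]
  have h1 : av f ≤ a + e := by
    rw [← av_const (Ω := Ω) (a + e)]
    exact av_mono fun w => by have := (abs_le.1 (h w)).2; linarith
  have h2 : a - e ≤ av f := by
    rw [← av_const (Ω := Ω) (a - e)]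
    exact av_mono fun w => by have := (abs_le.1 (h w)).1; linarith
  rw [abs_le]
  constructor <;> linarith

/-- One colouring. -/
theorem sum_valG {V : Type} [Fintype V] (G : SimpleGraph V) {col : V → Prop}
    (hcol : ∀ v w, G.Adj v w → (col v ↔ ¬ col w)) {D : ℕ} (hD : DegLe G D)
    {L : Func} {R : ℕ} (hL : L.Loc R) {c kap : ℕ} (hc : 0 < c) (h : ℤ) {e : ℝ}
    (hsum : ∀ (n : ℕ) (s : Sys n), Adm s D h.natAbs →
      |∑ v, L n s v - logZL c (s.F (c * kap))| ≤ n * e)
    {lam : ℝ} (hlam : 0 < lam) (hh : |Real.logb 2 lam - (h : ℝ) / c| ≤ 1 / c) :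
    |∑ v, valG L h (Nat.card (ball G R v)) (G.induce (ball G R v)) (root G R v) (col v) +
        Real.logb 2 lam * Nat.card {v // ¬ col v} - Real.logb 2 (ZZ G lam)| ≤
      Fintype.card V * (e + (2 / c + Real.logb 2 (1 + (2 : ℝ) ^ ((h : ℝ) / c) *
        (1 / 2) ^ kap))) := by
  classical
  set n := Fintype.card V with hn
  let σ₀ : Fin n ≃ V := (Fintype.equivFin V).symm
  haveI : Nonempty (Fin n ≃ V) := ⟨σ₀⟩
  have h1 : ∑ v, valG L h (Nat.card (ball G R v)) (G.induce (ball G R v)) (root G R v) (col v) =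
      avF fun σ : Fin n ≃ V => ∑ a, L n (sysG G col h σ) a := by
    rw [sum_congr rfl fun v _ => valG_ball hcol hL h v σ₀, avF_sum]
    refine congrArg avF (funext fun σ => ?_)
    rw [← Equiv.sum_comp σ]
    refine sum_congr rfl fun a _ => ?_
    rw [Equiv.symm_apply_apply]
  rw [h1, add_sub_assoc, ← sub_neg_eq_add]
  refine avF_near fun σ => ?_
  have h4 := hsum n (sysG G col h σ) (adm_sysG hD col h σ)
  have h5 := hard_abs G col hcol h σ hc kap hlam hh
  rw [← hn, ← Fintype.card_subtype, ← Nat.card_eq_fintype_card] at h5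
  rw [mul_add]
  refine le_trans (le_of_eq ?_) (le_trans (abs_sub _ _) (add_le_add h4 h5))
  congr 1
  ring

/-- the local function -/
noncomputable def phiG (L : Func) (h : ℤ) (lam : ℝ) : RootFun := fun W H o =>
  (valG L h (Nat.card W) H o True + valG L h (Nat.card W) H o False) / 2 + Real.logb 2 lam / 2

theorem phiG_inv (L : Func) (h : ℤ) (lam : ℝ) : (phiG L h lam).Invariant := by
  intro W W' H H' e o
  unfold phiG
  rw [← Nat.card_congr e.toEquiv, ← valG_iso L h (Nat.card W) e o True,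
    ← valG_iso L h (Nat.card W) e o False]

theorem valG_add {V : Type} (G : SimpleGraph V) (col : V → Prop) (L : Func) (h : ℤ) (R : ℕ)
    (v : V) :
    valG L h (Nat.card (ball G R v)) (G.induce (ball G R v)) (root G R v) True +
      valG L h (Nat.card (ball G R v)) (G.induce (ball G R v)) (root G R v) False =
    valG L h (Nat.card (ball G R v)) (G.induce (ball G R v)) (root G R v) (col v) +
      valG L h (Nat.card (ball G R v)) (G.induce (ball G R v)) (root G R v) (¬ col v) := by
  by_cases hc : col v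
  · rw [eq_true hc, not_true]
  · rw [eq_false hc, not_false_eq_true, add_comm]

theorem exists_col {V : Type} {G : SimpleGraph V} (hG : G.Colorable 2) :
    ∃ col : V → Prop, ∀ v w, G.Adj v w → (col v ↔ ¬ col w) := by
  obtain ⟨C⟩ := hG
  refine ⟨fun v => C v = 0, fun v w hvw => ?_⟩
  have h1 := C.valid hvw
  show C v = 0 ↔ ¬ C w = 0
  generalize C v = x at *
  generalize C w = y at *
  revert h1
  revert x y
  decide

/-- **Locality** from a local functional. -/
theorem sum_phiG {V : Type} [Fintype V] (G : SimpleGraph V) (hG : G.Colorable 2) {D : ℕ}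
    (hD : DegLe G D) {L : Func} {R : ℕ} (hL : L.Loc R) {c kap : ℕ} (hc : 0 < c) (h : ℤ) {e : ℝ}
    (hsum : ∀ (n : ℕ) (s : Sys n), Adm s D h.natAbs →
      |∑ v, L n s v - logZL c (s.F (c * kap))| ≤ n * e)
    {lam : ℝ} (hlam : 0 < lam) (hh : |Real.logb 2 lam - (h : ℝ) / c| ≤ 1 / c) :
    |Real.logb 2 (ZZ G lam) - ∑ v, (phiG L h lam).at G R v| ≤
      (e + (2 / c + Real.logb 2 (1 + (2 : ℝ) ^ ((h : ℝ) / c) * (1 / 2) ^ kap))) *
        Fintype.card V := by
  classical
  obtain ⟨col, hcol⟩ := exists_col hG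
  have hcol' : ∀ v w, G.Adj v w → (¬ col v ↔ ¬ ¬ col w) := by
    intro v w hvw
    have := hcol v w hvw
    tauto
  have h1 := sum_valG G hcol hD hL (kap := kap) hc h hsum hlam hh
  have h2 := sum_valG G (col := fun v => ¬ col v) hcol' hD hL (kap := kap) hc h hsum hlam hh
  have h3 : ∑ v, (phiG L h lam).at G R v =
      (∑ v, valG L h (Nat.card (ball G R v)) (G.induce (ball G R v)) (root G R v) (col v) +
      ∑ v, valG L h (Nat.card (ball G R v)) (G.induce (ball G R v)) (root G R v) (¬ col v)) / 2 +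
        Real.logb 2 lam * Fintype.card V / 2 := by
    rw [← sum_add_distrib, sum_div]
    have h4 : Real.logb 2 lam * Fintype.card V / 2 = ∑ _v : V, Real.logb 2 lam / 2 := by
      rw [sum_const, card_univ, nsmul_eq_mul]
      ring
    rw [h4, ← sum_add_distrib]
    refine sum_congr rfl fun v _ => ?_
    have h5 : (phiG L h lam).at G R v =
      (valG L h (Nat.card (ball G R v)) (G.induce (ball G R v)) (root G R v) True +
        valG L h (Nat.card (ball G R v)) (G.induce (ball G R v)) (root G R v) False) / 2 +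
          Real.logb 2 lam / 2 := rfl
    rw [h5, valG_add G col]
  have h6 : (Fintype.card V : ℝ) = Nat.card {v // ¬ col v} + Nat.card {v // ¬ ¬ col v} := by
    have e1 := Fintype.card_subtype_compl fun v => ¬ col v
    have e2 := Fintype.card_subtype_le fun v => ¬ col v
    have e3 : Fintype.card V = Nat.card {v // ¬ col v} + Nat.card {v // ¬ ¬ col v} := by
      rw [Nat.card_eq_fintype_card, Nat.card_eq_fintype_card, e1]
      omega
    exact_mod_cast e3
  obtain ⟨a1, a2⟩ := abs_le.1 h1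
  obtain ⟨b1, b2⟩ := abs_le.1 h2
  have h7 : Real.logb 2 lam * Fintype.card V =
      Real.logb 2 lam * Nat.card {v // ¬ col v} +
        Real.logb 2 lam * Nat.card {v // ¬ ¬ col v} := by
    rw [h6]
    ring
  rw [h3, h7, mul_comm _ (Fintype.card V : ℝ), abs_le]
  constructor <;> linarith

/-! ## Bounds -/

theorem tm_le {n : ℕ} (s : Sys n) {K c M mu D H : ℕ} (hs : Adm s D H)
    (U : Fin n → Fin (2 ^ mu)) {y : Fin n → ℤ} (hy0 : ∀ v, 0 ≤ y v) (hy1 : ∀ v, y v ≤ M)
    (v : Fin n) : |s.tm K c U y v| ≤ (c * mu + H + K * D) * M := by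
  classical
  unfold Sys.tm
  have hM : (0 : ℤ) ≤ M := Int.natCast_nonneg M
  have hK : (0 : ℤ) ≤ K := Int.natCast_nonneg K
  have h1 : |(SubBis.ee (2 ^ mu) c (U v) - s.hf v) * y v| ≤ (c * mu + H) * M := by
    rw [abs_mul, abs_of_nonneg (hy0 v)]
    refine mul_le_mul ?_ (hy1 v) (hy0 v) (by positivity)
    exact (abs_sub _ _).trans (add_le_add (SubBis.abs_ee_le (U v).2) (hs.hf v))
  have h2 : ∑ b, (if s.E v b then (K : ℤ) * max 0 (y v - y b) else 0) ≤ K * D * M := by
    have h3 : ∑ b, (if s.E v b then (K : ℤ) * max 0 (y v - y b) else 0) ≤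
        ∑ b, (if s.E v b then (K : ℤ) * M else 0) := by
      refine sum_le_sum fun b _ => ?_
      split_ifs
      · refine mul_le_mul_of_nonneg_left (max_le hM ?_) hK
        have := hy0 b
        have := hy1 v
        linarith
      · exact le_rfl
    refine h3.trans ?_
    rw [← sum_filter, sum_const, nsmul_eq_mul]
    have h4 : ((univ.filter fun b => s.E v b).card : ℤ) ≤ D := by
      have := hs.deg v
      rw [Nat.card_eq_fintype_card, Fintype.card_subtype] at this
      omega
    calc ((univ.filter fun b => s.E v b).card : ℤ) * (K * M) ≤ D * (K * M) :=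
          mul_le_mul_of_nonneg_right h4 (by positivity)
      _ = K * D * M := by ring
  have h5 : 0 ≤ ∑ b, (if s.E v b then (K : ℤ) * max 0 (y v - y b) else 0) :=
    sum_nonneg fun b _ => by
      split_ifs
      · positivity
      · exact le_rfl
  refine (abs_sub _ _).trans ?_
  rw [abs_of_nonneg h5]
  have h6 : ((c : ℤ) * mu + H + K * D) * M = (c * mu + H) * M + K * D * M := by ring
  rw [h6]
  exact add_le_add h1 h2

theorem valG_le {V : Type} [Fintype V] (G : SimpleGraph V) {col : V → Prop}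
    (hcol : ∀ v w, G.Adj v w → (col v ↔ ¬ col w)) {D : ℕ} (hD : DegLe G D)
    {L : Func} {R : ℕ} (hL : L.Loc R) (h : ℤ) {B : ℝ}
    (hB : ∀ (n : ℕ) (s : Sys n), Adm s D h.natAbs → ∀ v, |L n s v| ≤ B) (v : V) :
    |valG L h (Nat.card (ball G R v)) (G.induce (ball G R v)) (root G R v) (col v)| ≤ B := by
  classical
  let σ₀ : Fin (Fintype.card V) ≃ V := (Fintype.equivFin V).symm
  haveI : Nonempty (Fin (Fintype.card V) ≃ V) := ⟨σ₀⟩
  rw [valG_ball hcol hL h v σ₀]
  have h1 := avF_near (f := fun σ : Fin (Fintype.card V) ≃ V =>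
    L _ (sysG G col h σ) (σ.symm v)) (a := 0) (e := B) (fun σ => by
      rw [sub_zero]
      exact hB _ _ (adm_sysG hD col h σ) _)
  rw [sub_zero] at h1
  exact h1

theorem phiG_le {V : Type} [Fintype V] (G : SimpleGraph V) (hG : G.Colorable 2) {D : ℕ}
    (hD : DegLe G D) {L : Func} {R : ℕ} (hL : L.Loc R) (h : ℤ) {B : ℝ}
    (hB : ∀ (n : ℕ) (s : Sys n), Adm s D h.natAbs → ∀ v, |L n s v| ≤ B) (lam : ℝ) (v : V) :
    |(phiG L h lam).at G R v| ≤ B + |Real.logb 2 lam| / 2 := by
  obtain ⟨col, hcol⟩ := exists_col hG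
  have hcol' : ∀ v w, G.Adj v w → (¬ col v ↔ ¬ ¬ col w) := by
    intro v w hvw
    have := hcol v w hvw
    tauto
  have h1 := valG_le G hcol hD hL h hB v
  have h2 := valG_le G (col := fun v => ¬ col v) hcol' hD hL h hB v
  have h5 : (phiG L h lam).at G R v =
      (valG L h (Nat.card (ball G R v)) (G.induce (ball G R v)) (root G R v) True +
        valG L h (Nat.card (ball G R v)) (G.induce (ball G R v)) (root G R v) False) / 2 +
          Real.logb 2 lam / 2 := rfl
  rw [h5, valG_add G col]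
  refine (abs_add_le _ _).trans (add_le_add ?_ (le_of_eq ?_))
  · rw [abs_div, abs_of_pos (by norm_num : (0 : ℝ) < 2), div_le_iff₀ (by norm_num)]
    have := (abs_add_le _ _).trans (add_le_add h1 h2)
    linarith
  · rw [abs_div, abs_of_pos (by norm_num : (0 : ℝ) < 2)]

/-- **Locality**, with a bounded function. -/
theorem exists_phi {D : ℕ} {L : Func} {R : ℕ} (hL : L.Loc R) {c kap : ℕ} (hc : 0 < c) (h : ℤ)
    {e B : ℝ} (hB0 : 0 ≤ B)
    (hsum : ∀ (n : ℕ) (s : Sys n), Adm s D h.natAbs →
      |∑ v, L n s v - logZL c (s.F (c * kap))| ≤ n * e)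
    (hB : ∀ (n : ℕ) (s : Sys n), Adm s D h.natAbs → ∀ v, |L n s v| ≤ B)
    {lam : ℝ} (hlam : 0 < lam) (hh : |Real.logb 2 lam - (h : ℝ) / c| ≤ 1 / c) :
    ∃ φ : RootFun, φ.Invariant ∧
      (∀ (W : Type) (H : SimpleGraph W) (o : W), |φ W H o| ≤ B + |Real.logb 2 lam| / 2) ∧
      ∀ (V : Type) [Fintype V] (G : SimpleGraph V), G.Colorable 2 → DegLe G D →
        |Real.logb 2 (ZZ G lam) - ∑ v, φ.at G R v| ≤
          (e + (2 / c + Real.logb 2 (1 + (2 : ℝ) ^ ((h : ℝ) / c) * (1 / 2) ^ kap))) *
            Fintype.card V := by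
  set C : ℝ := B + |Real.logb 2 lam| / 2 with hC
  have hC0 : 0 ≤ C := by
    rw [hC]
    positivity
  refine ⟨fun W H o => max (-C) (min C (phiG L h lam W H o)), ?_, ?_, ?_⟩
  · intro W W' H H' e o
    show max (-C) (min C (phiG L h lam W H o)) =
      max (-C) (min C (phiG L h lam W' H' (e o)))
    rw [phiG_inv L h lam W W' H H' e o]
  · intro W H o
    rw [abs_le]
    exact ⟨le_max_left _ _, max_le (by linarith) (min_le_left _ _)⟩
  · intro V _ G hG hD
    have h1 : ∀ v, RootFun.at (fun W H o => max (-C) (min C (phiG L h lam W H o))) G R v =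
        (phiG L h lam).at G R v := by
      intro v
      have h2 := abs_le.1 (phiG_le G hG hD hL h hB lam v)
      show max (-C) (min C ((phiG L h lam).at G R v)) = _
      rw [min_eq_right h2.2, max_eq_right h2.1]
    rw [sum_congr rfl fun v _ => h1 v]
    exact sum_phiG G hG hD hL hc h hsum hlam hh

end Pool.Agent.Lib.SubBisL
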