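import Mathlib
import Pool.Agent.Lib.SubBisX.Core

/-!
# The parameters: radius `O(D log (1 / eps) / eps)`
-/

namespace Pool.Agent.Lib.SubBisL

open Pool.Agent.Lib.SubBisX

theorem logb_one_add_le {x : ℝ} (hx : 0 ≤ x) : Real.logb 2 (1 + x) ≤ 2 * x := by
  rw [Real.logb, div_le_iff₀ (Real.log_pos (by norm_num))]
  have e2 := Real.log_le_sub_one_of_pos (x := 1 + x) (by positivity)
  have e3 : (0.6931471803 : ℝ) < Real.log 2 := Real.log_two_gt_d9
  nlinarith

/-- the size of the letters -/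
theorem size_le {eps : ℝ} (heps : 0 < eps) (heps1 : eps ≤ 1) :
    ((2 * Nat.size ⌈6 / eps⌉₊ + 3 : ℕ) : ℝ) ≤ 2 * Real.logb 2 (1 / eps) + 11 := by
  set q := ⌈6 / eps⌉₊ with hq
  have h1 : (q : ℝ) < 6 / eps + 1 := Nat.ceil_lt_add_one (by positivity)
  have h2 : (1 : ℝ) ≤ 1 / eps := by rw [le_div_iff₀ heps]; linarith
  have h3 : (q : ℝ) ≤ 8 * (1 / eps) := by
    have : (6 : ℝ) / eps = 6 * (1 / eps) := by ring
    linarith
  have hq0 : 0 < q := Nat.ceil_pos.2 (by positivity)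
  have h4 : 0 < q.size := Nat.size_pos.2 hq0
  have h5 : 2 ^ (q.size - 1) ≤ q := Nat.lt_size.1 (by omega)
  have h6 : ((q.size - 1 : ℕ) : ℝ) ≤ Real.logb 2 q := by
    have h : ((2 : ℝ) ^ (q.size - 1)) ≤ q := by exact_mod_cast h5
    have h7 := Real.logb_le_logb_of_le (b := 2) (by norm_num) (by positivity) h
    rwa [Real.logb_pow, Real.logb_self_eq_one (by norm_num), mul_one] at h7
  have h7 : Real.logb 2 (q : ℝ) ≤ 3 + Real.logb 2 (1 / eps) := by
    have hq0' : (0 : ℝ) < q := by exact_mod_cast hq0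
    refine (Real.logb_le_logb_of_le (b := 2) (by norm_num) hq0' h3).trans (le_of_eq ?_)
    rw [Real.logb_mul (by norm_num) (by positivity)]
    congr 1
    rw [show (8 : ℝ) = 2 ^ (3 : ℕ) by norm_num, Real.logb_pow, Real.logb_self_eq_one (by norm_num)]
    norm_num
  have h8 : (q.size : ℝ) = ((q.size - 1 : ℕ) : ℝ) + 1 := by
    rw [← Nat.cast_succ]
    congr 1
    omega
  push_cast
  rw [h8]
  linarith

/-- The parameters. -/
theorem exists_parA (D : ℕ) {lam eps : ℝ} (hlam : 0 < lam) (heps : 0 < eps) (heps1 : eps ≤ 1) :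
    ∃ c M mu s N T kap G : ℕ, ∃ h : ℤ, 0 < c ∧ 0 < M ∧ 0 < T ∧ 0 < s ∧ 0 < N ∧ 80 * s * G ≤ N ∧
      c * kap * D + h.natAbs ≤ G ∧ |Real.logb 2 lam - (h : ℝ) / c| ≤ 1 / c ∧
      ((1 + c * (Real.logb 2 ((2 : ℝ) ^ mu + 1) / 2 ^ mu)) / c + 2 * (G * N) / (c * M) +
        M / (c * s * T ^ 2) + T * G ^ 2 / (c * M) + T * ((c * mu + G) + 1) / (c * M)) +
        (2 / c + Real.logb 2 (1 + (2 : ℝ) ^ ((h : ℝ) / c) * (1 / 2) ^ kap)) ≤ eps ∧
      ((T + 1 : ℕ) : ℝ) ≤
        80 * (D + 1) * (Real.logb 2 (1 / eps) + |Real.logb 2 lam| + 5) / eps ∧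
      (mu : ℝ) + (h.natAbs + c * kap * D) / c + |Real.logb 2 lam| / 2 ≤
        (D + 3) * (Real.logb 2 (1 / eps) + |Real.logb 2 lam| + 5) := by
  set a : ℝ := |Real.logb 2 lam| with ha
  set b : ℝ := Real.logb 2 (1 / eps) with hb
  have h1e : (1 : ℝ) ≤ 1 / eps := by rw [le_div_iff₀ heps]; linarith
  have ha0 : 0 ≤ a := abs_nonneg _
  have hb0 : 0 ≤ b := Real.logb_nonneg (by norm_num) h1e
  set c : ℕ := ⌈18 / eps⌉₊ with hc
  have hc1 : 18 / eps ≤ (c : ℝ) := Nat.le_ceil _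
  have hc2 : (c : ℝ) ≤ 19 / eps := by
    have h1 : (c : ℝ) < 18 / eps + 1 := Nat.ceil_lt_add_one (by positivity)
    have h2 : (19 : ℝ) / eps = 18 / eps + 1 / eps := by ring
    linarith
  have hc0 : (0 : ℝ) < c := lt_of_lt_of_le (by positivity) hc1
  have hc' : 0 < c := by exact_mod_cast hc0
  have hce1 : 18 ≤ (c : ℝ) * eps := by rwa [div_le_iff₀ heps] at hc1
  have hce2 : (c : ℝ) * eps ≤ 19 := by rwa [le_div_iff₀ heps] at hc2
  have hc18 : (18 : ℝ) ≤ c := by nlinarith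
  set h : ℤ := ⌊(c : ℝ) * Real.logb 2 lam⌋ with hh
  have f1 := Int.floor_le ((c : ℝ) * Real.logb 2 lam)
  have f2 := Int.lt_floor_add_one ((c : ℝ) * Real.logb 2 lam)
  rw [← hh] at f1 f2
  have h1 : |Real.logb 2 lam - (h : ℝ) / c| ≤ 1 / c := by
    have e1 : Real.logb 2 lam - (h : ℝ) / c = ((c : ℝ) * Real.logb 2 lam - h) / c := by
      field_simp
    rw [e1, abs_div, abs_of_pos hc0]
    refine div_le_div_of_nonneg_right ?_ hc0.le
    rw [abs_le]
    constructor <;> linarith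
  have hhabs : (h.natAbs : ℝ) ≤ c * a + 1 := by
    have e1 : (h.natAbs : ℝ) = |(h : ℝ)| := by
      rw [← Int.cast_natCast, Int.natCast_natAbs, Int.cast_abs]
    rw [e1]
    have e2 : |(c : ℝ) * Real.logb 2 lam| = c * a := by rw [abs_mul, abs_of_pos hc0]
    have e3 := abs_le.1 (le_of_eq e2)
    rw [abs_le]
    constructor <;> linarith [e3.1, e3.2]
  have hm : (2 : ℝ) ^ ((h : ℝ) / c) ≤ lam := by
    have e1 : (h : ℝ) / c ≤ Real.logb 2 lam := by
      rw [div_le_iff₀ hc0]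
      linarith
    calc (2 : ℝ) ^ ((h : ℝ) / c) ≤ (2 : ℝ) ^ Real.logb 2 lam :=
          Real.rpow_le_rpow_of_exponent_le (by norm_num) e1
      _ = lam := Real.rpow_logb (by norm_num) (by norm_num) hlam
  set kap : ℕ := ⌈b + a + 4⌉₊ with hkap
  have hk1 : b + a + 4 ≤ (kap : ℝ) := Nat.le_ceil _
  have hk2 : (kap : ℝ) < b + a + 5 := by
    have := Nat.ceil_lt_add_one (a := b + a + 4) (by positivity)
    linarith
  have hq1 : lam * (1 / 2 : ℝ) ^ kap ≤ eps / 16 := by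
    have e1 : (2 : ℝ) ^ (b + a + 4) ≤ (2 : ℝ) ^ kap := by
      rw [← Real.rpow_natCast]
      exact Real.rpow_le_rpow_of_exponent_le (by norm_num) hk1
    have e2 : (2 : ℝ) ^ (b + a + 4) = 1 / eps * (2 : ℝ) ^ a * 16 := by
      rw [Real.rpow_add (by norm_num), Real.rpow_add (by norm_num), hb,
        Real.rpow_logb (by norm_num) (by norm_num) (by positivity)]
      norm_num
    have e3 : lam ≤ (2 : ℝ) ^ a := by
      calc lam = (2 : ℝ) ^ Real.logb 2 lam :=
            (Real.rpow_logb (by norm_num) (by norm_num) hlam).symm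
        _ ≤ (2 : ℝ) ^ a := Real.rpow_le_rpow_of_exponent_le (by norm_num) (le_abs_self _)
    have e4 : 1 / eps * lam * 16 ≤ (2 : ℝ) ^ kap := by
      refine le_trans ?_ e1
      rw [e2]
      have : 0 < 1 / eps := by positivity
      gcongr
    have e5 : lam * (1 / 2 : ℝ) ^ kap = lam / 2 ^ kap := by
      rw [one_div, inv_pow]
      rfl
    rw [e5, div_le_iff₀ (by positivity)]
    have e6 : eps / 16 * (1 / eps * lam * 16) = lam := by
      field_simp
    calc lam = eps / 16 * (1 / eps * lam * 16) := e6.symm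
      _ ≤ eps / 16 * 2 ^ kap := mul_le_mul_of_nonneg_left e4 (by positivity)
  set G : ℕ := c * kap * D + h.natAbs + 1 with hG
  have hG1 : (1 : ℝ) ≤ G := by
    have : 1 ≤ G := by omega
    exact_mod_cast this
  have hGc : (G : ℝ) / c ≤ (D + 1) * (b + a + 5) := by
    rw [div_le_iff₀ hc0]
    have e1 : (G : ℝ) = c * kap * D + h.natAbs + 1 := by
      rw [hG]
      push_cast
      ring
    have e2 : (c : ℝ) * kap * D ≤ c * (b + a + 5) * D := by
      have hD : (0 : ℝ) ≤ D := Nat.cast_nonneg D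
      have := mul_le_mul_of_nonneg_left hk2.le (mul_nonneg hc0.le hD)
      nlinarith
    rw [e1]
    nlinarith
  set L0 : ℕ := ⌈960 * (G : ℝ) ^ 2 / (c * eps)⌉₊ with hL0
  have hL1 : 960 * (G : ℝ) ^ 2 / (c * eps) ≤ L0 := Nat.le_ceil _
  have hL2 : (L0 : ℝ) < 960 * (G : ℝ) ^ 2 / (c * eps) + 1 := Nat.ceil_lt_add_one (by positivity)
  have hL0p : (0 : ℝ) < L0 := lt_of_lt_of_le (by positivity) hL1
  set T : ℕ := ⌈78 * (G : ℝ) / (c * eps)⌉₊ with hT
  have hT1 : 78 * (G : ℝ) / (c * eps) ≤ T := Nat.le_ceil _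
  have hT2 : (T : ℝ) < 78 * (G : ℝ) / (c * eps) + 1 := Nat.ceil_lt_add_one (by positivity)
  have hTp : (0 : ℝ) < T := lt_of_lt_of_le (by positivity) hT1
  set mu : ℕ := 2 * Nat.size ⌈6 / eps⌉₊ + 3 with hmu
  have hmu1 : (mu : ℝ) ≤ 2 * b + 11 := size_le heps heps1
  obtain ⟨s, hs⟩ := exists_nat_gt (6 * T * (G ^ 2 + (c * mu + G + 1)) / (c * L0 * eps))
  have hsp : (0 : ℝ) < s := lt_of_le_of_lt (by positivity) hs
  have hsp' : 0 < s := by exact_mod_cast hsp
  have hGp : 0 < G := by omega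
  have hL0p' : 0 < L0 := by exact_mod_cast hL0p
  refine ⟨c, s * L0, mu, s, 80 * s * G, T, kap, G, h, hc', Nat.mul_pos hsp' hL0p',
    by exact_mod_cast hTp, hsp', by positivity, le_rfl, by omega, h1, ?_, ?_, ?_⟩
  · have b1 : (1 + (c : ℝ) * (Real.logb 2 ((2 : ℝ) ^ mu + 1) / 2 ^ mu)) / c ≤ 1 / c + eps / 6 := by
      have hq' : 0 < ⌈6 / eps⌉₊ := Nat.ceil_pos.2 (by positivity)
      have hq0 : (0 : ℝ) < ⌈6 / eps⌉₊ := by exact_mod_cast hq'
      have e1 := Core.CA.log_small hq'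
      rw [← hmu] at e1
      have e2 : (1 : ℝ) / ⌈6 / eps⌉₊ ≤ eps / 6 := by
        rw [div_le_iff₀ hq0]
        have e3 : 6 / eps ≤ (⌈6 / eps⌉₊ : ℝ) := Nat.le_ceil _
        have e4 : eps / 6 * (6 / eps) = 1 := by field_simp
        calc (1 : ℝ) = eps / 6 * (6 / eps) := e4.symm
          _ ≤ _ := mul_le_mul_of_nonneg_left e3 (by positivity)
      have e3 : (1 + (c : ℝ) * (Real.logb 2 ((2 : ℝ) ^ mu + 1) / 2 ^ mu)) / c =
          1 / c + Real.logb 2 ((2 : ℝ) ^ mu + 1) / 2 ^ mu := by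
        field_simp
      rw [e3]
      linarith
    have b2 : 2 * ((G : ℝ) * ((80 * s * G : ℕ) : ℝ)) / (c * ((s * L0 : ℕ) : ℝ)) ≤ eps / 6 := by
      push_cast
      rw [div_le_iff₀ (by positivity)]
      rw [div_le_iff₀ (by positivity)] at hL1
      nlinarith [mul_le_mul_of_nonneg_left hL1 hsp.le]
    have b3 : ((s * L0 : ℕ) : ℝ) / (c * s * (T : ℝ) ^ 2) ≤ eps / 6 := by
      push_cast
      rw [div_le_iff₀ (by positivity)]
      have e1 : (L0 : ℝ) ≤ 1014 * (G : ℝ) ^ 2 / (c * eps) := by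
        have e2 : (1 : ℝ) ≤ 54 * (G : ℝ) ^ 2 / (c * eps) := by
          rw [le_div_iff₀ (by positivity)]
          nlinarith
        have e3 : 1014 * (G : ℝ) ^ 2 / (c * eps) = 960 * (G : ℝ) ^ 2 / (c * eps) +
          54 * (G : ℝ) ^ 2 / (c * eps) := by ring
        linarith
      have e4 : (78 * (G : ℝ) / (c * eps)) ^ 2 ≤ (T : ℝ) ^ 2 :=
        pow_le_pow_left₀ (by positivity) hT1 2
      have e5 : 1014 * (G : ℝ) ^ 2 / (c * eps) = eps / 6 * c * (78 * (G : ℝ) / (c * eps)) ^ 2 := by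
        field_simp
        norm_num
      calc (s : ℝ) * L0 ≤ s * (eps / 6 * c * (T : ℝ) ^ 2) := by
            refine mul_le_mul_of_nonneg_left (e1.trans ?_) hsp.le
            rw [e5]
            exact mul_le_mul_of_nonneg_left e4 (by positivity)
        _ = eps / 6 * (c * s * (T : ℝ) ^ 2) := by ring
    have b4 : (T : ℝ) * G ^ 2 / (c * ((s * L0 : ℕ) : ℝ)) +
        T * ((c * mu + G) + 1) / (c * ((s * L0 : ℕ) : ℝ)) ≤ eps / 6 := by
      rw [← add_div]
      push_cast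
      rw [div_le_iff₀ (by positivity)]
      rw [div_lt_iff₀ (by positivity)] at hs
      nlinarith
    have b5 : Real.logb 2 (1 + (2 : ℝ) ^ ((h : ℝ) / c) * (1 / 2) ^ kap) ≤ eps / 6 := by
      have e0 : (0 : ℝ) < (2 : ℝ) ^ ((h : ℝ) / c) := Real.rpow_pos_of_pos (by norm_num) _
      refine (logb_one_add_le (by positivity)).trans ?_
      have e1 : (2 : ℝ) ^ ((h : ℝ) / c) * (1 / 2 : ℝ) ^ kap ≤ lam * (1 / 2 : ℝ) ^ kap :=
        mul_le_mul_of_nonneg_right hm (by positivity)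
      linarith
    have b6 : (1 : ℝ) / c + 2 / c ≤ eps / 6 := by
      rw [← add_div, div_le_iff₀ hc0]
      linarith
    linarith
  · have e1 : 78 * (G : ℝ) / (c * eps) = 78 * ((G : ℝ) / c) / eps := by
      field_simp
    have e2 : 78 * ((G : ℝ) / c) / eps ≤ 78 * ((D + 1) * (b + a + 5)) / eps :=
      div_le_div_of_nonneg_right (mul_le_mul_of_nonneg_left hGc (by norm_num)) heps.le
    have e3 : (2 : ℝ) ≤ 2 * ((D + 1) * (b + a + 5)) / eps := by
      rw [le_div_iff₀ heps]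
      have hD : (0 : ℝ) ≤ D := Nat.cast_nonneg D
      nlinarith [mul_nonneg hD (by linarith : (0 : ℝ) ≤ b + a + 5)]
    have e4 : 80 * ((D : ℝ) + 1) * (b + a + 5) / eps =
      78 * ((D + 1) * (b + a + 5)) / eps + 2 * ((D + 1) * (b + a + 5)) / eps := by ring
    push_cast
    rw [e4]
    linarith
  · have e1 : ((h.natAbs : ℝ) + c * kap * D) / c ≤ a + 1 / 18 + (b + a + 5) * D := by
      rw [div_le_iff₀ hc0]
      have hD : (0 : ℝ) ≤ D := Nat.cast_nonneg D
      have e2 : (c : ℝ) * kap * D ≤ c * (b + a + 5) * D := by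
        have := mul_le_mul_of_nonneg_left hk2.le (mul_nonneg hc0.le hD)
        nlinarith
      nlinarith
    nlinarith

end Pool.Agent.Lib.SubBisL
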