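import Pool.Agent.Lib.SubBisL.Cut

/-!
# Restriction of worlds, locality of the iterates
-/

namespace Pool.Agent.Lib.SubBisL

open Finset Pool.Agent.Lib.SubBisX Pool.Agent.Lib.SubBisX.Reg Pool.Agent.Lib.SubBisX.Core SubBis

/-! ## Averages -/

theorem av_pi {X Y : Type*} [Fintype X] [Fintype Y] {f : X → Y}
    (hf : ∀ h : Y → ℝ, av (fun x => h (f x)) = av h) (k : ℕ) (h : (Fin k → Y) → ℝ) :
    av (fun w : Fin k → X => h (fun j => f (w j))) = av h := by
  induction k with
  | zero =>
    unfold av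
    rw [Fintype.sum_unique, Fintype.sum_unique, Fintype.card_unique, Fintype.card_unique]
    congr 1
    exact congrArg h (Subsingleton.elim _ _)
  | succ k ih =>
    have h1 := av_equiv (Fin.consEquiv fun _ : Fin (k + 1) => X)
      (fun w : Fin (k + 1) → X => h fun j => f (w j))
    have h2 := av_equiv (Fin.consEquiv fun _ : Fin (k + 1) => Y) h
    rw [← h1, ← h2, av_prod, av_prod, ← hf]
    refine congrArg av (funext fun x => ?_)
    refine Eq.trans ?_ (ih fun w => h (Fin.consEquiv (fun _ : Fin (k + 1) => Y) (f x, w)))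
    refine congrArg av (funext fun w => ?_)
    refine congrArg h (funext fun j => ?_)
    refine Fin.cases ?_ (fun i => ?_) j
    · rfl
    · rfl

theorem av_restr {X : Type*} [Fintype X] [Nonempty X] {n k : ℕ} {ι : Fin k → Fin n}
    (hι : Function.Injective ι) (h : (Fin k → X) → ℝ) :
    av (fun w : Fin n → X => h (fun j => w (ι j))) = av h := by
  classical
  have h1 := av_equiv (Equiv.piEquivPiSubtypeProd (fun i => i ∈ Set.range ι) (fun _ : Fin n => X))
    (fun p : ({i // i ∈ Set.range ι} → X) × ({i // i ∉ Set.range ι} → X) =>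
      h fun j => p.1 ⟨ι j, j, rfl⟩)
  rw [av_fst (fun p : {i // i ∈ Set.range ι} → X => h fun j => p ⟨ι j, j, rfl⟩)] at h1
  have h2 := av_equiv ((Equiv.ofInjective ι hι).arrowCongr (Equiv.refl X)).symm h
  rw [← h2]
  refine h1.trans ?_
  refine congrArg av (funext fun w => ?_)
  rfl

/-! ## Restriction -/

/-- the restriction of the randomness at a vertex -/
def resX (m : ℕ) {n k : ℕ} (ι : Fin k → Fin n) : ∀ r, XW m n r → XW m k r
  | 0, x => x
  | r + 1, x => (resX m ι r x.1, fun j => resX m ι r (x.2 (ι j)))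

/-- the restriction of a world -/
def resW (m : ℕ) {n k : ℕ} (ι : Fin k → Fin n) (r : ℕ) (w : Fin n → XW m n r) : Fin k → XW m k r :=
  fun j => resX m ι r (w (ι j))

variable {m n k : ℕ}

theorem av_resX [NeZero m] {ι : Fin k → Fin n} (hι : Function.Injective ι) (r : ℕ)
    (h : XW m k r → ℝ) : av (fun x : XW m n r => h (resX m ι r x)) = av h := by
  induction r with
  | zero => rfl
  | succ r ih =>
    have h1 : av (fun x : XW m n (r + 1) => h (resX m ι (r + 1) x)) =
        av fun a : XW m n r => av fun f : Fin n → XW m n r =>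
          h (resX m ι r a, fun j => resX m ι r (f (ι j))) :=
      av_prod (Ω := XW m n r) (Ω' := Fin n → XW m n r)
        fun p => h (resX m ι r p.1, fun j => resX m ι r (p.2 (ι j)))
    have h2 : av h = av fun a : XW m k r => av fun f : Fin k → XW m k r => h (a, f) :=
      av_prod (Ω := XW m k r) (Ω' := Fin k → XW m k r) h
    rw [h1, h2, ← ih]
    refine congrArg av (funext fun a => ?_)
    rw [av_restr hι fun g : Fin k → XW m n r => h (resX m ι r a, fun j => resX m ι r (g j))]
    exact av_pi ih k fun g => h (resX m ι r a, g)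

theorem av_resW [NeZero m] {ι : Fin k → Fin n} (hι : Function.Injective ι) (r : ℕ)
    (h : (Fin k → XW m k r) → ℝ) : av (fun w : Fin n → XW m n r => h (resW m ι r w)) = av h := by
  have h1 := av_restr (X := XW m n r) hι fun g => h fun j => resX m ι r (g j)
  exact h1.trans (av_pi (av_resX hι r) k h)

theorem base_resX (ι : Fin k → Fin n) (r : ℕ) (x : XW m n r) :
    base m k r (resX m ι r x) = base m n r x := by
  induction r with
  | zero => rfl
  | succ r ih => exact ih x.1

theorem dig_resW (ι : Fin k → Fin n) (r : ℕ) (w : Fin n → XW m n r) (x : Fin k) :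
    dig r (resW m ι r w) x = dig r w (ι x) := base_resX ι r _

theorem low_resW (ι : Fin k → Fin n) (r : ℕ) (w : Fin n → XW m n (r + 1)) :
    low (resW m ι (r + 1) w) = resW m ι r (low w) := rfl

theorem fresh_resW (ι : Fin k → Fin n) (r : ℕ) (w : Fin n → XW m n (r + 1)) (x : Fin k) :
    fresh (resW m ι (r + 1) w) x = resW m ι r (fresh w (ι x)) := rfl

theorem splice_resW {ι : Fin k → Fin n} (hι : StrictMono ι) (r : ℕ) (a b : Fin n → XW m n r)
    (x : Fin k) : splice x (resW m ι r a) (resW m ι r b) = resW m ι r (splice (ι x) a b) := by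
  funext j
  by_cases h : j ≤ x
  · rw [splice_le h]
    show _ = resX m ι r (splice (ι x) a b (ι j))
    rw [splice_le (hι.monotone h)]
    rfl
  · rw [splice_gt h]
    show _ = resX m ι r (splice (ι x) a b (ι j))
    rw [splice_gt fun h' => h (hι.le_iff_le.1 h')]
    rfl

/-! ## Locality -/

/-- the restriction of a system -/
def Sys.comap (s : Sys n) (ι : Fin k → Fin n) : Sys k := ⟨fun a b => s.E (ι a) (ι b), fun v => s.hf (ι v)⟩

/-- the map `ι` covers the ball of radius `d` around `x` -/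
def Cov (s : Sys n) (ι : Fin k → Fin n) : ℕ → Fin k → Prop
  | 0, _ => True
  | d + 1, x => Cov s ι d x ∧ ∀ b, (s.E (ι x) b ∨ s.E b (ι x)) → ∃ y, ι y = b ∧ Cov s ι d y

theorem Cov.mono {s : Sys n} {ι : Fin k → Fin n} {d e : ℕ} {x : Fin k} (h : Cov s ι e x)
    (hde : d ≤ e) : Cov s ι d x := by
  induction e with
  | zero =>
    obtain rfl : d = 0 := by omega
    exact h
  | succ e ih =>
    rcases Nat.lt_or_ge d (e + 1) with h' | h'
    · exact ih h.1 (by omega)
    · obtain rfl : d = e + 1 := by omega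
      exact h

theorem Bef_iff {ι : Fin k → Fin n} (hι : StrictMono ι) {y : Fin n → ℤ} {y' : Fin k → ℤ}
    {x z : Fin k} (hx : y (ι x) = y' x) (hz : y (ι z) = y' z) :
    Bef y (ι x) (ι z) ↔ Bef y' x z := by
  unfold Bef
  rw [hx, hz, hι.lt_iff_lt]

theorem sum_cover {ι : Fin k → Fin n} (hι : StrictMono ι) {f : Fin n → ℤ} {g : Fin k → ℤ}
    (h0 : ∀ b, b ∉ Set.range ι → f b = 0) (h : ∀ z, g z = f (ι z)) : ∑ b, f b = ∑ z, g z := by
  symm
  refine Finset.sum_of_injOn ι hι.injective.injOn (fun _ _ => by simp) ?_ fun z _ => h z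
  intro b _ hb
  refine h0 b fun ⟨z, hz⟩ => hb ⟨z, by simp, hz⟩

theorem g_res (s : Sys n) (K c : ℕ) {ι : Fin k → Fin n} (hι : StrictMono ι) {x : Fin k}
    (u : Fin m) {y : Fin n → ℤ} {y' : Fin k → ℤ} (hx : y (ι x) = y' x)
    (hc : ∀ b, (s.E (ι x) b ∨ s.E b (ι x)) → ∃ z, ι z = b ∧ y (ι z) = y' z) :
    s.g K c (ι x) u y = (s.comap ι).g K c x u y' := by
  classical
  have hz : ∀ z, (s.E (ι x) (ι z) ∨ s.E (ι z) (ι x)) → y (ι z) = y' z := by
    intro z h
    obtain ⟨z', h1, h2⟩ := hc _ h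
    rwa [hι.injective h1] at h2
  unfold Sys.g
  congr 2
  · refine congrArg₂ (· - ·) ?_ ?_
    · refine sum_cover hι (fun b hb => ?_) fun z => ?_
      · rw [if_neg]
        rintro ⟨h, -⟩
        obtain ⟨z, h1, -⟩ := hc b (Or.inl h)
        exact hb ⟨z, h1⟩
      · refine if_congr ?_ rfl rfl
        constructor
        · rintro ⟨h1, h2⟩
          exact ⟨h1, fun h => h2 ((Bef_iff hι hx (hz z (Or.inl h1))).1 h)⟩
        · rintro ⟨h1, h2⟩
          exact ⟨h1, fun h => h2 ((Bef_iff hι hx (hz z (Or.inl h1))).2 h)⟩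
    · refine sum_cover hι (fun b hb => ?_) fun z => ?_
      · rw [if_neg]
        rintro ⟨h, -⟩
        obtain ⟨z, h1, -⟩ := hc b (Or.inr h)
        exact hb ⟨z, h1⟩
      · refine if_congr ?_ rfl rfl
        constructor
        · rintro ⟨h1, h2⟩
          exact ⟨h1, (Bef_iff hι hx (hz z (Or.inr h1))).2 h2⟩
        · rintro ⟨h1, h2⟩
          exact ⟨h1, (Bef_iff hι hx (hz z (Or.inr h1))).1 h2⟩

theorem tm_res (s : Sys n) (K c : ℕ) {ι : Fin k → Fin n} (hι : StrictMono ι) {x : Fin k}
    {U : Fin n → Fin m} {U' : Fin k → Fin m} (hU : U (ι x) = U' x)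
    {y : Fin n → ℤ} {y' : Fin k → ℤ} (hx : y (ι x) = y' x)
    (hc : ∀ b, (s.E (ι x) b ∨ s.E b (ι x)) → ∃ z, ι z = b ∧ y (ι z) = y' z) :
    s.tm K c U y (ι x) = (s.comap ι).tm K c U' y' x := by
  classical
  have hz : ∀ z, (s.E (ι x) (ι z) ∨ s.E (ι z) (ι x)) → y (ι z) = y' z := by
    intro z h
    obtain ⟨z', h1, h2⟩ := hc _ h
    rwa [hι.injective h1] at h2
  unfold Sys.tm
  rw [hU, hx]
  refine congrArg₂ (· - ·) rfl ?_
  refine sum_cover hι (fun b hb => ?_) fun z => ?_
  · rw [if_neg]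
    intro h
    obtain ⟨z, h1, -⟩ := hc b (Or.inl h)
    exact hb ⟨z, h1⟩
  · by_cases h : s.E (ι x) (ι z)
    · have h' : (s.comap ι).E x z := h
      rw [if_pos h, if_pos h', hz z (Or.inl h)]
    · have h' : ¬ (s.comap ι).E x z := h
      rw [if_neg h, if_neg h']

theorem Yit_res (s : Sys n) (K c : ℕ) (M : ℤ) {ι : Fin k → Fin n} (hι : StrictMono ι) (r : ℕ)
    (x : Fin k) (hx : Cov s ι r x) (w : Fin n → XW m n r) :
    Yit M (s.g K c) r w (ι x) = Yit M ((s.comap ι).g K c) r (resW m ι r w) x := by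
  induction r generalizing x with
  | zero => rfl
  | succ r ih =>
    have h1 : Yit M (s.g K c) (r + 1) w (ι x) = clip M (Yit M (s.g K c) r (low w) (ι x) +
      s.g K c (ι x) (base m n r (w (ι x)).1)
        (Yit M (s.g K c) r (splice (ι x) (low w) (fresh w (ι x))))) := rfl
    have h2 : Yit M ((s.comap ι).g K c) (r + 1) (resW m ι (r + 1) w) x =
      clip M (Yit M ((s.comap ι).g K c) r (low (resW m ι (r + 1) w)) x +
      (s.comap ι).g K c x (base m k r (resX m ι r (w (ι x)).1))
        (Yit M ((s.comap ι).g K c) r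
          (splice x (low (resW m ι (r + 1) w)) (fresh (resW m ι (r + 1) w) x)))) := rfl
    rw [h1, h2, low_resW, fresh_resW, splice_resW hι, base_resX, ih x hx.1]
    congr 2
    refine g_res s K c hι _ (ih x hx.1 _) fun b hb => ?_
    obtain ⟨z, hz, hz'⟩ := hx.2 b hb
    exact ⟨z, hz, ih z hz' _⟩

/-- the local value -/
noncomputable def Sys.lv (s : Sys n) (K c M mu T : ℕ) (v : Fin n) : ℝ :=
  ∑ r ∈ range T, av fun w : Fin n → XW (2 ^ mu) n r =>
    (s.tm K c (dig r w) (Yit (M : ℤ) (s.g K c) r w) v : ℝ)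

/-- **Locality**: the local value depends only on the ball of radius `T`. -/
theorem lv_res (s : Sys n) (K c M mu T : ℕ) {ι : Fin k → Fin n} (hι : StrictMono ι)
    (x : Fin k) (hx : Cov s ι T x) :
    s.lv K c M mu T (ι x) = (s.comap ι).lv K c M mu T x := by
  unfold Sys.lv
  refine sum_congr rfl fun r hr => ?_
  have hr' : r + 1 ≤ T := by
    rw [mem_range] at hr
    omega
  have h1 := hx.mono hr'
  rw [← av_resW hι.injective r]
  refine congrArg av (funext fun w => ?_)
  rw [tm_res s K c hι (U' := dig r (resW (2 ^ mu) ι r w))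
    (y' := Yit (M : ℤ) ((s.comap ι).g K c) r (resW (2 ^ mu) ι r w))
    (dig_resW ι r w x).symm (Yit_res s K c M hι r x h1.1 w) fun b hb => ?_]
  obtain ⟨z, hz, hz'⟩ := h1.2 b hb
  exact ⟨z, hz, Yit_res s K c M hι r z hz' w⟩

end Pool.Agent.Lib.SubBisL
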