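import Pool.Agent.Lib.SubBisL.AccL
import Pool.Agent.Lib.SubBisL.Res

/-!
# Restriction of the worlds of the accelerated method, locality
-/

namespace Pool.Agent.Lib.SubBisL

open Finset Pool.Agent.Lib.SubBisX Pool.Agent.Lib.SubBisX.Reg Pool.Agent.Lib.SubBisX.Core SubBis
  Pool.Agent.Lib.SubBisX.Acc

/-- the restriction of the randomness at a vertex -/
def resXA (m s N : ℕ) {n k : ℕ} (ι : Fin k → Fin n) : ∀ r, XA m n s N r → XA m k s N r
  | 0, x => x
  | r + 1, x => (resXA m s N ι r x.1,
      fun i j => (resXA m s N ι r (x.2 i (ι j)).1, (x.2 i (ι j)).2))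

/-- the restriction of a world -/
def resWA (m s N : ℕ) {n k : ℕ} (ι : Fin k → Fin n) (r : ℕ) (w : Fin n → XA m n s N r) :
    Fin k → XA m k s N r := fun j => resXA m s N ι r (w (ι j))

variable {m n k s N : ℕ}

theorem av_resXA [NeZero m] [NeZero N] {ι : Fin k → Fin n} (hι : Function.Injective ι) (r : ℕ)
    (h : XA m k s N r → ℝ) : av (fun x : XA m n s N r => h (resXA m s N ι r x)) = av h := by
  induction r with
  | zero => rfl
  | succ r ih =>
    have h1 : av (fun x : XA m n s N (r + 1) => h (resXA m s N ι (r + 1) x)) =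
        av fun a : XA m n s N r => av fun f : Fin s → Fin n → XA m n s N r × Fin N =>
          h (resXA m s N ι r a, fun i j => (resXA m s N ι r (f i (ι j)).1, (f i (ι j)).2)) :=
      av_prod (Ω := XA m n s N r) (Ω' := Fin s → Fin n → XA m n s N r × Fin N)
        fun p => h (resXA m s N ι r p.1,
          fun i j => (resXA m s N ι r (p.2 i (ι j)).1, (p.2 i (ι j)).2))
    have h2 : av h = av fun a : XA m k s N r => av fun f : Fin s → Fin k → XA m k s N r × Fin N =>
        h (a, f) :=
      av_prod (Ω := XA m k s N r) (Ω' := Fin s → Fin k → XA m k s N r × Fin N) h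
    have h3 : ∀ g : XA m k s N r × Fin N → ℝ,
        av (fun x : XA m n s N r × Fin N => g (resXA m s N ι r x.1, x.2)) = av g := by
      intro g
      rw [av_prod, av_prod]
      exact ih fun a => av fun b => g (a, b)
    have h4 : ∀ g : (Fin k → XA m k s N r × Fin N) → ℝ,
        av (fun f : Fin n → XA m n s N r × Fin N =>
          g fun j => (resXA m s N ι r (f (ι j)).1, (f (ι j)).2)) = av g := by
      intro g
      refine (av_restr hι fun f : Fin k → XA m n s N r × Fin N =>
        g fun j => (resXA m s N ι r (f j).1, (f j).2)).trans ?_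
      exact av_pi (f := fun x : XA m n s N r × Fin N => (resXA m s N ι r x.1, x.2)) h3 k g
    rw [h1, h2, ← ih]
    refine congrArg av (funext fun a => ?_)
    exact av_pi (f := fun f : Fin n → XA m n s N r × Fin N => fun j : Fin k =>
      (resXA m s N ι r (f (ι j)).1, (f (ι j)).2)) h4 s fun g => h (resXA m s N ι r a, g)

theorem av_resWA [NeZero m] [NeZero N] {ι : Fin k → Fin n} (hι : Function.Injective ι) (r : ℕ)
    (h : (Fin k → XA m k s N r) → ℝ) :
    av (fun w : Fin n → XA m n s N r => h (resWA m s N ι r w)) = av h := by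
  have h1 := av_restr (X := XA m n s N r) hι fun g => h fun j => resXA m s N ι r (g j)
  exact h1.trans (av_pi (av_resXA hι r) k h)

theorem base_resXA (ι : Fin k → Fin n) (r : ℕ) (x : XA m n s N r) :
    base m k s N r (resXA m s N ι r x) = base m n s N r x := by
  induction r with
  | zero => rfl
  | succ r ih => exact ih x.1

theorem dig_resWA (ι : Fin k → Fin n) (r : ℕ) (w : Fin n → XA m n s N r) (x : Fin k) :
    dig r (resWA m s N ι r w) x = dig r w (ι x) := base_resXA ι r _

theorem low_resWA (ι : Fin k → Fin n) (r : ℕ) (w : Fin n → XA m n s N (r + 1)) :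
    low (resWA m s N ι (r + 1) w) = resWA m s N ι r (low w) := rfl

theorem wd_resWA (ι : Fin k → Fin n) (r : ℕ) (w : Fin n → XA m n s N (r + 1)) (x : Fin k)
    (i : Fin s) :
    wd (smp (resWA m s N ι (r + 1) w) x i) = resWA m s N ι r (wd (smp w (ι x) i)) := rfl

theorem nz_resWA (ι : Fin k → Fin n) (r : ℕ) (w : Fin n → XA m n s N (r + 1)) (x z : Fin k)
    (i : Fin s) :
    nz (smp (resWA m s N ι (r + 1) w) x i) z = nz (smp w (ι x) i) (ι z) := rfl

theorem splice_resWA {ι : Fin k → Fin n} (hι : StrictMono ι) (r : ℕ)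
    (a b : Fin n → XA m n s N r) (x : Fin k) :
    splice x (resWA m s N ι r a) (resWA m s N ι r b) = resWA m s N ι r (splice (ι x) a b) := by
  funext j
  by_cases h : j ≤ x
  · rw [splice_le h]
    show _ = resXA m s N ι r (splice (ι x) a b (ι j))
    rw [splice_le (hι.monotone h)]
    rfl
  · rw [splice_gt h]
    show _ = resXA m s N ι r (splice (ι x) a b (ι j))
    rw [splice_gt fun h' => h (hι.le_iff_le.1 h')]
    rfl

theorem qy_congr {r : ℕ} {p : (Fin n → ℤ) × (Fin n → ℤ)} {p' : (Fin k → ℤ) × (Fin k → ℤ)}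
    {a : Fin n} {b : Fin k} (h1 : p.1 a = p'.1 b) (h2 : p.2 a = p'.2 b) :
    qy r p a = qy r p' b := by
  unfold qy
  rw [h1, h2]

theorem St_res (s' : Sys n) (K c : ℕ) (M : ℤ) {ι : Fin k → Fin n} (hι : StrictMono ι) (r : ℕ)
    (x : Fin k) (hx : Cov s' ι r x) (w : Fin n → XA m n s N r) :
    (St M (s'.g K c) r w).1 (ι x) = (St M ((s'.comap ι).g K c) r (resWA m s N ι r w)).1 x ∧
      (St M (s'.g K c) r w).2 (ι x) = (St M ((s'.comap ι).g K c) r (resWA m s N ι r w)).2 x := by
  induction r generalizing x with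
  | zero => exact ⟨rfl, rfl⟩
  | succ r ih =>
    have h0 := ih x hx.1 (low w)
    have hsg : ∀ i : Fin s, sg (s'.g K c) (St M (s'.g K c) r) (ι x) (low w) (smp w (ι x) i) =
        sg ((s'.comap ι).g K c) (St M ((s'.comap ι).g K c) r) x (low (resWA m s N ι (r + 1) w))
          (smp (resWA m s N ι (r + 1) w) x i) := by
      intro i
      unfold sg
      rw [low_resWA, wd_resWA, splice_resWA hι]
      have hb : base m k s N r (resWA m s N ι r (low w) x) = base m n s N r (low w (ι x)) :=
        base_resXA ι r _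
      rw [hb]
      have hq : ∀ z : Fin k, Cov s' ι r z →
          qy r (St M (s'.g K c) r (splice (ι x) (low w) (wd (smp w (ι x) i)))) (ι z) +
            nz (smp w (ι x) i) (ι z) =
          qy r (St M ((s'.comap ι).g K c) r
            (resWA m s N ι r (splice (ι x) (low w) (wd (smp w (ι x) i))))) z +
            nz (smp (resWA m s N ι (r + 1) w) x i) z := by
        intro z hz
        obtain ⟨h1, h2⟩ := ih z hz (splice (ι x) (low w) (wd (smp w (ι x) i)))
        rw [qy_congr h1 h2]
        rfl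
      refine g_res s' K c hι _ (hq x hx.1) fun b hb => ?_
      obtain ⟨z, hz, hz'⟩ := hx.2 b hb
      exact ⟨z, hz, hq z hz'⟩
    have h1 : (St M (s'.g K c) (r + 1) w).1 (ι x) =
        (St M ((s'.comap ι).g K c) (r + 1) (resWA m s N ι (r + 1) w)).1 x := by
      rw [St_succ_fst, St_succ_fst, low_resWA, h0.1, Finset.sum_congr rfl fun i _ => hsg i]
      rfl
    refine ⟨h1, ?_⟩
    rw [St_succ_snd, St_succ_snd, low_resWA, h0.2, h1]

theorem xo_res (s' : Sys n) (K c : ℕ) (M : ℤ) {ι : Fin k → Fin n} (hι : StrictMono ι) (r : ℕ)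
    (x : Fin k) (hx : Cov s' ι r x) (w : Fin n → XA m n s N r) :
    xo M (s'.g K c) r w (ι x) = xo M ((s'.comap ι).g K c) r (resWA m s N ι r w) x := by
  unfold xo
  rw [(St_res s' K c M hι r x hx w).2]

/-- the local value of the accelerated method -/
noncomputable def Sys.lvA (s' : Sys n) (K c M mu s N T : ℕ) (v : Fin n) : ℝ :=
  av fun w : Fin n → XA (2 ^ mu) n s N T =>
    (s'.tm K c (dig T w) (xo (M : ℤ) (s'.g K c) T w) v : ℝ)

/-- **Locality**: the local value depends only on the ball of radius `T + 1`. -/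
theorem lvA_res (s' : Sys n) (K c M mu s N T : ℕ) [NeZero N] {ι : Fin k → Fin n}
    (hι : StrictMono ι) (x : Fin k) (hx : Cov s' ι (T + 1) x) :
    s'.lvA K c M mu s N T (ι x) = (s'.comap ι).lvA K c M mu s N T x := by
  unfold Sys.lvA
  rw [← av_resWA hι.injective T]
  refine congrArg av (funext fun w => ?_)
  rw [tm_res s' K c hι (U' := dig T (resWA (2 ^ mu) s N ι T w))
    (y' := xo (M : ℤ) ((s'.comap ι).g K c) T (resWA (2 ^ mu) s N ι T w))
    (dig_resWA ι T w x).symm (xo_res s' K c M hι T x hx.1 w) fun b hb => ?_]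
  obtain ⟨z, hz, hz'⟩ := hx.2 b hb
  exact ⟨z, hz, xo_res s' K c M hι T z hz' w⟩

end Pool.Agent.Lib.SubBisL
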