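import Pool.Agent.Lib.SubBisL.LocGen
import Pool.Agent.Lib.SubBisL.LocPar
import Pool.Agent.Lib.SubBisL.ResA

/-!
# Locality of the hard-core free energy of bipartite graphs
-/

namespace Pool.Agent.Lib.SubBisL

open Finset Pool.Agent.Lib.SubBisX Pool.Agent.Lib.SubBisX.Reg Pool.Agent.Lib.SubBisX.Acc

/-- The functional of the accelerated method. -/
noncomputable def LA (K c M mu s N T : ℕ) : Func := fun _ s' v =>
  s'.lvA K c M mu s N T v / (c * M)

theorem LA_loc (K c M mu s N T : ℕ) [NeZero N] : (LA K c M mu s N T).Loc (T + 1) := by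
  intro n k s' ι hι x hx
  unfold LA
  rw [lvA_res s' K c M mu s N T hι x hx]

open Classical in
theorem LA_sum {c M mu s N T kap D H G : ℕ} (hc : 0 < c) (hM : 0 < M) (hT : 0 < T) (hs : 0 < s)
    (hN : 0 < N) (hNG : 80 * s * G ≤ N) (hG : c * kap * D + H ≤ G) (n : ℕ) (s' : Sys n)
    (ha : Adm s' D H) :
    |∑ v, LA (c * kap) c M mu s N T n s' v - logZL c (s'.F (c * kap))| ≤
      n * ((1 + c * (Real.logb 2 ((2 : ℝ) ^ mu + 1) / 2 ^ mu)) / c + 2 * (G * N) / (c * M) +
        M / (c * s * T ^ 2) + T * G ^ 2 / (c * M) + T * ((c * mu + G) + 1) / (c * M)) := by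
  have h := coreAL (mu := mu) (G := G) (F := s'.F (c * kap)) hc hM hT hs hN hNG
    (s'.F_empty _) (s'.subm _)
    (fun S v => (s'.marg_le (c * kap) ha.irr (D := D) (H := H) (fun v => by
      have := ha.deg v
      rw [Nat.card_eq_fintype_card, Nat.card_eq_fintype_card, Fintype.card_subtype,
        Fintype.card_subtype] at this
      exact this) ha.hf S v).trans (by exact_mod_cast hG))
  rw [s'.grL_eq (c * kap) c ha.irr] at h
  have e1 : (av fun w : Fin n → XA (2 ^ mu) n s N T =>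
      (PhiL c M (s'.F (c * kap)) (dig T w) (xo (M : ℤ) (s'.g (c * kap) c) T w) : ℝ)) / (c * M) =
      ∑ v, LA (c * kap) c M mu s N T n s' v := by
    unfold LA Sys.lvA
    rw [← sum_div, ← av_sum]
    congr 1
    refine congrArg av (funext fun w => ?_)
    rw [s'.PhiL_eq (c * kap) c M _ (fun v => (xo_mem (Int.natCast_nonneg M) T w v).1)
      (fun v => (xo_mem (Int.natCast_nonneg M) T w v).2)]
    push_cast
    rfl
  rw [e1] at h
  exact h

theorem LA_le {c M mu s N T kap D H : ℕ} [NeZero N] (hc : 0 < c) (hM : 0 < M) (n : ℕ)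
    (s' : Sys n) (ha : Adm s' D H) (v : Fin n) :
    |LA (c * kap) c M mu s N T n s' v| ≤ mu + (H + c * kap * D) / c := by
  have hc' : (0 : ℝ) < c := by exact_mod_cast hc
  have hM' : (0 : ℝ) < M := by exact_mod_cast hM
  unfold LA Sys.lvA
  have h1 : ∀ w : Fin n → XA (2 ^ mu) n s N T,
      |(s'.tm (c * kap) c (dig T w) (xo (M : ℤ) (s'.g (c * kap) c) T w) v : ℝ) - 0| ≤
        (c * mu + H + (c * kap : ℕ) * D) * M := by
    intro w
    rw [sub_zero]
    have h2 := tm_le s' (K := c * kap) (c := c) (M := M) ha (dig T w)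
      (y := xo (M : ℤ) (s'.g (c * kap) c) T w)
      (fun v => (xo_mem (Int.natCast_nonneg M) T w v).1)
      (fun v => (xo_mem (Int.natCast_nonneg M) T w v).2) v
    exact_mod_cast h2
  have h3 := avF_near h1
  rw [sub_zero, avF_eq] at h3
  rw [abs_div, abs_of_pos (by positivity : (0 : ℝ) < c * M), div_le_iff₀ (by positivity)]
  refine h3.trans (le_of_eq ?_)
  push_cast
  field_simp
  ring

/-- **Locality, with an explicit radius.** -/
theorem locality_radius (D : ℕ) {lam eps : ℝ} (hlam : 0 < lam) (heps : 0 < eps)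
    (heps1 : eps ≤ 1) :
    ∃ (r : ℕ) (φ : RootFun),
      (r : ℝ) ≤ 80 * (D + 1) * (Real.logb 2 (1 / eps) + |Real.logb 2 lam| + 5) / eps ∧
      φ.Invariant ∧
      (∀ (W : Type) (H : SimpleGraph W) (o : W),
        |φ W H o| ≤ (D + 3) * (Real.logb 2 (1 / eps) + |Real.logb 2 lam| + 5)) ∧
      ∀ (V : Type) [Fintype V] (G : SimpleGraph V), G.Colorable 2 → DegLe G D →
        |Real.logb 2 (ZZ G lam) - ∑ v, φ.at G r v| ≤ eps * Fintype.card V := by
  obtain ⟨c, M, mu, s, N, T, kap, G, h, hc, hM, hT, hs, hN, hNG, hG, hh, herr, hr, hb⟩ :=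
    exists_parA D hlam heps heps1
  haveI : NeZero N := ⟨hN.ne'⟩
  obtain ⟨φ, h1, h2, h3⟩ := exists_phi (D := D) (LA_loc (c * kap) c M mu s N T) hc h
    (B := mu + (h.natAbs + c * kap * D) / c) (by positivity)
    (fun n s' ha => LA_sum hc hM hT hs hN hNG hG n s' ha)
    (fun n s' ha v => LA_le hc hM n s' ha v) hlam hh
  refine ⟨T + 1, φ, hr, h1, fun W H o => (h2 W H o).trans hb, fun V _ G' hG' hD => ?_⟩
  exact (h3 V G' hG' hD).trans (mul_le_mul_of_nonneg_right herr (Nat.cast_nonneg _))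

/-- **Locality.** -/
theorem locality (D : ℕ) {lam eps : ℝ} (hlam : 0 < lam) (heps : 0 < eps) :
    ∃ (r : ℕ) (φ : RootFun) (C : ℝ), φ.Invariant ∧
      (∀ (W : Type) (H : SimpleGraph W) (o : W), |φ W H o| ≤ C) ∧
      ∀ (V : Type) [Fintype V] (G : SimpleGraph V), G.Colorable 2 → DegLe G D →
        |Real.logb 2 (ZZ G lam) - ∑ v, φ.at G r v| ≤ eps * Fintype.card V := by
  obtain ⟨r, φ, -, h1, h2, h3⟩ := locality_radius D hlam (eps := min eps 1)
    (lt_min heps one_pos) (min_le_right _ _)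
  refine ⟨r, φ, _, h1, h2, fun V _ G hG hD => (h3 V G hG hD).trans ?_⟩
  exact mul_le_mul_of_nonneg_right (min_le_left _ _) (Nat.cast_nonneg _)

end Pool.Agent.Lib.SubBisL
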