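import Pool.Agent.Lib.SubBisL.Res

/-!
# The order induced on a subset by a uniformly random order
-/

namespace Pool.Agent.Lib.SubBisL

open Finset Pool.Agent.Lib.SubBisX.Reg

/-! ## Averages without instances -/

open Classical in
/-- the average over a finite type (`0` if it is infinite) -/
noncomputable def avF {Ω : Type*} (f : Ω → ℝ) : ℝ :=
  if h : Nonempty (Fintype Ω) then @av Ω h.some f else 0

theorem avF_eq {Ω : Type*} [Fintype Ω] (f : Ω → ℝ) : avF f = av f := by
  unfold avF
  have h : Nonempty (Fintype Ω) := ⟨inferInstance⟩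
  rw [dif_pos h]
  congr 1
  exact Subsingleton.elim _ _

theorem avF_equiv {Ω Ω' : Type*} (e : Ω ≃ Ω') (f : Ω' → ℝ) : avF (fun w => f (e w)) = avF f := by
  by_cases h : Nonempty (Fintype Ω)
  · obtain ⟨i⟩ := h
    letI : Fintype Ω := i
    letI : Fintype Ω' := Fintype.ofEquiv Ω e
    rw [avF_eq, avF_eq, av_equiv]
  · have h' : ¬ Nonempty (Fintype Ω') := fun ⟨i⟩ => h ⟨@Fintype.ofEquiv Ω Ω' i e.symm⟩
    unfold avF
    rw [dif_neg h, dif_neg h']

/-! ## The induced order -/

section order

variable {V : Type} {n k : ℕ}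

open Classical in
/-- the positions of the elements of `W` -/
noncomputable def pos (W : Set V) (σ : Fin n ≃ V) : Finset (Fin n) := univ.filter fun a => σ a ∈ W

theorem mem_pos {W : Set V} {σ : Fin n ≃ V} {a : Fin n} : a ∈ pos W σ ↔ σ a ∈ W := by
  classical
  unfold pos
  simp

theorem card_pos {W : Set V} (hk : Nat.card W = k) (σ : Fin n ≃ V) : (pos W σ).card = k := by
  classical
  rw [← hk, Nat.card_coe_set_eq]
  have h1 : W = σ '' (pos W σ : Set (Fin n)) := by
    ext w
    constructor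
    · intro hw
      exact ⟨σ.symm w, by rw [mem_coe, mem_pos, Equiv.apply_symm_apply]; exact hw, by simp⟩
    · rintro ⟨a, ha, rfl⟩
      exact mem_pos.1 ha
  conv_rhs => rw [h1]
  rw [Set.ncard_image_of_injective _ σ.injective, Set.ncard_coe_finset]

/-- the increasing enumeration of the positions -/
noncomputable def iot {W : Set V} (hk : Nat.card W = k) (σ : Fin n ≃ V) : Fin k ↪o Fin n :=
  (pos W σ).orderEmbOfFin (card_pos hk σ)

theorem iot_mem {W : Set V} (hk : Nat.card W = k) (σ : Fin n ≃ V) (j : Fin k) :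
    σ (iot hk σ j) ∈ W := mem_pos.1 (Finset.orderEmbOfFin_mem _ _ j)

theorem exists_iot {W : Set V} (hk : Nat.card W = k) (σ : Fin n ≃ V) {w : V} (hw : w ∈ W) :
    ∃ j, σ (iot hk σ j) = w := by
  have h1 : σ.symm w ∈ Set.range (iot hk σ) := by
    unfold iot
    rw [Finset.range_orderEmbOfFin, mem_coe, mem_pos, Equiv.apply_symm_apply]
    exact hw
  obtain ⟨j, hj⟩ := h1
  exact ⟨j, by rw [hj, Equiv.apply_symm_apply]⟩

/-- the enumeration of `W` in the order of `σ` -/
noncomputable def tau {W : Set V} (hk : Nat.card W = k) (σ : Fin n ≃ V) : Fin k ≃ W :=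
  Equiv.ofBijective (fun j => (⟨σ (iot hk σ j), iot_mem hk σ j⟩ : W)) (by
    constructor
    · intro i j hij
      exact (iot hk σ).injective (σ.injective (congrArg Subtype.val hij))
    · rintro ⟨w, hw⟩
      obtain ⟨j, hj⟩ := exists_iot hk σ hw
      exact ⟨j, Subtype.ext hj⟩)

theorem tau_apply {W : Set V} (hk : Nat.card W = k) (σ : Fin n ≃ V) (j : Fin k) :
    (tau hk σ j : V) = σ (iot hk σ j) := rfl

open Classical in
theorem tau_trans {W : Set V} (hk : Nat.card W = k) (σ : Fin n ≃ V) (π : Equiv.Perm W) :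
    tau hk (σ.trans (Equiv.Perm.ofSubtype π)) = (tau hk σ).trans π := by
  have hpos : pos W (σ.trans (Equiv.Perm.ofSubtype π)) = pos W σ := by
    ext a
    rw [mem_pos, mem_pos]
    show Equiv.Perm.ofSubtype π (σ a) ∈ W ↔ σ a ∈ W
    exact Equiv.Perm.ofSubtype_apply_mem_iff_mem π (σ a)
  have hiot : iot hk (σ.trans (Equiv.Perm.ofSubtype π)) = iot hk σ := by
    unfold iot
    congr 1
  refine Equiv.ext fun j => Subtype.ext ?_
  rw [tau_apply, hiot]
  show Equiv.Perm.ofSubtype π (σ (iot hk σ j)) = (π (tau hk σ j) : V)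
  rw [Equiv.Perm.ofSubtype_apply_of_mem π (iot_mem hk σ j)]
  rfl

/-- The induced order is uniform. -/
theorem av_tau {W : Set V} [Fintype V] (hk : Nat.card W = k) (σ₀ : Fin n ≃ V)
    (f : (Fin k ≃ W) → ℝ) : avF (fun σ : Fin n ≃ V => f (tau hk σ)) = avF f := by
  classical
  have h1 : ∀ π : Equiv.Perm W, avF (fun σ : Fin n ≃ V => f ((tau hk σ).trans π)) =
      avF fun σ : Fin n ≃ V => f (tau hk σ) := by
    intro π
    have h := avF_equiv (Equiv.equivCongr (Equiv.refl (Fin n)) (Equiv.Perm.ofSubtype π))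
      (fun σ : Fin n ≃ V => f (tau hk σ))
    rw [← h]
    refine congrArg avF (funext fun σ => ?_)
    rw [← tau_trans]
    rfl
  haveI : Nonempty (Fin n ≃ V) := ⟨σ₀⟩
  haveI : Nonempty (Equiv.Perm W) := ⟨1⟩
  simp only [avF_eq] at h1 ⊢
  calc av (fun σ : Fin n ≃ V => f (tau hk σ))
      = av fun π : Equiv.Perm W => av fun σ : Fin n ≃ V => f ((tau hk σ).trans π) := by
        rw [show (fun π : Equiv.Perm W => av fun σ : Fin n ≃ V => f ((tau hk σ).trans π)) =
          fun _ => av fun σ : Fin n ≃ V => f (tau hk σ) from funext h1, av_const]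
    _ = av fun σ : Fin n ≃ V => av fun π : Equiv.Perm W => f ((tau hk σ).trans π) := av_comm _
    _ = av fun _ : Fin n ≃ V => av f := by
        refine congrArg av (funext fun σ => ?_)
        exact av_equiv (Equiv.equivCongr (tau hk σ).symm (Equiv.refl W)) f
    _ = av f := av_const _

end order

end Pool.Agent.Lib.SubBisL
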