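import Mathlib

/-!
# The parameters of the lower bound for the radius
-/

set_option autoImplicit false

namespace Pool.Agent.Lib.SubBisL.SharpPar

lemma log_three_halves : (0.58 : ℝ) ≤ Real.logb 2 (3 / 2) := by
  rw [Real.le_logb_iff_rpow_le (by norm_num) (by norm_num)]
  -- 2 ^ 0.58 ≤ 3/2, that is 2 ^ 29 ≤ (3/2) ^ 50
  have h : ((2 : ℝ) ^ (0.58 : ℝ)) ^ (50 : ℕ) ≤ (3 / 2 : ℝ) ^ (50 : ℕ) := by
    rw [← Real.rpow_natCast, ← Real.rpow_mul (by norm_num)]
    have : (0.58 : ℝ) * ((50 : ℕ) : ℝ) = ((29 : ℕ) : ℝ) := by norm_num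
    rw [this, Real.rpow_natCast]
    norm_num
  exact le_of_pow_le_pow_left₀ (by norm_num) (by norm_num) h

lemma log_500 : (8.9 : ℝ) ≤ Real.logb 2 500 := by
  rw [Real.le_logb_iff_rpow_le (by norm_num) (by norm_num)]
  have h : ((2 : ℝ) ^ (8.9 : ℝ)) ^ (10 : ℕ) ≤ (500 : ℝ) ^ (10 : ℕ) := by
    rw [← Real.rpow_natCast, ← Real.rpow_mul (by norm_num)]
    have : (8.9 : ℝ) * ((10 : ℕ) : ℝ) = ((89 : ℕ) : ℝ) := by norm_num
    rw [this, Real.rpow_natCast]
    norm_num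
  exact le_of_pow_le_pow_left₀ (by norm_num) (by norm_num) h

/-- the parameters -/
lemma pars (ε : ℝ) (hε : 0 < ε) (hε1 : ε ≤ 1 / 500) (r : ℕ)
    (hr : (r : ℝ) ≤ 1 / (100 * (ε * Real.logb 2 (1 / ε)))) :
    ∃ R L s : ℕ, r ≤ R ∧ 2 * (R + 1) < L ∧ Even L ∧ 9 * L ^ 2 + 1 ≤ 2 ^ s ∧
      ((2 * s : ℕ) : ℝ) ≤ 4 * Real.logb 2 (1 / ε) ∧ ε * (L * s) < 0.145 := by
  have hl : (8.9 : ℝ) ≤ Real.logb 2 (1 / ε) := by
    refine log_500.trans (Real.logb_le_logb_of_le (by norm_num) (by norm_num) ?_)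
    rw [le_div_iff₀ hε]
    linarith
  set l : ℝ := Real.logb 2 (1 / ε) with hldef
  rcases Nat.lt_or_ge r 2 with h | h
  · refine ⟨1, 6, 10, by omega, by omega, ⟨3, rfl⟩, by norm_num, ?_, ?_⟩
    · push_cast
      linarith
    · push_cast
      linarith
  · set s : ℕ := 2 * Nat.clog 2 (2 * r + 4) + 4 with hs
    have hr' : (2 : ℝ) ≤ r := by exact_mod_cast h
    have hrε : ε * l * r ≤ 1 / 100 := by
      have : (0 : ℝ) < 100 * (ε * l) := by positivity
      rw [le_div_iff₀ this] at hr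
      linarith
    have hL4 : (((2 * r + 4 : ℕ)) : ℝ) ≤ 4 * r := by
      push_cast
      linarith
    -- 2 ^ clog L ≤ 2 L ≤ 8 r
    have hclog : (2 : ℝ) ^ (Nat.clog 2 (2 * r + 4)) ≤ 8 * r := by
      have h1 : 2 ^ (Nat.clog 2 (2 * r + 4) - 1) < 2 * r + 4 := by
        have h2 : 1 < 2 := by norm_num
        have h3 : 1 < 2 * r + 4 := by omega
        exact Nat.pow_pred_clog_lt_self h2 h3
      have hpos : 0 < Nat.clog 2 (2 * r + 4) := by
        have h2 : 1 < 2 := by norm_num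
        have h3 : 1 < 2 * r + 4 := by omega
        exact Nat.clog_pos h2 h3
      have h2 : (2 : ℝ) ^ (Nat.clog 2 (2 * r + 4)) =
          2 * 2 ^ (Nat.clog 2 (2 * r + 4) - 1) := by
        rw [← pow_succ', Nat.sub_add_cancel hpos]
      have h3 : ((2 : ℝ) ^ (Nat.clog 2 (2 * r + 4) - 1)) ≤ ((2 * r + 4 : ℕ) : ℝ) := by
        exact_mod_cast h1.le
      rw [h2]
      linarith
    -- s ≤ 2 l
    have hs2 : (s : ℝ) ≤ 2 * l := by
      have h1 : ((Nat.clog 2 (2 * r + 4) : ℕ) : ℝ) ≤ l - 2 := by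
        have h2 : (2 : ℝ) ^ ((Nat.clog 2 (2 * r + 4) : ℕ) : ℝ) ≤ 2 ^ (l - 2) := by
          rw [Real.rpow_natCast, Real.rpow_sub (by norm_num), hldef,
            Real.rpow_logb (by norm_num) (by norm_num) (by positivity)]
          refine hclog.trans ?_
          rw [le_div_iff₀ (by norm_num), le_div_iff₀ hε]
          have h4 : (2 : ℝ) ^ (2 : ℝ) = 4 := by norm_num
          rw [h4]
          have h5 : ε * r * 8.9 ≤ 1 / 100 := by
            refine le_trans ?_ hrε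
            have : 0 ≤ ε * r := by positivity
            nlinarith
          linarith
        exact (Real.rpow_le_rpow_left_iff (by norm_num)).mp h2
      rw [hs]
      push_cast
      linarith
    refine ⟨r, 2 * r + 4, s, le_rfl, by omega, ⟨r + 2, by ring⟩, ?_, ?_, ?_⟩
    · have h1 : 2 * r + 4 ≤ 2 ^ (Nat.clog 2 (2 * r + 4)) := Nat.le_pow_clog (by norm_num) _
      have h2 : 2 ^ s = 16 * (2 ^ (Nat.clog 2 (2 * r + 4))) ^ 2 := by
        rw [hs, pow_add, pow_mul']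
        ring
      rw [h2]
      have h3 : (2 * r + 4) ^ 2 ≤ (2 ^ (Nat.clog 2 (2 * r + 4))) ^ 2 := Nat.pow_le_pow_left h1 2
      have h4 : 0 < (2 * r + 4) ^ 2 := by positivity
      omega
    · push_cast
      linarith
    · have h1 : ε * (((2 * r + 4 : ℕ) : ℝ) * s) ≤ ε * (4 * r * (2 * l)) := by
        refine mul_le_mul_of_nonneg_left ?_ hε.le
        exact mul_le_mul hL4 hs2 (by positivity) (by positivity)
      have h2 : ε * (4 * r * (2 * l)) = 8 * (ε * l * r) := by ring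
      have h3 : (8 : ℝ) * (1 / 100) < 0.145 := by norm_num
      linarith

end Pool.Agent.Lib.SubBisL.SharpPar
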