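import Pool.Agent.Lib.SubBisL.SharpVtx
import Pool.Agent.Lib.SubBisL.SharpPar

/-!
# A lower bound for the radius

Local statistics of radius `r ≤ 1 / (100 ε log₂ (1/ε))` do not determine the number of independent sets
of bipartite graphs of degree at most `4 log₂ (1/ε)` up to a factor `2 ^ (ε n)`.
-/

set_option autoImplicit false

namespace Pool.Agent.Lib.SubBisL.Sharp

open Finset Pool.Agent.Lib.Pa7c826 Pool.Agent.Lib.SubBisL SharpCyc SharpBall SharpVtx SharpPar

lemma numIndep_pos {V : Type} [Fintype V] (G : SimpleGraph V) : 0 < numIndep G := by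
  unfold numIndep
  have : Nonempty {I : Set V // G.IsIndepSet I} := ⟨⟨∅, by simp [SimpleGraph.IsIndepSet]⟩⟩
  exact Nat.card_pos

/-- Two bipartite graphs with the same number of vertices, in which all balls of radius `r` are
isomorphic, and whose numbers of independent sets differ by a factor more than `2 ^ (2 ε n)`. -/
theorem pair (ε : ℝ) (hε : 0 < ε) (hε1 : ε ≤ 1 / 500) (r : ℕ)
    (hr : (r : ℝ) ≤ 1 / (100 * (ε * Real.logb 2 (1 / ε)))) :
    ∃ D : ℕ, (D : ℝ) ≤ 4 * Real.logb 2 (1 / ε) ∧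
      ∀ N : ℕ, ∃ (V V' : Type) (_ : Fintype V) (_ : Fintype V') (G : SimpleGraph V)
        (G' : SimpleGraph V'), G.Colorable 2 ∧ G'.Colorable 2 ∧ DegLe G D ∧ DegLe G' D ∧
        N ≤ Fintype.card V ∧ Fintype.card V' = Fintype.card V ∧
        (∀ v v', SameBall G v G' v' r) ∧
        2 * (ε * Fintype.card V) < Real.logb 2 (ZZ G 1) - Real.logb 2 (ZZ G' 1) := by
  obtain ⟨R, L, s, hrR, hRL, hL, hs, hD, hc⟩ := pars ε hε hε1 r hr
  refine ⟨2 * s, hD, ?_⟩
  intro N
  have hL0 : 0 < L := by omega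
  have : NeZero L := ⟨hL0.ne'⟩
  have : NeZero (2 * L) := ⟨by omega⟩
  have hs0 : 0 < s := by
    rcases Nat.eq_zero_or_pos s with h | h
    · rw [h, pow_zero] at hs
      have : 0 < L ^ 2 := by positivity
      omega
    · exact h
  set m : ℕ := N + 1 with hm
  have hrL : 2 * (r + 1) < L := by omega
  have c1 : Fintype.card ((Fin m × Fin 2) × (ZMod L × Fin s)) = 2 * L * s * m := by
    simp only [Fintype.card_prod, Fintype.card_fin, ZMod.card]
    ring
  have c2 : Fintype.card (Fin m × (ZMod (2 * L) × Fin s)) = 2 * L * s * m := by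
    simp only [Fintype.card_prod, Fintype.card_fin, ZMod.card]
    ring
  have hm0 : (0 : ℝ) < m := by
    rw [hm]
    positivity
  refine ⟨(Fin m × Fin 2) × (ZMod L × Fin s), Fin m × (ZMod (2 * L) × Fin s), inferInstance,
    inferInstance, copies (Fin m × Fin 2) (blow L s), copies (Fin m) (blow (2 * L) s),
    copies_colorable (blow_colorable L s hL), copies_colorable (blow_colorable (2 * L) s ⟨L, by ring⟩),
    copies_deg (blow_deg L s), copies_deg (blow_deg (2 * L) s), ?_, ?_, ?_, ?_⟩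
  · rw [c1]
    have : 0 < 2 * L * s := by positivity
    nlinarith
  · rw [c1, c2]
  · intro x y
    exact sb_trans (sameBall_copies r (blow L s) x) (sb_trans (sameBall_trans r L s x.2 _)
      (sb_symm (sb_trans (sameBall_copies r (blow (2 * L) s) y) (sameBall_double r L s hrL y.2))))
  · have hp1 : (0 : ℝ) < numIndep (blow L s) := by exact_mod_cast numIndep_pos (blow L s)
    have hp2 : (0 : ℝ) < numIndep (blow (2 * L) s) := by
      exact_mod_cast numIndep_pos (blow (2 * L) s)
    set l1 : ℝ := Real.logb 2 (numIndep (blow L s)) with hl1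
    set l2 : ℝ := Real.logb 2 (numIndep (blow (2 * L) s)) with hl2
    have z1 : Real.logb 2 (ZZ (copies (Fin m × Fin 2) (blow L s)) 1) = m * (2 * l1) := by
      rw [ZZ_one, numIndep_copies]
      push_cast
      rw [Real.logb_pow]
      simp only [Fintype.card_prod, Fintype.card_fin]
      push_cast
      ring
    have z2 : Real.logb 2 (ZZ (copies (Fin m) (blow (2 * L) s)) 1) = m * l2 := by
      rw [ZZ_one, numIndep_copies]
      push_cast
      rw [Real.logb_pow, Fintype.card_fin]
    have gap : 0.58 ≤ 2 * l1 - l2 := by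
      have h := numIndep_gap s L hL hL0 (by omega)
      have h' : (3 / 2 : ℝ) * numIndep (blow (2 * L) s) ≤ (numIndep (blow L s) : ℝ) ^ 2 := by
        have : ((3 * numIndep (blow (2 * L) s) : ℕ) : ℝ) ≤
            ((2 * numIndep (blow L s) ^ 2 : ℕ) : ℝ) := by
          exact_mod_cast h
        push_cast at this
        linarith
      have h2 := Real.logb_le_logb_of_le (b := 2) (by norm_num) (by positivity) h'
      rw [Real.logb_mul (by norm_num) hp2.ne', Real.logb_pow] at h2
      have h3 := log_three_halves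
      push_cast at h2
      linarith
    rw [z1, z2, c1]
    have h1 : 2 * (ε * ((2 * L * s * m : ℕ) : ℝ)) = 4 * (ε * (L * s)) * m := by
      push_cast
      ring
    have h2 : 4 * (ε * (L * s)) * m < 4 * 0.145 * m :=
      mul_lt_mul_of_pos_right (mul_lt_mul_of_pos_left hc (by norm_num)) hm0
    have h3 : (m : ℝ) * 0.58 ≤ m * (2 * l1 - l2) := mul_le_mul_of_nonneg_left gap hm0.le
    rw [h1]
    linarith

/-- No invariant function of balls of radius `r ≤ 1 / (100 ε log₂ (1/ε))` approximates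
`log₂ i(G)` within `ε n` by its sum over the vertices, for all bipartite graphs of degree at most
`4 log₂ (1/ε)`. -/
theorem sharp (ε : ℝ) (hε : 0 < ε) (hε1 : ε ≤ 1 / 500) (r : ℕ)
    (hr : (r : ℝ) ≤ 1 / (100 * (ε * Real.logb 2 (1 / ε)))) :
    ∃ D : ℕ, (D : ℝ) ≤ 4 * Real.logb 2 (1 / ε) ∧
      ∀ φ : RootFun, φ.Invariant → ∀ N : ℕ, ∃ (V : Type) (_ : Fintype V) (G : SimpleGraph V),
        G.Colorable 2 ∧ DegLe G D ∧ N ≤ Fintype.card V ∧
        ε * Fintype.card V < |Real.logb 2 (ZZ G 1) - ∑ v, φ.at G r v| := by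
  obtain ⟨D, hD, h⟩ := pair ε hε hε1 r hr
  refine ⟨D, hD, ?_⟩
  intro φ hφ N
  obtain ⟨V, V', i1, i2, G, G', h1, h2, h3, h4, h5, h6, h7, h8⟩ := h (N + 1)
  have : Nonempty V := Fintype.card_pos_iff.mp (by omega)
  obtain ⟨v0⟩ := this
  have : Nonempty V' := Fintype.card_pos_iff.mp (by omega)
  obtain ⟨w0⟩ := this
  have e1 : ∀ v, φ.at G r v = φ.at G' r w0 := fun v => at_eq hφ (h7 v w0)
  have e2 : ∀ w, φ.at G' r w = φ.at G' r w0 := fun w =>
    (at_eq hφ (h7 v0 w)).symm.trans (at_eq hφ (h7 v0 w0))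
  by_cases hcase : ε * (Fintype.card V : ℝ) < |Real.logb 2 (ZZ G 1) - ∑ v, φ.at G r v|
  · exact ⟨V, i1, G, h1, h3, by omega, hcase⟩
  · refine ⟨V', i2, G', h2, h4, by omega, ?_⟩
    rw [sum_congr rfl (fun x _ => e1 x), sum_const, card_univ, nsmul_eq_mul] at hcase
    rw [sum_congr rfl (fun x _ => e2 x), sum_const, card_univ, nsmul_eq_mul, h6]
    have h9 := abs_le.mp (not_lt.mp hcase)
    rw [lt_abs]
    right
    linarith [h9.2, h8]

end Pool.Agent.Lib.SubBisL.Sharp
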