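import Mathlib
import Pool.Agent.Lib.Pa7c826.Indep

/-!
# Independent sets in blow-ups of cycles

`blow L s`: the cycle of length `L` with every vertex replaced by `s` independent vertices.
-/

set_option autoImplicit false

namespace Pool.Agent.Lib.SubBisL.SharpCyc

open Finset Pool.Agent.Lib.Pa7c826

section walks

variable {S : Type*} [Fintype S] [DecidableEq S] (M : Matrix S S ℕ)

lemma sum_walk (n : ℕ) : ∀ (A B : S),
    ∑ σ : Fin n → S, ∏ i : Fin (n + 1), M ((Fin.cons A σ : Fin (n + 1) → S) i)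
      ((Fin.snoc σ B : Fin (n + 1) → S) i) = (M ^ (n + 1)) A B := by
  induction n with
  | zero =>
    intro A B
    simp [Fin.snoc]
  | succ n ih =>
    intro A B
    rw [pow_succ', Matrix.mul_apply]
    rw [← (Fin.consEquiv (fun _ : Fin (n + 1) => S)).sum_comp, Fintype.sum_prod_type]
    refine sum_congr rfl fun a _ => ?_
    rw [← ih a B, mul_sum]
    refine sum_congr rfl fun τ _ => ?_
    rw [Fin.prod_univ_succ]
    have h : (Fin.snoc (Fin.cons a τ : Fin (n + 1) → S) B : Fin (n + 2) → S) =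
        Fin.cons a (Fin.snoc τ B : Fin (n + 1) → S) := (Fin.cons_snoc_eq_snoc_cons a τ B).symm
    change M ((Fin.cons A (Fin.cons a τ : Fin (n + 1) → S) : Fin (n + 2) → S) 0)
      ((Fin.snoc (Fin.cons a τ : Fin (n + 1) → S) B : Fin (n + 2) → S) 0) *
      ∏ i : Fin (n + 1), M ((Fin.cons A (Fin.cons a τ : Fin (n + 1) → S) : Fin (n + 2) → S) i.succ)
      ((Fin.snoc (Fin.cons a τ : Fin (n + 1) → S) B : Fin (n + 2) → S) i.succ) = _
    rw [h]
    rfl

lemma sum_cycle (n : ℕ) :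
    ∑ σ : Fin (n + 1) → S, ∏ i : Fin (n + 1), M (σ i) (σ (i + 1)) = (M ^ (n + 1)).trace := by
  rw [← (Fin.consEquiv (fun _ : Fin (n + 1) => S)).sum_comp, Fintype.sum_prod_type, Matrix.trace]
  refine sum_congr rfl fun a _ => ?_
  rw [Matrix.diag_apply, ← sum_walk]
  refine sum_congr rfl fun τ _ => ?_
  refine prod_congr rfl fun i _ => ?_
  congr 1
  change (Fin.cons a τ : Fin (n + 1) → S) (i + 1) = _
  refine Fin.lastCases ?_ (fun j => ?_) i
  · rw [Fin.snoc_last, Fin.last_add_one, Fin.cons_zero]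
  · rw [Fin.snoc_castSucc]
    have : (j.castSucc + 1 : Fin (n + 1)) = j.succ := Fin.coeSucc_eq_succ
    rw [this, Fin.cons_succ]

end walks

/-- the cycle of length `L`, every vertex replaced by `s` independent vertices -/
def blow (L s : ℕ) : SimpleGraph (ZMod L × Fin s) where
  Adj x y := x.1 ≠ y.1 ∧ (x.1 + 1 = y.1 ∨ y.1 + 1 = x.1)
  symm := ⟨fun _ _ h => ⟨h.1.symm, h.2.symm⟩⟩
  loopless := ⟨fun _ h => h.1 rfl⟩

open Classical in
/-- the transfer matrix -/
noncomputable def MM (s : ℕ) : Matrix (Set (Fin s)) (Set (Fin s)) ℕ :=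
  fun A B => if A = ∅ ∨ B = ∅ then 1 else 0

lemma indep_iff {n s : ℕ} (σ : ZMod (n + 2) → Set (Fin s)) :
    (blow (n + 2) s).IsIndepSet {x | x.2 ∈ σ x.1} ↔ ∀ i, σ i = ∅ ∨ σ (i + 1) = ∅ := by
  have : Fact (1 < n + 2) := ⟨by omega⟩
  constructor
  · intro h i
    by_contra hc
    push Not at hc
    obtain ⟨⟨a, ha⟩, ⟨b, hb⟩⟩ := hc
    have hne : i ≠ i + 1 := by
      intro h1
      have h2 : (1 : ZMod (n + 2)) = 0 := by
        have := congrArg (fun x => x - i) h1
        simpa using this.symm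
      exact one_ne_zero h2
    have h1 : ((i, a) : ZMod (n + 2) × Fin s) ≠ (i + 1, b) := fun h1 => hne (congrArg Prod.fst h1)
    exact h (show ((i, a) : ZMod (n + 2) × Fin s) ∈ _ from ha)
      (show ((i + 1, b) : ZMod (n + 2) × Fin s) ∈ _ from hb) h1 ⟨hne, Or.inl rfl⟩
  · intro h x hx y hy _ hadj
    rcases hadj.2 with h1 | h1
    · rcases h x.1 with h2 | h2
      · have : x.2 ∈ σ x.1 := hx
        rw [h2] at this
        exact this
      · have : y.2 ∈ σ y.1 := hy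
        rw [← h1, h2] at this
        exact this
    · rcases h y.1 with h2 | h2
      · have : y.2 ∈ σ y.1 := hy
        rw [h2] at this
        exact this
      · have : x.2 ∈ σ x.1 := hx
        rw [← h1, h2] at this
        exact this

lemma numIndep_blow (n s : ℕ) : numIndep (blow (n + 2) s) = ((MM s) ^ (n + 2)).trace := by
  classical
  rw [← sum_cycle (MM s) (n + 1)]
  have h1 : ∀ σ : Fin (n + 2) → Set (Fin s),
      (∏ i : Fin (n + 2), MM s (σ i) (σ (i + 1))) =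
        if (∀ i, σ i = ∅ ∨ σ (i + 1) = ∅) then 1 else 0 := by
    intro σ
    unfold MM
    split_ifs with h
    · exact prod_eq_one fun i _ => if_pos (h i)
    · push Not at h
      obtain ⟨i, hi⟩ := h
      refine prod_eq_zero (mem_univ i) (if_neg ?_)
      push Not
      exact hi
  rw [sum_congr rfl fun σ _ => h1 σ, ← sum_filter, sum_const, smul_eq_mul, mul_one]
  rw [← Fintype.card_subtype, ← Nat.card_eq_fintype_card]
  unfold numIndep
  refine Nat.card_congr ⟨fun I => ⟨fun i => {a | ((i, a) : ZMod (n + 2) × Fin s) ∈ I.1}, ?_⟩,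
    fun σ => ⟨{x | x.2 ∈ σ.1 x.1}, ?_⟩, ?_, ?_⟩
  · exact (indep_iff _).1 I.2
  · exact (indep_iff _).2 σ.2
  · intro I
    rfl
  · intro σ
    rfl

lemma card_ne (s : ℕ) : ((univ : Finset (Set (Fin s))).erase ∅).card = 2 ^ s - 1 := by
  classical
  rw [card_erase_of_mem (mem_univ _), card_univ, Fintype.card_set, Fintype.card_fin]

open Classical in
lemma MM_sq (s : ℕ) (A B : Set (Fin s)) :
    ((MM s) ^ 2) A B = 1 + (2 ^ s - 1) * (if A = ∅ ∧ B = ∅ then 1 else 0) := by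
  rw [pow_two, Matrix.mul_apply, ← add_sum_erase univ _ (mem_univ ∅)]
  have h1 : MM s A ∅ * MM s ∅ B = 1 := by
    unfold MM
    rw [if_pos (Or.inr rfl), if_pos (Or.inl rfl)]
  have h2 : ∀ C ∈ (univ : Finset (Set (Fin s))).erase ∅,
      MM s A C * MM s C B = if A = ∅ ∧ B = ∅ then 1 else 0 := by
    intro C hC
    have hC' : C ≠ ∅ := (mem_erase.1 hC).1
    unfold MM
    by_cases hA : A = ∅ <;> by_cases hB : B = ∅ <;> simp [hA, hB, hC']
  rw [h1, sum_congr rfl h2, sum_const, card_ne, smul_eq_mul]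

open Classical in
lemma MM_cube (s : ℕ) : (MM s) ^ 3 = (MM s) ^ 2 + (2 ^ s - 1) • MM s := by
  ext A B
  rw [pow_succ, Matrix.mul_apply, ← add_sum_erase univ _ (mem_univ ∅)]
  have h1 : MM s ∅ B = 1 := by
    unfold MM
    rw [if_pos (Or.inl rfl)]
  have h2 : ∀ C ∈ (univ : Finset (Set (Fin s))).erase ∅,
      ((MM s) ^ 2) A C * MM s C B = if B = ∅ then 1 else 0 := by
    intro C hC
    have hC' : C ≠ ∅ := (mem_erase.1 hC).1
    rw [MM_sq]
    unfold MM
    by_cases hB : B = ∅ <;> simp [hB, hC']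
  rw [h1, sum_congr rfl h2, sum_const, card_ne, smul_eq_mul, MM_sq, Matrix.add_apply, MM_sq,
    Matrix.smul_apply, smul_eq_mul]
  unfold MM
  by_cases hA : A = ∅ <;> by_cases hB : B = ∅ <;> simp [hA, hB]

lemma trace_one' (s : ℕ) : (MM s).trace = 1 := by
  classical
  rw [Matrix.trace, ← add_sum_erase univ _ (mem_univ ∅)]
  have h1 : (MM s).diag ∅ = 1 := by
    rw [Matrix.diag_apply]
    unfold MM
    rw [if_pos (Or.inl rfl)]
  have h2 : ∀ C ∈ (univ : Finset (Set (Fin s))).erase ∅, (MM s).diag C = 0 := by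
    intro C hC
    have hC' : C ≠ ∅ := (mem_erase.1 hC).1
    rw [Matrix.diag_apply]
    unfold MM
    simp [hC']
  rw [h1, sum_congr rfl h2, sum_const_zero, add_zero]

lemma trace_two (s : ℕ) : ((MM s) ^ 2).trace = 1 + 2 * (2 ^ s - 1) := by
  classical
  rw [Matrix.trace, ← add_sum_erase univ _ (mem_univ ∅)]
  have h1 : ((MM s) ^ 2).diag ∅ = 1 + (2 ^ s - 1) := by
    rw [Matrix.diag_apply, MM_sq]
    simp
  have h2 : ∀ C ∈ (univ : Finset (Set (Fin s))).erase ∅, ((MM s) ^ 2).diag C = 1 := by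
    intro C hC
    have hC' : C ≠ ∅ := (mem_erase.1 hC).1
    rw [Matrix.diag_apply, MM_sq]
    simp [hC']
  rw [h1, sum_congr rfl h2, sum_const, card_ne, smul_eq_mul]
  ring

/-- the number of independent sets of the blow-up of a cycle -/
lemma trace_eq (s : ℕ) (p r : ℝ) (h1 : p + r = 1) (h2 : p * r = -(2 ^ s - 1)) (n : ℕ) :
    (((MM s) ^ (n + 1)).trace : ℝ) = p ^ (n + 1) + r ^ (n + 1) := by
  have hs : ((2 ^ s - 1 : ℕ) : ℝ) = 2 ^ s - 1 := by
    rw [Nat.cast_sub Nat.one_le_two_pow]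
    push_cast
    ring
  induction n using Nat.strong_induction_on with
  | _ n ih =>
    rcases n with - | - | n
    · rw [zero_add, pow_one, trace_one', pow_one, pow_one, h1]
      norm_num
    · rw [show 0 + 1 + 1 = 2 from rfl, trace_two]
      push_cast
      rw [hs]
      have : p ^ 2 + r ^ 2 = (p + r) ^ 2 - 2 * (p * r) := by ring
      rw [this, h1, h2]
      ring
    · have e1 : (MM s) ^ (n + 2 + 1) = (MM s) ^ (n + 1 + 1) + (2 ^ s - 1) • (MM s) ^ (n + 1) := by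
        rw [show n + 2 + 1 = n + 3 by ring, pow_add, MM_cube, mul_add, ← pow_add, mul_smul_comm,
          ← pow_succ]
      rw [show n + 1 + 1 + 1 = n + 2 + 1 by ring, e1, Matrix.trace_add, Matrix.trace_smul,
        smul_eq_mul]
      push_cast
      rw [ih (n + 1) (by omega), ih n (by omega), hs]
      have hp : p ^ 2 = p + (2 ^ s - 1) := by
        have : p ^ 2 = p * (p + r) - p * r := by ring
        rw [this, h1, h2]
        ring
      have hr : r ^ 2 = r + (2 ^ s - 1) := by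
        have : r ^ 2 = r * (p + r) - p * r := by ring
        rw [this, h1, h2]
        ring
      have e2 : p ^ (n + 2 + 1) = p ^ (n + 1) * p ^ 2 := by ring
      have e3 : r ^ (n + 2 + 1) = r ^ (n + 1) * r ^ 2 := by ring
      rw [e2, e3, hp, hr]
      ring

/-- gluing two cycles of even length `L` loses a constant factor -/
lemma trace_gap (s L : ℕ) (hL : Even L) (hL0 : 0 < L) (hs : 9 * L ^ 2 ≤ 2 ^ s - 1) :
    3 * ((MM s) ^ (2 * L)).trace ≤ 2 * ((MM s) ^ L).trace ^ 2 := by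
  obtain ⟨n, rfl⟩ : ∃ n, L = n + 1 := ⟨L - 1, by omega⟩
  obtain ⟨x, hx⟩ : ∃ x : ℝ, x = 2 ^ s - 1 := ⟨_, rfl⟩
  have hsx : ((2 ^ s - 1 : ℕ) : ℝ) = x := by
    rw [Nat.cast_sub Nat.one_le_two_pow, hx]
    push_cast
    ring
  have hxL : 9 * ((n + 1 : ℕ) : ℝ) ^ 2 ≤ x := by
    rw [← hsx]
    exact_mod_cast hs
  obtain ⟨y, hy⟩ : ∃ y : ℝ, y = Real.sqrt x := ⟨_, rfl⟩
  have hL1 : (1 : ℝ) ≤ ((n + 1 : ℕ) : ℝ) := by
    push_cast
    have : (0 : ℝ) ≤ n := Nat.cast_nonneg n
    linarith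
  have hx9 : 9 ≤ x := by nlinarith
  have hyy : y ^ 2 = x := by
    rw [hy]
    exact Real.sq_sqrt (by linarith)
  have hy0 : 0 ≤ y := by
    rw [hy]
    exact Real.sqrt_nonneg x
  have hyL : 3 * ((n + 1 : ℕ) : ℝ) ≤ y := by
    rw [hy]
    apply Real.le_sqrt_of_sq_le
    nlinarith
  obtain ⟨w, hw⟩ : ∃ w : ℝ, w = Real.sqrt (1 + 4 * x) := ⟨_, rfl⟩
  have hww : w ^ 2 = 1 + 4 * x := by
    rw [hw]
    exact Real.sq_sqrt (by linarith)
  have hw0 : 0 ≤ w := by
    rw [hw]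
    exact Real.sqrt_nonneg _
  have hw1 : w ≤ 2 * y + 1 := by
    rw [hw]
    apply Real.sqrt_le_iff.2
    constructor
    · linarith
    · nlinarith
  have h1 : (1 + w) / 2 + (1 - w) / 2 = 1 := by ring
  have h2 : (1 + w) / 2 * ((1 - w) / 2) = -(2 ^ s - 1) := by
    have : (1 + w) / 2 * ((1 - w) / 2) = (1 - w ^ 2) / 4 := by ring
    rw [this, hww, ← hx]
    ring
  obtain ⟨p, hp⟩ : ∃ p : ℝ, p = (1 + w) / 2 := ⟨_, rfl⟩
  obtain ⟨r, hr⟩ : ∃ r : ℝ, r = (1 - w) / 2 := ⟨_, rfl⟩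
  rw [← hp, ← hr] at h1 h2
  have ht1 := trace_eq s p r h1 h2 n
  have ht2 := trace_eq s p r h1 h2 (2 * (n + 1) - 1)
  rw [show 2 * (n + 1) - 1 + 1 = 2 * (n + 1) by omega] at ht2
  have hp0 : 0 < p := by rw [hp]; linarith
  -- the square
  have hsq : (((MM s) ^ (n + 1)).trace : ℝ) ^ 2 =
      (((MM s) ^ (2 * (n + 1))).trace : ℝ) + 2 * x ^ (n + 1) := by
    rw [ht1, ht2]
    have e1 : (p ^ (n + 1) + r ^ (n + 1)) ^ 2 =
        p ^ (2 * (n + 1)) + r ^ (2 * (n + 1)) + 2 * (p * r) ^ (n + 1) := by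
      rw [mul_pow, mul_comm 2 (n + 1), pow_mul, pow_mul]
      ring
    rw [e1, h2, ← hx, hL.neg_pow]
  -- the bound
  have hrp : r ^ 2 ≤ p ^ 2 := by
    rw [hr, hp]
    nlinarith
  have hp2 : p ^ 2 = p + x := by
    have : p ^ 2 = p * (p + r) - p * r := by ring
    rw [this, h1, h2, hx]
    ring
  have hpy : p ≤ 2 * y := by
    rw [hp]
    linarith
  have hpx : p ^ 2 ≤ x * (1 + 2 / y) := by
    have hy1 : 0 < y := by linarith
    have : x * (1 + 2 / y) = x + 2 * y := by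
      rw [← hyy]
      field_simp
    rw [hp2, this]
    linarith
  have hb : (((MM s) ^ (2 * (n + 1))).trace : ℝ) ≤ 4 * x ^ (n + 1) := by
    rw [ht2, pow_mul, pow_mul]
    have b1 : (r ^ 2) ^ (n + 1) ≤ (p ^ 2) ^ (n + 1) := pow_le_pow_left₀ (by positivity) hrp _
    have b2 : (p ^ 2) ^ (n + 1) ≤ (x * (1 + 2 / y)) ^ (n + 1) :=
      pow_le_pow_left₀ (by positivity) hpx _
    have hy1 : 0 < y := by linarith
    have b3 : (1 + 2 / y) ^ (n + 1) ≤ 2 := by
      have c1 : (1 + 2 / y) ≤ Real.exp (2 / y) := by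
        have := Real.add_one_le_exp (2 / y)
        linarith
      have c2 : (1 + 2 / y) ^ (n + 1) ≤ Real.exp (2 / y) ^ (n + 1) :=
        pow_le_pow_left₀ (by positivity) c1 _
      rw [← Real.exp_nat_mul] at c2
      have c3 : ((n + 1 : ℕ) : ℝ) * (2 / y) ≤ 2 / 3 := by
        rw [mul_div_assoc', div_le_div_iff₀ hy1 (by norm_num)]
        linarith
      have c4 : Real.exp (2 / 3) ≤ 2 := by
        have d1 : Real.exp (2 / 3) ^ 3 ≤ 2 ^ 3 := by
          rw [← Real.exp_nat_mul]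
          have d2 : ((3 : ℕ) : ℝ) * (2 / 3) = (2 : ℕ) * 1 := by norm_num
          rw [d2, Real.exp_nat_mul]
          have d3 := Real.exp_one_lt_d9
          have d4 := Real.exp_pos 1
          nlinarith
        exact (pow_le_pow_iff_left₀ (Real.exp_pos _).le (by norm_num) (by norm_num)).1 d1
      exact c2.trans ((Real.exp_le_exp.2 c3).trans c4)
    rw [mul_pow] at b2
    have b4 : x ^ (n + 1) * (1 + 2 / y) ^ (n + 1) ≤ x ^ (n + 1) * 2 :=
      mul_le_mul_of_nonneg_left b3 (by positivity)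
    linarith
  have hfin : 3 * (((MM s) ^ (2 * (n + 1))).trace : ℝ) ≤ 2 * (((MM s) ^ (n + 1)).trace : ℝ) ^ 2 := by
    rw [hsq]
    linarith
  exact_mod_cast hfin

/-- two copies of the blow-up of the cycle of length `L` have at least 3/2 times as many independent
sets as the blow-up of the cycle of length `2 L` -/
theorem numIndep_gap (s L : ℕ) (hL : Even L) (hL0 : 0 < L) (hs : 9 * L ^ 2 ≤ 2 ^ s - 1) :
    3 * numIndep (blow (2 * L) s) ≤ 2 * numIndep (blow L s) ^ 2 := by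
  obtain ⟨k, hk⟩ := hL
  have h1 : numIndep (blow L s) = ((MM s) ^ L).trace := by
    obtain ⟨n, rfl⟩ : ∃ n, L = n + 2 := ⟨L - 2, by omega⟩
    exact numIndep_blow n s
  have h2 : numIndep (blow (2 * L) s) = ((MM s) ^ (2 * L)).trace := by
    obtain ⟨n, hn⟩ : ∃ n, 2 * L = n + 2 := ⟨2 * L - 2, by omega⟩
    rw [hn]
    exact numIndep_blow n s
  rw [h1, h2]
  exact trace_gap s L ⟨k, hk⟩ hL0 hs

end Pool.Agent.Lib.SubBisL.SharpCyc
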