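import Pool.Agent.Lib.SubBisL.Defs
import Pool.Agent.Lib.SubBisL.SharpCyc

/-!
# Balls and coverings
-/

set_option autoImplicit false

namespace Pool.Agent.Lib.SubBisL.SharpBall

open Finset Pool.Agent.Lib.Pa7c826 Pool.Agent.Lib.SubBisL SharpCyc

variable {V V' V'' : Type}

lemma self_mem (G : SimpleGraph V) (R : ℕ) (v : V) : v ∈ ball G R v :=
  ⟨SimpleGraph.Walk.nil, Nat.zero_le R⟩

lemma ball_mono (G : SimpleGraph V) {R R' : ℕ} (h : R ≤ R') (v : V) : ball G R v ⊆ ball G R' v := by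
  rintro w ⟨p, hp⟩
  exact ⟨p, hp.trans h⟩

lemma ball_succ {G : SimpleGraph V} {R : ℕ} {v w x : V} (h : w ∈ ball G R v) (hx : G.Adj w x) :
    x ∈ ball G (R + 1) v := by
  obtain ⟨p, hp⟩ := h
  refine ⟨p.concat hx, ?_⟩
  rw [SimpleGraph.Walk.length_concat]
  omega

lemma sb_symm {R : ℕ} {G : SimpleGraph V} {v : V} {G' : SimpleGraph V'} {v' : V'}
    (h : SameBall G v G' v' R) : SameBall G' v' G v R := by
  obtain ⟨e, h1⟩ := h
  refine ⟨e.symm, ?_⟩
  rw [← h1]
  exact e.symm_apply_apply _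

lemma sb_trans {R : ℕ} {G : SimpleGraph V} {v : V} {G' : SimpleGraph V'} {v' : V'}
    {G'' : SimpleGraph V''} {v'' : V''} (h : SameBall G v G' v' R) (h' : SameBall G' v' G'' v'' R) :
    SameBall G v G'' v'' R := by
  obtain ⟨e, h1⟩ := h
  obtain ⟨e', h1'⟩ := h'
  refine ⟨e.trans e', ?_⟩
  change e' (e (root G R v)) = _
  rw [h1, h1']

/-- invariant functions take the same value at isomorphic balls -/
lemma at_eq {R : ℕ} {G : SimpleGraph V} {v : V} {G' : SimpleGraph V'} {v' : V'} {φ : RootFun}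
    (hφ : φ.Invariant) (h : SameBall G v G' v' R) : φ.at G R v = φ.at G' R v' := by
  obtain ⟨e, h1⟩ := h
  unfold RootFun.at
  rw [hφ _ _ _ _ e, h1]

lemma lift_walk {G : SimpleGraph V} {G' : SimpleGraph V'} (φ : V' → V)
    (hl : ∀ x y, G.Adj (φ x) y → ∃ y', G'.Adj x y' ∧ φ y' = y) {v w : V} (p : G.Walk v w) :
    ∀ v', φ v' = v → ∃ (w' : V') (q : G'.Walk v' w'), φ w' = w ∧ q.length = p.length := by
  induction p with
  | nil =>
    intro v' hv'
    exact ⟨v', SimpleGraph.Walk.nil, hv', rfl⟩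
  | cons hadj p ih =>
    intro v' hv'
    rw [← hv'] at hadj
    obtain ⟨y', h1, h2⟩ := hl _ _ hadj
    obtain ⟨w', q, h3, h4⟩ := ih y' h2
    refine ⟨w', SimpleGraph.Walk.cons h1 q, h3, ?_⟩
    rw [SimpleGraph.Walk.length_cons, SimpleGraph.Walk.length_cons, h4]

/-- a covering which is injective on the ball of radius `R + 1` is an isomorphism on the ball of
radius `R` -/
theorem sameBall_of_cover {R : ℕ} {G : SimpleGraph V} {G' : SimpleGraph V'} (φ : V' → V)
    (hh : ∀ x y, G'.Adj x y → G.Adj (φ x) (φ y))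
    (hl : ∀ x y, G.Adj (φ x) y → ∃ y', G'.Adj x y' ∧ φ y' = y) (v' : V')
    (hi : ∀ x ∈ ball G' (R + 1) v', ∀ y ∈ ball G' (R + 1) v', φ x = φ y → x = y) :
    SameBall G' v' G (φ v') R := by
  have hmap : ∀ x ∈ ball G' R v', φ x ∈ ball G R (φ v') := by
    rintro x ⟨p, hp⟩
    refine ⟨p.map ⟨φ, fun {a b} h => hh a b h⟩, ?_⟩
    rw [SimpleGraph.Walk.length_map]
    exact hp
  have hbij : Function.Bijective
      (fun x : ball G' R v' => (⟨φ x.1, hmap x.1 x.2⟩ : ball G R (φ v'))) := by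
    constructor
    · rintro ⟨x, hx⟩ ⟨y, hy⟩ hxy
      rw [Subtype.mk.injEq] at hxy
      exact Subtype.ext (hi x (ball_mono G' (Nat.le_succ R) v' hx) y
        (ball_mono G' (Nat.le_succ R) v' hy) hxy)
    · rintro ⟨w, p, hp⟩
      obtain ⟨w', q, h1, h2⟩ := lift_walk φ hl p v' rfl
      exact ⟨⟨w', q, by omega⟩, Subtype.ext h1⟩
  refine ⟨⟨Equiv.ofBijective _ hbij, ?_⟩, rfl⟩
  rintro ⟨x, hx⟩ ⟨y, hy⟩
  constructor
  · intro h
    change G.Adj (φ x) (φ y) at h
    obtain ⟨y', h1, h2⟩ := hl _ _ h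
    have h3 : y' = y := hi y' (ball_succ hx h1) y (ball_mono G' (Nat.le_succ R) v' hy) h2
    rw [h3] at h1
    exact h1
  · intro h
    exact hh _ _ h

/-- disjoint copies of a graph, indexed by `ι` -/
def copies (ι : Type) (G : SimpleGraph V) : SimpleGraph (ι × V) where
  Adj x y := x.1 = y.1 ∧ G.Adj x.2 y.2
  symm := ⟨fun _ _ h => ⟨h.1.symm, h.2.symm⟩⟩
  loopless := ⟨fun _ h => h.2.ne rfl⟩

lemma copies_fst {ι : Type} {G : SimpleGraph V} {x y : ι × V} (p : (copies ι G).Walk x y) :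
    x.1 = y.1 := by
  induction p with
  | nil => rfl
  | cons h _ ih => exact h.1.trans ih

theorem sameBall_copies {ι : Type} (R : ℕ) (G : SimpleGraph V) (x : ι × V) :
    SameBall (copies ι G) x G x.2 R := by
  refine sameBall_of_cover (G := G) (G' := copies ι G) Prod.snd (fun x y h => h.2)
    (fun x y h => ⟨(x.1, y), ⟨rfl, h⟩, rfl⟩) x ?_
  rintro a ⟨p, _⟩ b ⟨q, _⟩ h
  exact Prod.ext ((copies_fst p).symm.trans (copies_fst q)) h

theorem numIndep_copies {ι : Type} [Fintype ι] [Fintype V] (G : SimpleGraph V) :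
    numIndep (copies ι G) = numIndep G ^ Fintype.card ι := by
  classical
  unfold numIndep
  rw [Nat.card_congr (β := ι → {I : Set V // G.IsIndepSet I})]
  · rw [Nat.card_pi, prod_const, card_univ]
  · refine ⟨fun I i => ⟨{v | (i, v) ∈ I.1}, ?_⟩, fun J => ⟨{x | x.2 ∈ (J x.1).1}, ?_⟩, ?_, ?_⟩
    · intro a ha b hb hab hadj
      exact I.2 (show (i, a) ∈ I.1 from ha) (show (i, b) ∈ I.1 from hb)
        (fun h => hab (congrArg Prod.snd h)) ⟨rfl, hadj⟩
    · intro a ha b hb _ hadj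
      have hb' : b.2 ∈ (J a.1).1 := by
        rw [hadj.1]
        exact hb
      exact (J a.1).2 ha hb' hadj.2.ne hadj.2
    · intro I
      rfl
    · intro J
      rfl

/-- for activity 1 the partition function is the number of independent sets -/
theorem ZZ_one [Fintype V] (G : SimpleGraph V) : ZZ G 1 = numIndep G := by
  classical
  unfold ZZ numIndep
  simp only [one_pow]
  rw [sum_const, nsmul_eq_mul, mul_one]
  congr 1
  rw [← Fintype.card_subtype, ← Nat.card_eq_fintype_card]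
  refine Nat.card_congr ⟨fun I => ⟨(I.1 : Set V), I.2⟩, fun I => ⟨I.1.toFinset, ?_⟩, ?_, ?_⟩
  · rw [Set.coe_toFinset]
    exact I.2
  · intro I
    simp
  · intro I
    simp

lemma copies_colorable {ι : Type} {G : SimpleGraph V} {n : ℕ} (h : G.Colorable n) :
    (copies ι G).Colorable n := by
  obtain ⟨c⟩ := h
  exact ⟨SimpleGraph.Coloring.mk (fun x => c x.2) (fun {x y} h => c.valid h.2)⟩

lemma copies_deg {ι : Type} {G : SimpleGraph V} {D : ℕ} (h : DegLe G D) :
    DegLe (copies ι G) D := by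
  intro x
  have : (copies ι G).neighborSet x = (fun v => (x.1, v)) '' G.neighborSet x.2 := by
    ext y
    rw [SimpleGraph.mem_neighborSet]
    constructor
    · rintro ⟨h1, h2⟩
      exact ⟨y.2, h2, Prod.ext h1 rfl⟩
    · rintro ⟨v, hv, rfl⟩
      exact ⟨rfl, hv⟩
  rw [this, Set.ncard_image_of_injective _ (fun a b h => congrArg Prod.snd h)]
  exact h x.2

end Pool.Agent.Lib.SubBisL.SharpBall
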