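import Pool.Agent.Lib.SubBisL.Defs

/-!
# The transfer matrix of the hard-core model on a cyclic product
-/

set_option autoImplicit false

namespace Pool.Agent.Lib.SubBisL.SharpTr

open Finset Pool.Agent.Lib.SubBisL

section walks

variable {S R : Type*} [Fintype S] [DecidableEq S] [CommSemiring R] (M : Matrix S S R)

lemma sum_walk (n : ℕ) : ∀ (A B : S),
    ∑ σ : Fin n → S, ∏ i : Fin (n + 1), M ((Fin.cons A σ : Fin (n + 1) → S) i)
      ((Fin.snoc σ B : Fin (n + 1) → S) i) = (M ^ (n + 1)) A B := by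
  induction n with
  | zero =>
    intro A B
    simp [Fin.snoc]
  | succ n ih =>
    intro A B
    rw [pow_succ', Matrix.mul_apply]
    rw [← (Fin.consEquiv (fun _ : Fin (n + 1) => S)).sum_comp, Fintype.sum_prod_type]
    refine sum_congr rfl fun a _ => ?_
    rw [← ih a B, mul_sum]
    refine sum_congr rfl fun τ _ => ?_
    rw [Fin.prod_univ_succ]
    have h : (Fin.snoc (Fin.cons a τ : Fin (n + 1) → S) B : Fin (n + 2) → S) =
        Fin.cons a (Fin.snoc τ B : Fin (n + 1) → S) := (Fin.cons_snoc_eq_snoc_cons a τ B).symm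
    change M ((Fin.cons A (Fin.cons a τ : Fin (n + 1) → S) : Fin (n + 2) → S) 0)
      ((Fin.snoc (Fin.cons a τ : Fin (n + 1) → S) B : Fin (n + 2) → S) 0) *
      ∏ i : Fin (n + 1), M ((Fin.cons A (Fin.cons a τ : Fin (n + 1) → S) : Fin (n + 2) → S) i.succ)
      ((Fin.snoc (Fin.cons a τ : Fin (n + 1) → S) B : Fin (n + 2) → S) i.succ) = _
    rw [h]
    rfl

lemma sum_cycle (n : ℕ) :
    ∑ σ : Fin (n + 1) → S, ∏ i : Fin (n + 1), M (σ i) (σ (i + 1)) = (M ^ (n + 1)).trace := by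
  rw [← (Fin.consEquiv (fun _ : Fin (n + 1) => S)).sum_comp, Fintype.sum_prod_type, Matrix.trace]
  refine sum_congr rfl fun a _ => ?_
  rw [Matrix.diag_apply, ← sum_walk]
  refine sum_congr rfl fun τ _ => ?_
  refine prod_congr rfl fun i _ => ?_
  congr 1
  change (Fin.cons a τ : Fin (n + 1) → S) (i + 1) = _
  refine Fin.lastCases ?_ (fun j => ?_) i
  · rw [Fin.snoc_last, Fin.last_add_one, Fin.cons_zero]
  · rw [Fin.snoc_castSucc]
    have : (j.castSucc + 1 : Fin (n + 1)) = j.succ := Fin.coeSucc_eq_succ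
    rw [this, Fin.cons_succ]

end walks

/-- `s` points above every vertex of the cycle of length `L`, points above consecutive vertices being
joined when they are related by `E` (made symmetric) -/
def wrap (L : ℕ) {s : ℕ} (E : Fin s → Fin s → Prop) (hE : ∀ i j, E i j → E j i) :
    SimpleGraph (ZMod L × Fin s) where
  Adj x y := x.1 ≠ y.1 ∧ (x.1 + 1 = y.1 ∨ y.1 + 1 = x.1) ∧ E x.2 y.2
  symm := ⟨fun _ _ h => ⟨h.1.symm, h.2.1.symm, hE _ _ h.2.2⟩⟩
  loopless := ⟨fun _ h => h.1 rfl⟩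

open Classical in
/-- the transfer matrix; `q ^ 2` is the activity -/
noncomputable def TM {s : ℕ} (E : Fin s → Fin s → Prop) (q : ℝ) :
    Matrix (Finset (Fin s)) (Finset (Fin s)) ℝ :=
  fun A B => if ∀ i ∈ A, ∀ j ∈ B, ¬ E i j then q ^ A.card * q ^ B.card else 0

lemma one_ne (N : ℕ) (hN : 1 < N) (i : ZMod N) : i ≠ i + 1 := by
  have : Fact (1 < N) := ⟨hN⟩
  intro h
  have h2 : (1 : ZMod N) = 0 := by
    have := congrArg (fun x => x - i) h
    simpa using this.symm
  exact one_ne_zero h2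

variable {s : ℕ} (E : Fin s → Fin s → Prop) (hE : ∀ i j, E i j → E j i)

lemma indep_iff {n : ℕ} (σ : ZMod (n + 2) → Finset (Fin s)) :
    (wrap (n + 2) E hE).IsIndepSet {x | x.2 ∈ σ x.1} ↔
      ∀ i, ∀ a ∈ σ i, ∀ b ∈ σ (i + 1), ¬ E a b := by
  constructor
  · intro h i a ha b hb hab
    have hne : i ≠ i + 1 := one_ne (n + 2) (by omega) i
    have h1 : ((i, a) : ZMod (n + 2) × Fin s) ≠ (i + 1, b) := fun h1 => hne (congrArg Prod.fst h1)
    exact h (show ((i, a) : ZMod (n + 2) × Fin s) ∈ _ from ha)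
      (show ((i + 1, b) : ZMod (n + 2) × Fin s) ∈ _ from hb) h1 ⟨hne, Or.inl rfl, hab⟩
  · intro h x hx y hy _ hadj
    have hx' : x.2 ∈ σ x.1 := hx
    have hy' : y.2 ∈ σ y.1 := hy
    rcases hadj.2.1 with h1 | h1
    · rw [← h1] at hy'
      exact h x.1 _ hx' _ hy' hadj.2.2
    · rw [← h1] at hx'
      exact h y.1 _ hy' _ hx' (hE _ _ hadj.2.2)

/-- a set of vertices as a function to sets of points -/
def slices {L : ℕ} [NeZero L] : Finset (ZMod L × Fin s) ≃ (ZMod L → Finset (Fin s)) where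
  toFun I i := univ.filter (fun a => (i, a) ∈ I)
  invFun σ := univ.filter (fun x => x.2 ∈ σ x.1)
  left_inv I := by
    ext x
    simp
  right_inv σ := by
    funext i
    ext a
    simp

lemma card_slices {L : ℕ} [NeZero L] (σ : ZMod L → Finset (Fin s)) :
    (slices.symm σ).card = ∑ i, (σ i).card := by
  classical
  change (univ.filter (fun x : ZMod L × Fin s => x.2 ∈ σ x.1)).card = _
  rw [card_filter, Fintype.sum_prod_type]
  refine sum_congr rfl fun i _ => ?_
  rw [← card_filter]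
  congr 1
  ext a
  simp

lemma prod_TM (n : ℕ) (q : ℝ) (τ : Fin (n + 2) → Finset (Fin s))
    (h : ∀ i, ∀ a ∈ τ i, ∀ b ∈ τ (i + 1), ¬ E a b) :
    ∏ i, TM E q (τ i) (τ (i + 1)) = (q ^ 2) ^ ∑ i, (τ i).card := by
  have h2 : ∀ i : Fin (n + 2), TM E q (τ i) (τ (i + 1)) =
      q ^ (τ i).card * q ^ (τ (i + 1)).card := fun i => by
    unfold TM
    exact if_pos (h i)
  rw [prod_congr rfl fun i _ => h2 i, prod_mul_distrib]
  have h4 : (∏ i : Fin (n + 2), q ^ (τ (i + 1)).card) = ∏ i : Fin (n + 2), q ^ (τ i).card :=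
    Equiv.prod_comp (Equiv.addRight (1 : Fin (n + 2))) (fun i : Fin (n + 2) => q ^ (τ i).card)
  rw [h4, ← pow_two, prod_pow_eq_pow_sum, ← pow_mul, ← pow_mul, mul_comm]

lemma prod_TM_zero (n : ℕ) (q : ℝ) (τ : Fin (n + 2) → Finset (Fin s))
    (h : ¬ ∀ i, ∀ a ∈ τ i, ∀ b ∈ τ (i + 1), ¬ E a b) :
    ∏ i, TM E q (τ i) (τ (i + 1)) = 0 := by
  push Not at h
  obtain ⟨i, a, ha, b, hb, hab⟩ := h
  refine prod_eq_zero (mem_univ i) ?_
  unfold TM
  refine if_neg ?_
  intro h'
  exact h' a ha b hb hab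

/-- the partition function is the trace of a power of the transfer matrix -/
theorem ZZ_wrap (n : ℕ) (q : ℝ) :
    ZZ (wrap (n + 2) E hE) (q ^ 2) = ((TM E q) ^ (n + 2)).trace := by
  classical
  rw [← sum_cycle (TM E q) (n + 1)]
  unfold ZZ
  rw [sum_filter, ← (slices (s := s) (L := n + 2)).symm.sum_comp]
  refine sum_congr rfl fun σ _ => ?_
  have h1 : ((slices.symm σ : Finset (ZMod (n + 2) × Fin s)) : Set (ZMod (n + 2) × Fin s)) =
      {x | x.2 ∈ σ x.1} := by
    ext x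
    simp [slices]
  have key : (wrap (n + 2) E hE).IsIndepSet
      ((slices.symm σ : Finset (ZMod (n + 2) × Fin s)) : Set (ZMod (n + 2) × Fin s)) ↔
      ∀ i, ∀ a ∈ σ i, ∀ b ∈ σ (i + 1), ¬ E a b := by
    rw [h1]
    exact indep_iff E hE σ
  by_cases h : ∀ i, ∀ a ∈ σ i, ∀ b ∈ σ (i + 1), ¬ E a b
  · rw [if_pos (key.2 h), card_slices]
    exact (prod_TM E n q σ h).symm
  · rw [if_neg (fun h' => h (key.1 h'))]
    exact (prod_TM_zero E n q σ h).symm

end Pool.Agent.Lib.SubBisL.SharpTr
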