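import Pool.Agent.Lib.SubBisL.SharpBall

/-!
# The blow-ups of cycles: coverings, transitivity, colouring, degrees
-/

set_option autoImplicit false

namespace Pool.Agent.Lib.SubBisL.SharpVtx

open Finset Pool.Agent.Lib.Pa7c826 Pool.Agent.Lib.SubBisL SharpCyc SharpBall

lemma one_ne (N : ℕ) (hN : 1 < N) (i : ZMod N) : i ≠ i + 1 := by
  have : Fact (1 < N) := ⟨hN⟩
  intro h
  have h2 : (1 : ZMod N) = 0 := by
    have := congrArg (fun x => x - i) h
    simpa using this.symm
  exact one_ne_zero h2

lemma walk_shift {N s : ℕ} {v w : ZMod N × Fin s} (p : (blow N s).Walk v w) :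
    ∃ k : ℤ, |k| ≤ p.length ∧ w.1 = v.1 + (k : ZMod N) := by
  induction p with
  | nil => exact ⟨0, by simp, by simp⟩
  | @cons a b c h q ih =>
    obtain ⟨k, hk, hw⟩ := ih
    rcases h.2 with h1 | h1
    · refine ⟨k + 1, ?_, ?_⟩
      · rw [SimpleGraph.Walk.length_cons]
        push_cast
        calc |k + 1| ≤ |k| + |1| := abs_add_le k 1
          _ ≤ _ := by
            rw [abs_one]
            linarith
      · rw [hw, ← h1]
        push_cast
        ring
    · refine ⟨k - 1, ?_, ?_⟩
      · rw [SimpleGraph.Walk.length_cons]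
        push_cast
        calc |k - 1| ≤ |k| + |1| := abs_sub k 1
          _ ≤ _ := by
            rw [abs_one]
            linarith
      · rw [hw, ← h1]
        push_cast
        ring

/-- the covering of the blow-up of the cycle of length `L` by that of the cycle of length `2 L` -/
def cov (L s : ℕ) (x : ZMod (2 * L) × Fin s) : ZMod L × Fin s :=
  (ZMod.castHom (Dvd.intro_left 2 rfl) (ZMod L) x.1, x.2)

theorem sameBall_double (R L s : ℕ) (hL : 2 * (R + 1) < L) (x : ZMod (2 * L) × Fin s) :
    SameBall (blow (2 * L) s) x (blow L s) (cov L s x) R := by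
  refine sameBall_of_cover (cov L s) ?_ ?_ x ?_
  · intro x y h
    have key : (cov L s x).1 + 1 = (cov L s y).1 ∨ (cov L s y).1 + 1 = (cov L s x).1 := by
      rcases h.2 with h1 | h1
      · left
        simp only [cov]
        rw [← h1, map_add, map_one]
      · right
        simp only [cov]
        rw [← h1, map_add, map_one]
    refine ⟨fun he => ?_, key⟩
    rcases key with h1 | h1
    · rw [he] at h1
      exact one_ne L (by omega) _ h1.symm
    · rw [he] at h1
      exact one_ne L (by omega) _ h1.symm
  · intro x y h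
    rcases h.2 with h1 | h1
    · refine ⟨(x.1 + 1, y.2), ⟨one_ne (2 * L) (by omega) _, Or.inl rfl⟩, ?_⟩
      refine Prod.ext ?_ rfl
      rw [← h1]
      simp only [cov]
      rw [map_add, map_one]
    · refine ⟨(x.1 - 1, y.2), ⟨?_, Or.inr ?_⟩, ?_⟩
      · intro h2
        have h3 := one_ne (2 * L) (by omega) (x.1 - 1)
        rw [sub_add_cancel] at h3
        exact h3 h2.symm
      · exact sub_add_cancel _ _
      · refine Prod.ext ?_ rfl
        simp only [cov] at h1 ⊢
        rw [map_sub, map_one, ← h1, add_sub_cancel_right]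
  · rintro a ⟨p, hp⟩ b ⟨q, hq⟩ h
    obtain ⟨k, hk, ha⟩ := walk_shift p
    obtain ⟨l, hl, hb⟩ := walk_shift q
    have h1 : (cov L s a).1 = (cov L s b).1 := congrArg Prod.fst h
    have h2 : (cov L s a).2 = (cov L s b).2 := congrArg Prod.snd h
    simp only [cov] at h1 h2
    rw [ha, hb, map_add, map_add, map_intCast, map_intCast] at h1
    have h3 : (k : ZMod L) = (l : ZMod L) := add_left_cancel h1
    rw [ZMod.intCast_eq_intCast_iff_dvd_sub] at h3
    have hk' : |k| ≤ R + 1 := hk.trans (by exact_mod_cast hp)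
    have hl' : |l| ≤ R + 1 := hl.trans (by exact_mod_cast hq)
    have h4 : l - k = 0 := by
      refine Int.eq_zero_of_abs_lt_dvd h3 ?_
      have := abs_sub l k
      have h5 : (2 * (R + 1) : ℤ) < L := by exact_mod_cast hL
      linarith
    refine Prod.ext ?_ h2
    rw [ha, hb, show l = k by omega]

/-- all vertices of the blow-up of a cycle are equivalent -/
theorem sameBall_trans (R L s : ℕ) (x y : ZMod L × Fin s) :
    SameBall (blow L s) x (blow L s) y R := by
  have h := sameBall_of_cover (R := R) (G := blow L s) (G' := blow L s)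
    (fun z : ZMod L × Fin s => (z.1 + (y.1 - x.1), Equiv.swap x.2 y.2 z.2)) ?_ ?_ x ?_
  · convert h using 2
    · ring
    · rw [Equiv.swap_apply_left]
  · intro a b h
    refine ⟨fun h1 => h.1 (add_right_cancel h1), ?_⟩
    rcases h.2 with h1 | h1
    · left
      change a.1 + (y.1 - x.1) + 1 = b.1 + (y.1 - x.1)
      rw [← h1]
      ring
    · right
      change b.1 + (y.1 - x.1) + 1 = a.1 + (y.1 - x.1)
      rw [← h1]
      ring
  · intro a b h
    refine ⟨(b.1 - (y.1 - x.1), Equiv.swap x.2 y.2 b.2), ⟨?_, ?_⟩, ?_⟩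
    · intro h1
      apply h.1
      change a.1 + (y.1 - x.1) = b.1
      change a.1 = b.1 - (y.1 - x.1) at h1
      rw [h1]
      ring
    · rcases h.2 with h1 | h1
      · left
        change a.1 + (y.1 - x.1) + 1 = b.1 at h1
        change a.1 + 1 = b.1 - (y.1 - x.1)
        rw [← h1]
        ring
      · right
        change b.1 + 1 = a.1 + (y.1 - x.1) at h1
        change b.1 - (y.1 - x.1) + 1 = a.1
        have : b.1 - (y.1 - x.1) + 1 = b.1 + 1 - (y.1 - x.1) := by ring
        rw [this, h1]
        ring
    · refine Prod.ext ?_ ?_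
      · exact sub_add_cancel _ _
      · change Equiv.swap x.2 y.2 (Equiv.swap x.2 y.2 b.2) = b.2
        rw [← Equiv.Perm.mul_apply, Equiv.swap_mul_self, Equiv.Perm.one_apply]
  · intro a _ b _ h
    refine Prod.ext (add_right_cancel (congrArg Prod.fst h)) ?_
    exact (Equiv.swap x.2 y.2).injective (congrArg Prod.snd h)

/-- the blow-up of an even cycle is bipartite -/
theorem blow_colorable (L s : ℕ) (hL : Even L) : (blow L s).Colorable 2 := by
  have h2 : 2 ∣ L := hL.two_dvd
  refine ⟨SimpleGraph.Coloring.mk (fun x => (ZMod.castHom h2 (ZMod 2) x.1 : ZMod 2)) ?_⟩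
  intro x y h h1
  have hne : ∀ a : ZMod 2, a + 1 ≠ a := by decide
  rcases h.2 with h3 | h3
  · rw [← h3, map_add, map_one] at h1
    exact hne _ h1.symm
  · rw [← h3, map_add, map_one] at h1
    exact hne _ h1

/-- the degrees in the blow-up of a cycle -/
theorem blow_deg (L s : ℕ) : DegLe (blow L s) (2 * s) := by
  intro x
  have hsub : (blow L s).neighborSet x ⊆
      (fun q : Fin s => (x.1 + 1, q)) '' Set.univ ∪ (fun q : Fin s => (x.1 - 1, q)) '' Set.univ := by
    intro y hy
    rw [SimpleGraph.mem_neighborSet] at hy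
    rcases hy.2 with h | h
    · left
      exact ⟨y.2, Set.mem_univ _, Prod.ext h rfl⟩
    · right
      refine ⟨y.2, Set.mem_univ _, Prod.ext ?_ rfl⟩
      change x.1 - 1 = y.1
      rw [← h, add_sub_cancel_right]
  have hfin : ∀ c : ZMod L, (((fun q : Fin s => (c, q)) '' Set.univ : Set (ZMod L × Fin s))).Finite :=
    fun c => Set.toFinite _
  have hcard : ∀ c : ZMod L,
      (((fun q : Fin s => (c, q)) '' Set.univ : Set (ZMod L × Fin s))).ncard = s := by
    intro c
    rw [Set.ncard_image_of_injective _ (fun a b h => congrArg Prod.snd h), Set.ncard_univ,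
      Nat.card_eq_fintype_card, Fintype.card_fin]
  calc ((blow L s).neighborSet x).ncard
      ≤ ((fun q : Fin s => (x.1 + 1, q)) '' Set.univ ∪
          (fun q : Fin s => (x.1 - 1, q)) '' Set.univ : Set (ZMod L × Fin s)).ncard :=
        Set.ncard_le_ncard hsub ((hfin _).union (hfin _))
    _ ≤ _ := Set.ncard_union_le _ _
    _ = 2 * s := by
      rw [hcard, hcard]
      ring

end Pool.Agent.Lib.SubBisL.SharpVtx
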