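import Pool.Agent.Lib.SubBisL.SharpBall
import Pool.Agent.Lib.SubBisL.SharpTr

/-!
# Cyclic products: coverings, colouring, degrees, copies
-/

set_option autoImplicit false

namespace Pool.Agent.Lib.SubBisL.SharpWrap

open Finset Pool.Agent.Lib.SubBisL SharpBall SharpTr

variable {s : ℕ} (E : Fin s → Fin s → Prop) (hE : ∀ i j, E i j → E j i)

lemma walk_shift {N : ℕ} {v w : ZMod N × Fin s} (p : (wrap N E hE).Walk v w) :
    ∃ k : ℤ, |k| ≤ p.length ∧ w.1 = v.1 + (k : ZMod N) := by
  induction p with
  | nil => exact ⟨0, by simp, by simp⟩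
  | @cons a b c h q ih =>
    obtain ⟨k, hk, hw⟩ := ih
    rcases h.2.1 with h1 | h1
    · refine ⟨k + 1, ?_, ?_⟩
      · rw [SimpleGraph.Walk.length_cons]
        push_cast
        calc |k + 1| ≤ |k| + |1| := abs_add_le k 1
          _ ≤ _ := by
            rw [abs_one]
            linarith
      · rw [hw, ← h1]
        push_cast
        ring
    · refine ⟨k - 1, ?_, ?_⟩
      · rw [SimpleGraph.Walk.length_cons]
        push_cast
        calc |k - 1| ≤ |k| + |1| := abs_sub k 1
          _ ≤ _ := by
            rw [abs_one]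
            linarith
      · rw [hw, ← h1]
        push_cast
        ring

/-- reduction modulo `L` -/
def red (L : ℕ) : ZMod (2 * L) →+* ZMod L := ZMod.castHom (Dvd.intro_left 2 rfl) (ZMod L)

/-- the covering of the cyclic product of length `L` by that of length `2 L` -/
def cov (L : ℕ) (x : ZMod (2 * L) × Fin s) : ZMod L × Fin s := (red L x.1, x.2)

theorem sameBall_double (R L : ℕ) (hL : 2 * (R + 1) < L) (x : ZMod (2 * L) × Fin s) :
    SameBall (wrap (2 * L) E hE) x (wrap L E hE) (cov L x) R := by
  refine sameBall_of_cover (cov L) ?_ ?_ x ?_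
  · intro x y h
    have key : (cov L x).1 + 1 = (cov L y).1 ∨ (cov L y).1 + 1 = (cov L x).1 := by
      rcases h.2.1 with h1 | h1
      · left
        simp only [cov]
        rw [← h1, map_add, map_one]
      · right
        simp only [cov]
        rw [← h1, map_add, map_one]
    refine ⟨fun he => ?_, key, h.2.2⟩
    rcases key with h1 | h1
    · rw [he] at h1
      exact one_ne L (by omega) _ h1.symm
    · rw [he] at h1
      exact one_ne L (by omega) _ h1.symm
  · intro x y h
    rcases h.2.1 with h1 | h1
    · refine ⟨(x.1 + 1, y.2), ⟨one_ne (2 * L) (by omega) _, Or.inl rfl, h.2.2⟩, ?_⟩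
      refine Prod.ext ?_ rfl
      rw [← h1]
      simp only [cov]
      rw [map_add, map_one]
    · refine ⟨(x.1 - 1, y.2), ⟨?_, Or.inr ?_, h.2.2⟩, ?_⟩
      · intro h2
        have h3 := one_ne (2 * L) (by omega) (x.1 - 1)
        rw [sub_add_cancel] at h3
        exact h3 h2.symm
      · exact sub_add_cancel _ _
      · refine Prod.ext ?_ rfl
        simp only [cov] at h1 ⊢
        rw [map_sub, map_one, ← h1, add_sub_cancel_right]
  · rintro a ⟨p, hp⟩ b ⟨q, hq⟩ h
    obtain ⟨k, hk, ha⟩ := walk_shift E hE p
    obtain ⟨l, hl, hb⟩ := walk_shift E hE q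
    have h1 : (cov L a).1 = (cov L b).1 := congrArg Prod.fst h
    have h2 : (cov L a).2 = (cov L b).2 := congrArg Prod.snd h
    simp only [cov] at h1 h2
    rw [ha, hb, map_add, map_add, map_intCast, map_intCast] at h1
    have h3 : (k : ZMod L) = (l : ZMod L) := add_left_cancel h1
    rw [ZMod.intCast_eq_intCast_iff_dvd_sub] at h3
    have hk' : |k| ≤ R + 1 := hk.trans (by exact_mod_cast hp)
    have hl' : |l| ≤ R + 1 := hl.trans (by exact_mod_cast hq)
    have h4 : l - k = 0 := by
      refine Int.eq_zero_of_abs_lt_dvd h3 ?_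
      have := abs_sub l k
      have h5 : (2 * (R + 1) : ℤ) < L := by exact_mod_cast hL
      linarith
    refine Prod.ext ?_ h2
    rw [ha, hb, show l = k by omega]

/-- an even cyclic product is bipartite -/
theorem wrap_colorable (L : ℕ) (hL : Even L) : (wrap L E hE).Colorable 2 := by
  have h2 : 2 ∣ L := hL.two_dvd
  refine ⟨SimpleGraph.Coloring.mk (fun x => (ZMod.castHom h2 (ZMod 2) x.1 : ZMod 2)) ?_⟩
  intro x y h h1
  have hne : ∀ a : ZMod 2, a + 1 ≠ a := by decide
  rcases h.2.1 with h3 | h3
  · rw [← h3, map_add, map_one] at h1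
    exact hne _ h1.symm
  · rw [← h3, map_add, map_one] at h1
    exact hne _ h1

/-- the degrees in a cyclic product -/
theorem wrap_deg (L Δ : ℕ) (hΔ : ∀ i, {j | E i j}.ncard ≤ Δ) : DegLe (wrap L E hE) (2 * Δ) := by
  intro x
  have hsub : (wrap L E hE).neighborSet x ⊆
      (fun q : Fin s => (x.1 + 1, q)) '' {j | E x.2 j} ∪
        (fun q : Fin s => (x.1 - 1, q)) '' {j | E x.2 j} := by
    intro y hy
    rw [SimpleGraph.mem_neighborSet] at hy
    rcases hy.2.1 with h | h
    · left
      exact ⟨y.2, hy.2.2, Prod.ext h rfl⟩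
    · right
      refine ⟨y.2, hy.2.2, Prod.ext ?_ rfl⟩
      change x.1 - 1 = y.1
      rw [← h, add_sub_cancel_right]
  have hcard : ∀ c : ZMod L,
      (((fun q : Fin s => (c, q)) '' {j | E x.2 j} : Set (ZMod L × Fin s))).ncard ≤ Δ := by
    intro c
    rw [Set.ncard_image_of_injective _ (fun a b h => congrArg Prod.snd h)]
    exact hΔ x.2
  calc ((wrap L E hE).neighborSet x).ncard
      ≤ ((fun q : Fin s => (x.1 + 1, q)) '' {j | E x.2 j} ∪
          (fun q : Fin s => (x.1 - 1, q)) '' {j | E x.2 j} : Set (ZMod L × Fin s)).ncard :=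
        Set.ncard_le_ncard hsub ((Set.toFinite _).union (Set.toFinite _))
    _ ≤ _ := Set.ncard_union_le _ _
    _ ≤ 2 * Δ := by
      have := hcard (x.1 + 1)
      have := hcard (x.1 - 1)
      omega

/-- the points of the long cycle are the points of the short one, twice -/
theorem exists_equiv (L : ℕ) (hL : 0 < L) :
    ∃ e : ZMod (2 * L) ≃ ZMod L × Fin 2, ∀ x, (e x).1 = red L x := by
  classical
  have : NeZero L := ⟨hL.ne'⟩
  have : NeZero (2 * L) := ⟨by omega⟩
  have hsurj : Function.Surjective (red L) := ZMod.castHom_surjective _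
  have hfib : ∀ y : ZMod L, Fintype.card {x // red L x = y} = 2 := by
    have heq : ∀ y z : ZMod L, Fintype.card {x // red L x = y} = Fintype.card {x // red L x = z} := by
      intro y z
      obtain ⟨d, hd⟩ := hsurj (z - y)
      refine Fintype.card_congr ⟨fun x => ⟨x.1 + d, ?_⟩, fun x => ⟨x.1 - d, ?_⟩, ?_, ?_⟩
      · rw [map_add, x.2, hd]
        ring
      · rw [map_sub, x.2, hd]
        ring
      · intro x
        simp
      · intro x
        simp
    intro y
    have h1 : Fintype.card (ZMod (2 * L)) = ∑ z : ZMod L, Fintype.card {x // red L x = z} := by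
      rw [← Fintype.card_sigma]
      exact Fintype.card_congr (Equiv.sigmaFiberEquiv (red L)).symm
    rw [sum_congr rfl fun z _ => heq z y, sum_const, card_univ, ZMod.card, ZMod.card,
      smul_eq_mul] at h1
    have h2 : L * Fintype.card {x // red L x = y} = L * 2 := by
      rw [← h1]
      ring
    exact Nat.eq_of_mul_eq_mul_left hL h2
  refine ⟨((Equiv.sigmaFiberEquiv (red L)).symm.trans
    (Equiv.sigmaCongrRight fun y => Fintype.equivFinOfCardEq (hfib y))).trans
    (Equiv.sigmaEquivProd (ZMod L) (Fin 2)), ?_⟩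
  intro x
  rfl

section copies

variable {V ι : Type}

/-- a set of vertices of the copies as a function -/
def parts [Fintype ι] [Fintype V] [DecidableEq ι] [DecidableEq V] :
    Finset (ι × V) ≃ (ι → Finset V) where
  toFun I i := univ.filter (fun a => (i, a) ∈ I)
  invFun σ := univ.filter (fun x => x.2 ∈ σ x.1)
  left_inv I := by
    ext x
    simp
  right_inv σ := by
    funext i
    ext a
    simp

/-- the partition function of disjoint copies -/
theorem ZZ_copies [Fintype ι] [Fintype V] (G : SimpleGraph V) (lam : ℝ) :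
    ZZ (copies ι G) lam = ZZ G lam ^ Fintype.card ι := by
  classical
  unfold ZZ
  rw [← card_univ, ← prod_const, prod_univ_sum, sum_filter,
    ← (parts (ι := ι) (V := V)).symm.sum_comp]
  have h0 : ∀ σ : ι → Finset V, ((copies ι G).IsIndepSet
      ((parts.symm σ : Finset (ι × V)) : Set (ι × V))) ↔
      σ ∈ Fintype.piFinset (fun _ : ι => univ.filter (fun I : Finset V => G.IsIndepSet (I : Set V))) := by
    intro σ
    rw [Fintype.mem_piFinset]
    simp only [mem_filter, mem_univ, true_and]
    constructor
    · intro h i a ha b hb hab hadj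
      have ha' : ((i, a) : ι × V) ∈ ((parts.symm σ : Finset (ι × V)) : Set (ι × V)) := by
        simp only [parts, Equiv.coe_fn_symm_mk, coe_filter, mem_univ, true_and, Set.mem_ofPred_eq]
        exact ha
      have hb' : ((i, b) : ι × V) ∈ ((parts.symm σ : Finset (ι × V)) : Set (ι × V)) := by
        simp only [parts, Equiv.coe_fn_symm_mk, coe_filter, mem_univ, true_and, Set.mem_ofPred_eq]
        exact hb
      exact h ha' hb' (fun he => hab (congrArg Prod.snd he)) ⟨rfl, hadj⟩
    · intro h x hx y hy _ hadj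
      simp only [parts, Equiv.coe_fn_symm_mk, coe_filter, mem_univ, true_and,
        Set.mem_ofPred_eq] at hx hy
      rw [← hadj.1] at hy
      exact h x.1 hx hy hadj.2.ne hadj.2
  have h1 : ∀ σ : ι → Finset V, (parts.symm σ : Finset (ι × V)).card = ∑ i, (σ i).card := by
    intro σ
    change (univ.filter (fun x : ι × V => x.2 ∈ σ x.1)).card = _
    rw [card_filter, Fintype.sum_prod_type]
    refine sum_congr rfl fun i _ => ?_
    rw [← card_filter]
    congr 1
    ext a
    simp
  rw [← univ_inter (Fintype.piFinset _), ← sum_ite_mem]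
  refine sum_congr rfl fun σ _ => ?_
  by_cases h : (copies ι G).IsIndepSet ((parts.symm σ : Finset (ι × V)) : Set (ι × V))
  · rw [if_pos h, if_pos ((h0 σ).1 h), h1, prod_pow_eq_pow_sum]
  · rw [if_neg h, if_neg (fun h' => h ((h0 σ).2 h'))]

end copies

lemma ZZ_pos {V : Type} [Fintype V] (G : SimpleGraph V) {lam : ℝ} (hlam : 0 < lam) :
    0 < ZZ G lam := by
  classical
  unfold ZZ
  refine sum_pos (fun I _ => pow_pos hlam _) ⟨∅, ?_⟩
  simp [SimpleGraph.IsIndepSet]

end Pool.Agent.Lib.SubBisL.SharpWrap
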