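import Pool.Agent.Lib.SubBisL.Local

/-!
# Locality without a bound on the degrees

The edges at the vertices of degree more than `D` are deleted. This is a local operation.
-/

namespace Pool.Agent.Lib.SubBisL

open Finset

/-! ## Balls -/

section balls

variable {V V' : Type}

theorem self_mem_ball (G : SimpleGraph V) (r : ℕ) (v : V) : v ∈ ball G r v :=
  ⟨SimpleGraph.Walk.nil, Nat.zero_le r⟩

theorem mem_ball_zero {G : SimpleGraph V} {v w : V} : w ∈ ball G 0 v ↔ w = v := by
  constructor
  · rintro ⟨p, hp⟩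
    exact (SimpleGraph.Walk.eq_of_length_eq_zero (Nat.le_zero.1 hp)).symm
  · rintro rfl
    exact self_mem_ball G 0 w

theorem mem_ball_succ {G : SimpleGraph V} {n : ℕ} {v w : V} :
    w ∈ ball G (n + 1) v ↔ w ∈ ball G n v ∨ ∃ u ∈ ball G n v, G.Adj u w := by
  constructor
  · rintro ⟨p, hp⟩
    rcases Nat.lt_or_ge p.length (n + 1) with h | h
    · exact Or.inl ⟨p, by omega⟩
    · right
      have hl : p.reverse.length = n + 1 := by
        rw [SimpleGraph.Walk.length_reverse]
        omega
      generalize p.reverse = q at hl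
      cases q with
      | nil => simp at hl
      | cons h q =>
        rename_i u
        rw [SimpleGraph.Walk.length_cons] at hl
        exact ⟨u, ⟨q.reverse, by rw [SimpleGraph.Walk.length_reverse]; omega⟩, h.symm⟩
  · rintro (h | ⟨u, ⟨p, hp⟩, h⟩)
    · exact ball_mono G (Nat.le_succ n) v h
    · exact ⟨p.concat h, by rw [SimpleGraph.Walk.length_concat]; omega⟩

theorem mem_ball_iso {G : SimpleGraph V} {G' : SimpleGraph V'} (e : G ≃g G') (r : ℕ) (v w : V) :
    e w ∈ ball G' r (e v) ↔ w ∈ ball G r v := by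
  constructor
  · rintro ⟨p, hp⟩
    refine ⟨(p.map e.symm.toHom).copy (e.symm_apply_apply v) (e.symm_apply_apply w), ?_⟩
    rw [SimpleGraph.Walk.length_copy, SimpleGraph.Walk.length_map]
    exact hp
  · rintro ⟨p, hp⟩
    exact ⟨p.map e.toHom, by rw [SimpleGraph.Walk.length_map]; exact hp⟩

/-- Isomorphic graphs have isomorphic balls. -/
def ballIso {G : SimpleGraph V} {G' : SimpleGraph V'} (e : G ≃g G') (r : ℕ) (v : V) :
    G.induce (ball G r v) ≃g G'.induce (ball G' r (e v)) where
  toEquiv := e.toEquiv.subtypeEquiv fun w => (mem_ball_iso e r v w).symm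
  map_rel_iff' := by
    intro a b
    exact e.map_adj_iff

theorem ballIso_root {G : SimpleGraph V} {G' : SimpleGraph V'} (e : G ≃g G') (r : ℕ) (v : V) :
    ballIso e r v (root G r v) = root G' r (e v) := rfl

theorem at_iso {φ : RootFun} (hφ : φ.Invariant) {G : SimpleGraph V} {G' : SimpleGraph V'}
    (e : G ≃g G') (r : ℕ) (v : V) : φ.at G r v = φ.at G' r (e v) := by
  unfold RootFun.at
  rw [hφ _ _ _ _ (ballIso e r v) (root G r v), ballIso_root]

end balls

/-! ## Truncation -/

section trunc

variable {V V' : Type}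

/-- The graph without the edges at the vertices of degree more than `D`. -/
def trunc (G : SimpleGraph V) (D : ℕ) : SimpleGraph V where
  Adj v w := G.Adj v w ∧ (G.neighborSet v).ncard ≤ D ∧ (G.neighborSet w).ncard ≤ D
  symm := ⟨fun _ _ h => ⟨h.1.symm, h.2.2, h.2.1⟩⟩
  loopless := ⟨fun _ h => h.1.ne rfl⟩

theorem trunc_le (G : SimpleGraph V) (D : ℕ) : trunc G D ≤ G := fun _ _ h => h.1

theorem trunc_colorable {G : SimpleGraph V} (h : G.Colorable 2) (D : ℕ) :
    (trunc G D).Colorable 2 := h.mono_left (trunc_le G D)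

theorem trunc_deg [Finite V] (G : SimpleGraph V) (D : ℕ) : DegLe (trunc G D) D := by
  intro v
  by_cases h : (G.neighborSet v).ncard ≤ D
  · refine le_trans (Set.ncard_le_ncard (fun w hw => ?_) (Set.toFinite _)) h
    exact hw.1
  · have h1 : (trunc G D).neighborSet v = ∅ := by
      ext w
      simp only [SimpleGraph.mem_neighborSet, Set.mem_empty_iff_false, iff_false]
      exact fun hw => h hw.2.1
    rw [h1, Set.ncard_empty]
    exact Nat.zero_le _

theorem ncard_nbr_iso {G : SimpleGraph V} {G' : SimpleGraph V'} (e : G ≃g G') (v : V) :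
    (G'.neighborSet (e v)).ncard = (G.neighborSet v).ncard := by
  have h1 : G'.neighborSet (e v) = e '' G.neighborSet v := by
    ext w
    constructor
    · intro hw
      refine ⟨e.symm w, ?_, e.apply_symm_apply w⟩
      have h2 : G'.Adj (e v) (e (e.symm w)) := by
        rw [e.apply_symm_apply]
        exact hw
      exact e.map_adj_iff.1 h2
    · rintro ⟨u, hu, rfl⟩
      exact e.map_adj_iff.2 hu
  rw [h1, Set.ncard_image_of_injective _ e.injective]

/-- Truncation commutes with isomorphisms. -/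
def truncIso {G : SimpleGraph V} {G' : SimpleGraph V'} (e : G ≃g G') (D : ℕ) :
    trunc G D ≃g trunc G' D where
  toEquiv := e.toEquiv
  map_rel_iff' := by
    intro a b
    show (G'.Adj (e a) (e b) ∧ (G'.neighborSet (e a)).ncard ≤ D ∧
      (G'.neighborSet (e b)).ncard ≤ D) ↔ _
    rw [ncard_nbr_iso, ncard_nbr_iso, e.map_adj_iff]
    rfl

theorem ball_le {G G' : SimpleGraph V} (h : G ≤ G') (r : ℕ) (v : V) : ball G r v ⊆ ball G' r v := by
  rintro w ⟨p, hp⟩
  exact ⟨p.mapLe h, by rw [SimpleGraph.Walk.length_map]; exact hp⟩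

/-- Inside the ball the degrees are right. -/
theorem ncard_nbr_ball {G : SimpleGraph V} {r : ℕ} {v : V} (x : ball G (r + 1) v)
    (hx : (x : V) ∈ ball G r v) :
    ((G.induce (ball G (r + 1) v)).neighborSet x).ncard = (G.neighborSet x).ncard := by
  have h1 : G.neighborSet x = Subtype.val '' (G.induce (ball G (r + 1) v)).neighborSet x := by
    ext w
    constructor
    · intro hw
      exact ⟨⟨w, mem_ball_succ.2 (Or.inr ⟨x, hx, hw⟩)⟩, hw, rfl⟩
    · rintro ⟨u, hu, rfl⟩
      exact hu
  rw [h1, Set.ncard_image_of_injective _ Subtype.val_injective]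

theorem trunc_adj_ball {G : SimpleGraph V} (D : ℕ) {r : ℕ} {v : V} (x y : ball G (r + 1) v)
    (hx : (x : V) ∈ ball G r v) (hy : (y : V) ∈ ball G r v) :
    (trunc (G.induce (ball G (r + 1) v)) D).Adj x y ↔ (trunc G D).Adj x y := by
  show (G.Adj x y ∧ ((G.induce (ball G (r + 1) v)).neighborSet x).ncard ≤ D ∧
    ((G.induce (ball G (r + 1) v)).neighborSet y).ncard ≤ D) ↔ _
  rw [ncard_nbr_ball x hx, ncard_nbr_ball y hy]
  rfl

theorem mem_ball_trunc {G : SimpleGraph V} (D : ℕ) {r : ℕ} {v : V} (n : ℕ) (hn : n ≤ r)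
    (w : ball G (r + 1) v) :
    w ∈ ball (trunc (G.induce (ball G (r + 1) v)) D) n (root G (r + 1) v) ↔
      (w : V) ∈ ball (trunc G D) n v := by
  induction n generalizing w with
  | zero =>
    rw [mem_ball_zero, mem_ball_zero]
    constructor
    · intro h
      rw [h]
      rfl
    · intro h
      exact Subtype.ext h
  | succ n ih =>
    have hsub : ∀ u : V, u ∈ ball (trunc G D) n v → u ∈ ball G n v := fun u hu =>
      ball_le (trunc_le G D) n v hu
    rw [mem_ball_succ, mem_ball_succ, ih (by omega)]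
    refine or_congr_right ?_
    constructor
    · rintro ⟨u, hu, hadj⟩
      have hu' := (ih (by omega) u).1 hu
      have h1 : (u : V) ∈ ball G n v := hsub u hu'
      have hG : G.Adj u w := trunc_le (G.induce (ball G (r + 1) v)) D hadj
      have h2 : (w : V) ∈ ball G (n + 1) v := mem_ball_succ.2 (Or.inr ⟨u, h1, hG⟩)
      exact ⟨u, hu', (trunc_adj_ball D u w (ball_mono G (by omega) v h1)
        (ball_mono G hn v h2)).1 hadj⟩
    · rintro ⟨u, hu, hadj⟩
      have h1 : u ∈ ball G n v := hsub u hu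
      have h2 : (w : V) ∈ ball G (n + 1) v :=
        mem_ball_succ.2 (Or.inr ⟨u, h1, (trunc_le _ D hadj)⟩)
      refine ⟨⟨u, ball_mono G (by omega) v h1⟩, (ih (by omega) _).2 hu, ?_⟩
      exact (trunc_adj_ball D ⟨u, ball_mono G (by omega) v h1⟩ w (ball_mono G (by omega) v h1)
        (ball_mono G hn v h2)).2 hadj

/-- The ball of the truncated graph is the ball of the truncated ball. -/
def truncBallIso (G : SimpleGraph V) (D r : ℕ) (v : V) :
    (trunc G D).induce (ball (trunc G D) r v) ≃g
      (trunc (G.induce (ball G (r + 1) v)) D).induce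
        (ball (trunc (G.induce (ball G (r + 1) v)) D) r (root G (r + 1) v)) where
  toFun w := ⟨⟨w, ball_mono G (Nat.le_succ r) v (ball_le (trunc_le G D) r v w.2)⟩,
    (mem_ball_trunc D r le_rfl _).2 w.2⟩
  invFun w := ⟨w, (mem_ball_trunc D r le_rfl _).1 w.2⟩
  left_inv w := rfl
  right_inv w := rfl
  map_rel_iff' := by
    intro a b
    exact trunc_adj_ball D _ _ (ball_le (trunc_le G D) r v a.2) (ball_le (trunc_le G D) r v b.2)

/-- The truncated function. -/
noncomputable def RootFun.trunc (φ : RootFun) (D r : ℕ) : RootFun := fun _ H o =>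
  φ.at (SubBisL.trunc H D) r o

theorem RootFun.trunc_inv {φ : RootFun} (hφ : φ.Invariant) (D r : ℕ) :
    (φ.trunc D r).Invariant := by
  intro W W' H H' e o
  exact at_iso hφ (truncIso e D) r o

theorem RootFun.trunc_at {φ : RootFun} (hφ : φ.Invariant) (G : SimpleGraph V) (D r : ℕ) (v : V) :
    (φ.trunc D r).at G (r + 1) v = φ.at (SubBisL.trunc G D) r v := by
  symm
  exact hφ _ _ _ _ (truncBallIso G D r v) (root (SubBisL.trunc G D) r v)

/-! ## The partition function of the truncated graph -/

theorem ZZ_anti [Fintype V] {G G' : SimpleGraph V} (h : G ≤ G') {lam : ℝ} (hlam : 0 < lam) :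
    ZZ G' lam ≤ ZZ G lam := by
  classical
  unfold ZZ
  refine sum_le_sum_of_subset_of_nonneg ?_ fun _ _ _ => by positivity
  intro I hI
  rw [mem_filter] at hI ⊢
  exact ⟨hI.1, fun x hx y hy hxy hadj => hI.2 hx hy hxy (h hadj)⟩

theorem ZZ_trunc_le [Fintype V] (G : SimpleGraph V) (D : ℕ) {lam : ℝ} (hlam : 0 < lam) :
    ZZ (trunc G D) lam ≤ (1 + lam) ^ Nat.card {v // D < (G.neighborSet v).ncard} * ZZ G lam := by
  classical
  set Q : Finset V := univ.filter fun v => D < (G.neighborSet v).ncard with hQ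
  have hcard : Nat.card {v // D < (G.neighborSet v).ncard} = Q.card := by
    rw [Nat.card_eq_fintype_card, Fintype.card_subtype]
  rw [hcard]
  have h1 : (1 + lam) ^ Q.card = ∑ A ∈ Q.powerset, lam ^ A.card := by
    have h := Finset.sum_pow_mul_eq_add_pow lam 1 Q
    rw [add_comm, ← h]
    refine sum_congr rfl fun t _ => ?_
    rw [one_pow, mul_one]
  have h2 : (1 + lam) ^ Q.card * ZZ G lam =
      ∑ p ∈ Q.powerset ×ˢ (univ.filter (fun I : Finset V => G.IsIndepSet (I : Set V))),
          lam ^ p.1.card * lam ^ p.2.card := by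
    rw [h1]
    unfold ZZ
    rw [sum_mul_sum, sum_product]
  rw [h2]
  unfold ZZ
  have hinj : Set.InjOn (fun I : Finset V => (I ∩ Q, I \ Q))
      (univ.filter (fun I : Finset V => (trunc G D).IsIndepSet (I : Set V))) := by
    intro I _ J _ hIJ
    have h3 : I ∩ Q = J ∩ Q := congrArg Prod.fst hIJ
    have h4 : I \ Q = J \ Q := congrArg Prod.snd hIJ
    rw [← sdiff_union_inter I Q, h3, h4, sdiff_union_inter]
  calc ∑ I ∈ univ.filter (fun I : Finset V => (trunc G D).IsIndepSet (I : Set V)), lam ^ I.card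
      = ∑ I ∈ univ.filter (fun I : Finset V => (trunc G D).IsIndepSet (I : Set V)),
          lam ^ (I ∩ Q).card * lam ^ (I \ Q).card := by
        refine sum_congr rfl fun I _ => ?_
        rw [← pow_add, card_inter_add_card_sdiff]
    _ = ∑ p ∈ (univ.filter (fun I : Finset V => (trunc G D).IsIndepSet (I : Set V))).image
          (fun I : Finset V => (I ∩ Q, I \ Q)), lam ^ p.1.card * lam ^ p.2.card := by
        rw [sum_image hinj]
    _ ≤ _ := by
        refine sum_le_sum_of_subset_of_nonneg ?_ fun _ _ _ => by positivity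
        intro p hp
        rw [mem_image] at hp
        obtain ⟨I, hI, rfl⟩ := hp
        rw [mem_filter] at hI
        rw [mem_product, mem_filter, mem_powerset]
        refine ⟨inter_subset_right, mem_univ _, ?_⟩
        intro x hx y hy hxy hadj
        rw [mem_coe, mem_sdiff] at hx hy
        have hx' : (G.neighborSet x).ncard ≤ D := by
          have := hx.2
          rw [hQ, mem_filter] at this
          push Not at this
          exact this (mem_univ x)
        have hy' : (G.neighborSet y).ncard ≤ D := by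
          have := hy.2
          rw [hQ, mem_filter] at this
          push Not at this
          exact this (mem_univ y)
        exact hI.2 hx.1 hy.1 hxy ⟨hadj, hx', hy'⟩

theorem logb_ZZ_trunc [Fintype V] (G : SimpleGraph V) (D : ℕ) {lam : ℝ} (hlam : 0 < lam) :
    |Real.logb 2 (ZZ G lam) - Real.logb 2 (ZZ (trunc G D) lam)| ≤
      Real.logb 2 (1 + lam) * Nat.card {v // D < (G.neighborSet v).ncard} := by
  have h1 := Real.logb_le_logb_of_le (b := 2) (by norm_num) (ZZ_pos G hlam)
    (ZZ_anti (trunc_le G D) hlam)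
  have h2 := Real.logb_le_logb_of_le (b := 2) (by norm_num) (ZZ_pos (trunc G D) hlam)
    (ZZ_trunc_le G D hlam)
  rw [Real.logb_mul (by positivity) (ZZ_pos G hlam).ne', Real.logb_pow] at h2
  have h3 : 0 ≤ Real.logb 2 (1 + lam) * Nat.card {v // D < (G.neighborSet v).ncard} :=
    mul_nonneg (Real.logb_nonneg (by norm_num) (by linarith)) (Nat.cast_nonneg _)
  rw [abs_le]
  constructor <;> linarith

/-- **Locality for all bipartite graphs**, without a bound on the degrees. -/
theorem locality_all (D : ℕ) {lam eps : ℝ} (hlam : 0 < lam) (heps : 0 < eps)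
    (heps1 : eps ≤ 1) :
    ∃ (r : ℕ) (φ : RootFun),
      (r : ℝ) ≤ 81 * (D + 1) * (Real.logb 2 (1 / eps) + |Real.logb 2 lam| + 5) / eps ∧
      φ.Invariant ∧
      (∀ (W : Type) (H : SimpleGraph W) (o : W),
        |φ W H o| ≤ (D + 3) * (Real.logb 2 (1 / eps) + |Real.logb 2 lam| + 5)) ∧
      ∀ (V : Type) [Fintype V] (G : SimpleGraph V), G.Colorable 2 →
        |Real.logb 2 (ZZ G lam) - ∑ v, φ.at G r v| ≤ eps * Fintype.card V +
          Real.logb 2 (1 + lam) * Nat.card {v // D < (G.neighborSet v).ncard} := by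
  obtain ⟨r, φ, hr, h1, h2, h3⟩ := locality_radius D hlam heps heps1
  refine ⟨r + 1, φ.trunc D r, ?_, RootFun.trunc_inv h1 D r, fun W H o => h2 _ _ _,
    fun V _ G hG => ?_⟩
  · have hb : (0 : ℝ) ≤ Real.logb 2 (1 / eps) :=
      Real.logb_nonneg (by norm_num) (by rw [le_div_iff₀ heps]; linarith)
    have ha : (0 : ℝ) ≤ |Real.logb 2 lam| := abs_nonneg _
    have h4 : (1 : ℝ) ≤ (D + 1) * (Real.logb 2 (1 / eps) + |Real.logb 2 lam| + 5) / eps := by
      rw [le_div_iff₀ heps]
      have hD : (0 : ℝ) ≤ D := Nat.cast_nonneg D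
      nlinarith
    have h5 : 81 * ((D : ℝ) + 1) * (Real.logb 2 (1 / eps) + |Real.logb 2 lam| + 5) / eps =
      80 * (D + 1) * (Real.logb 2 (1 / eps) + |Real.logb 2 lam| + 5) / eps +
        (D + 1) * (Real.logb 2 (1 / eps) + |Real.logb 2 lam| + 5) / eps := by ring
    push_cast
    rw [h5]
    linarith
  · have h4 := h3 V (trunc G D) (trunc_colorable hG D) (trunc_deg G D)
    have h5 := logb_ZZ_trunc G D hlam
    have h6 : ∑ v, (φ.trunc D r).at G (r + 1) v = ∑ v, φ.at (trunc G D) r v :=
      sum_congr rfl fun v _ => RootFun.trunc_at h1 G D r v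
    rw [h6]
    have h7 : Real.logb 2 (ZZ G lam) - ∑ v, φ.at (trunc G D) r v =
      (Real.logb 2 (ZZ G lam) - Real.logb 2 (ZZ (trunc G D) lam)) +
        (Real.logb 2 (ZZ (trunc G D) lam) - ∑ v, φ.at (trunc G D) r v) := by ring
    rw [h7, add_comm (eps * _)]
    exact (abs_add_le _ _).trans (add_le_add h5 h4)

end trunc

end Pool.Agent.Lib.SubBisL
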